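import Mathlib

/-!
# Coarse betweenness in graph-like metric spaces

`GeoMet X` is the structure of a discrete geodesic metric space (the vertex set of a connected
graph).  `QP l c q n` says that `q 0, ..., q n` is an edge path (repetitions allowed) which is a
quasi-geodesic with constants `l, c`.  `Btw l c A x y z` says that every such path from `x` to `z`
passes within `A` of `y`.
-/

namespace Pool.Agent.Lib.H76.Morse

/-- A discrete geodesic metric. -/
class GeoMet (X : Type*) where
  d : X → X → ℕ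
  d_self : ∀ x, d x x = 0
  eq_of_d : ∀ x y, d x y = 0 → x = y
  d_comm : ∀ x y, d x y = d y x
  d_tri : ∀ x y z, d x z ≤ d x y + d y z
  geo : ∀ x y, ∃ p : ℕ → X, p 0 = x ∧ p (d x y) = y ∧
    ∀ i j, i ≤ j → j ≤ d x y → d (p i) (p j) = j - i

open GeoMet

variable {X : Type*} [GeoMet X]

/-- `(l, c)`-quasi-geodesic edge path. -/
def QP (l c : ℕ) (q : ℕ → X) (n : ℕ) : Prop :=
  ∀ i j, i ≤ j → j ≤ n → d (q i) (q j) ≤ j - i ∧ j - i ≤ l * d (q i) (q j) + c

/-- Every `(l, c)`-path from `x` to `z` passes within `A` of `y`. -/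
def Btw (l c A : ℕ) (x y z : X) : Prop :=
  ∀ (q : ℕ → X) (n : ℕ), QP l c q n → q 0 = x → q n = z → ∃ i ≤ n, d (q i) y ≤ A

theorem QP.mono {l c l' c' : ℕ} {q : ℕ → X} {n : ℕ} (h : QP l c q n) (hl : l ≤ l')
    (hc : c ≤ c') : QP l' c' q n := by
  intro i j hij hj
  obtain ⟨h1, h2⟩ := h i j hij hj
  exact ⟨h1, h2.trans (Nat.add_le_add (Nat.mul_le_mul_right _ hl) hc)⟩

theorem Btw.mono {l c A l' c' A' : ℕ} {x y z : X} (h : Btw l c A x y z) (hl : l' ≤ l)
    (hc : c' ≤ c) (hA : A ≤ A') : Btw l' c' A' x y z := by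
  intro q n hq h0 hn
  obtain ⟨i, hi, hd⟩ := h q n (hq.mono hl hc) h0 hn
  exact ⟨i, hi, hd.trans hA⟩

theorem QP.rev {l c : ℕ} {q : ℕ → X} {n : ℕ} (h : QP l c q n) : QP l c (fun i => q (n - i)) n := by
  intro i j hij hj
  have := h (n - j) (n - i) (by omega) (by omega)
  have e : n - i - (n - j) = j - i := by omega
  rw [e] at this
  rw [d_comm (q (n - i))]
  exact this

theorem Btw.symm {l c A : ℕ} {x y z : X} (h : Btw l c A x y z) : Btw l c A z y x := by
  intro q n hq h0 hn
  obtain ⟨i, hi, hd⟩ := h (fun i => q (n - i)) n hq.rev (by simpa using hn) (by simpa using h0)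
  exact ⟨n - i, by omega, hd⟩

theorem QP.shift {l c : ℕ} {q : ℕ → X} {n a b : ℕ} (h : QP l c q n) (hab : a ≤ b) (hb : b ≤ n) :
    QP l c (fun i => q (a + i)) (b - a) := by
  intro i j hij hj
  have := h (a + i) (a + j) (by omega) (by omega)
  have e : a + j - (a + i) = j - i := by omega
  rw [e] at this
  exact this

theorem Btw.of_left {l c A : ℕ} {x y z : X} (h : d x y ≤ A) : Btw l c A x y z := by
  intro q n _ h0 _
  exact ⟨0, Nat.zero_le _, by rw [h0]; exact h⟩

theorem Btw.of_right {l c A : ℕ} {x y z : X} (h : d z y ≤ A) : Btw l c A x y z := by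
  intro q n _ _ hn
  exact ⟨n, le_rfl, by rw [hn]; exact h⟩

/-- Geodesic as a `QP`. -/
theorem geoQP (x y : X) : ∃ p : ℕ → X, p 0 = x ∧ p (d x y) = y ∧ QP 1 0 p (d x y) ∧
    ∀ i ≤ d x y, d x (p i) = i ∧ d (p i) y = d x y - i := by
  obtain ⟨p, h0, h1, h2⟩ := geo x y
  refine ⟨p, h0, h1, ?_, ?_⟩
  · intro i j hij hj
    rw [h2 i j hij hj]
    omega
  · intro i hi
    constructor
    · have := h2 0 i (Nat.zero_le _) hi
      rw [h0] at this; simpa using this
    · have := h2 i (d x y) hi le_rfl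
      rw [h1] at this; exact this

/-- Nearest point on a path. -/
theorem exists_nearest (q : ℕ → X) (n : ℕ) (v : X) :
    ∃ i0 ≤ n, ∀ i ≤ n, d v (q i0) ≤ d v (q i) := by
  obtain ⟨i0, hi0, h⟩ := Finset.exists_min_image (Finset.range (n + 1)) (fun i => d v (q i))
    ⟨0, by simp⟩
  refine ⟨i0, by simpa [Nat.lt_succ_iff] using hi0, fun i hi => h i (by simp; omega)⟩

/-- `p` is a geodesic from `x` to `y`. -/
def IsGeo (p : ℕ → X) (x y : X) : Prop :=
  p 0 = x ∧ p (d x y) = y ∧ ∀ i j, i ≤ j → j ≤ d x y → d (p i) (p j) = j - i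

theorem exists_isGeo (x y : X) : ∃ p : ℕ → X, IsGeo p x y := geo x y

theorem IsGeo.qp {p : ℕ → X} {x y : X} (h : IsGeo p x y) : QP 1 0 p (d x y) := by
  intro i j hij hj
  rw [h.2.2 i j hij hj]
  omega

theorem IsGeo.dist_left {p : ℕ → X} {x y : X} (h : IsGeo p x y) {i : ℕ} (hi : i ≤ d x y) :
    d x (p i) = i := by
  have := h.2.2 0 i (Nat.zero_le _) hi
  rw [h.1] at this
  simpa using this

theorem IsGeo.dist_right {p : ℕ → X} {x y : X} (h : IsGeo p x y) {i : ℕ} (hi : i ≤ d x y) :
    d (p i) y = d x y - i := by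
  have := h.2.2 i (d x y) hi le_rfl
  rw [h.2.1] at this
  exact this

/-- Concatenation: follow `p` for time `D`, then `q` from time `i0` on. -/
def cat (p : ℕ → X) (D : ℕ) (q : ℕ → X) (i0 : ℕ) : ℕ → X :=
  fun i => if i ≤ D then p i else q (i0 + (i - D))

omit [GeoMet X] in
theorem cat_left {p : ℕ → X} {D : ℕ} {q : ℕ → X} {i0 i : ℕ} (h : i ≤ D) :
    cat p D q i0 i = p i := by simp [cat, h]

omit [GeoMet X] in
theorem cat_right {p : ℕ → X} {D : ℕ} {q : ℕ → X} {i0 i : ℕ} (h : D < i) :
    cat p D q i0 i = q (i0 + (i - D)) := by simp [cat, not_le.mpr h]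

omit [GeoMet X] in
theorem cat_last {p : ℕ → X} {D : ℕ} {q : ℕ → X} {i0 n : ℕ} (h : i0 ≤ n) (hp : p D = q i0) :
    cat p D q i0 (D + (n - i0)) = q n := by
  by_cases h1 : n = i0
  · subst h1
    rw [cat_left (by omega)]
    simpa using hp
  · rw [cat_right (by omega)]
    congr 1
    omega

/-- Nearest point concatenation: the geodesic from `v` to a nearest point of `q`, followed by the
rest of `q`. -/
theorem np_path {l c : ℕ} {q : ℕ → X} {n : ℕ} (hq : QP l c q n) {v : X} {i0 : ℕ} (hi0 : i0 ≤ n)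
    (hmin : ∀ i ≤ n, d v (q i0) ≤ d v (q i)) {p : ℕ → X} (hp : IsGeo p v (q i0)) :
    QP (2 * l + 1) c (cat p (d v (q i0)) q i0) (d v (q i0) + (n - i0)) := by
  have hp2 := hp.qp
  set D := d v (q i0) with hD
  intro i j hij hj
  by_cases h1 : j ≤ D
  · have h2 : i ≤ D := hij.trans h1
    rw [cat_left h1, cat_left h2]
    have := hp2 i j hij h1
    refine ⟨this.1, this.2.trans ?_⟩
    nlinarith [Nat.zero_le (d (p i) (p j))]
  · by_cases h2 : i ≤ D
    · rw [cat_left h2, cat_right (not_le.mp h1)]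
      set k := i0 + (j - D) with hk
      have hkn : k ≤ n := by omega
      have e1 := hp.dist_left h2
      have e1' := hp.dist_right h2
      have e2 := hq i0 k (by omega) hkn
      have e3 := hmin k hkn
      have t1 := d_tri (p i) (q i0) (q k)
      have t2 := d_tri v (p i) (q k)
      have t3 := d_tri (q i0) (p i) (q k)
      rw [d_comm (q i0) (p i)] at t3
      have e4 : k - i0 = j - D := by omega
      rw [e4] at e2
      constructor
      · omega
      · have h5 : d (p i) (q i0) ≤ d (p i) (q k) := by omega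
        have h6 : d (q i0) (q k) ≤ 2 * d (p i) (q k) := by omega
        have h7 : l * d (q i0) (q k) ≤ l * (2 * d (p i) (q k)) := Nat.mul_le_mul_left _ h6
        have h8 : (2 * l + 1) * d (p i) (q k) = l * (2 * d (p i) (q k)) + d (p i) (q k) := by ring
        rw [h8]
        omega
    · rw [cat_right (not_le.mp h1), cat_right (not_le.mp h2)]
      have := hq (i0 + (i - D)) (i0 + (j - D)) (by omega) (by omega)
      have e : i0 + (j - D) - (i0 + (i - D)) = j - i := by omega
      rw [e] at this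
      refine ⟨this.1, this.2.trans ?_⟩
      nlinarith [Nat.zero_le (d (q (i0 + (i - D))) (q (i0 + (j - D))))]

/-- Prepending a geodesic only changes the additive constant. -/
theorem pre_path {l c : ℕ} {q : ℕ → X} {n : ℕ} (hq : QP l c q n) {f : X} {p : ℕ → X}
    (hp : IsGeo p f (q 0)) :
    QP l (c + (l + 1) * d f (q 0)) (cat p (d f (q 0)) q 0) (d f (q 0) + n) := by
  have hp2 := hp.qp
  set D := d f (q 0) with hD
  intro i j hij hj
  by_cases h1 : j ≤ D
  · have h2 : i ≤ D := hij.trans h1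
    rw [cat_left h1, cat_left h2]
    have := hp2 i j hij h1
    refine ⟨this.1, ?_⟩
    have h10 : (l + 1) * D = l * D + D := by ring
    omega
  · by_cases h2 : i ≤ D
    · rw [cat_left h2, cat_right (not_le.mp h1)]
      set k := 0 + (j - D) with hk
      have hkn : k ≤ n := by omega
      have e1 := hp.dist_left h2
      have e1' := hp.dist_right h2
      have e2 := hq 0 k (by omega) hkn
      have t1 := d_tri (p i) (q 0) (q k)
      have t3 := d_tri (q 0) (p i) (q k)
      rw [d_comm (q 0) (p i)] at t3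
      have e4 : k - 0 = j - D := by omega
      rw [e4] at e2
      constructor
      · omega
      · have h7 : l * d (q 0) (q k) ≤ l * (d (p i) (q 0) + d (p i) (q k)) :=
          Nat.mul_le_mul_left _ t3
        have h8 : l * (d (p i) (q 0) + d (p i) (q k)) = l * d (p i) (q 0) + l * d (p i) (q k) := by
          ring
        have h9 : l * d (p i) (q 0) ≤ l * D := Nat.mul_le_mul_left _ (by omega)
        have h10 : (l + 1) * D = l * D + D := by ring
        omega
    · rw [cat_right (not_le.mp h1), cat_right (not_le.mp h2)]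
      have := hq (0 + (i - D)) (0 + (j - D)) (by omega) (by omega)
      have e : 0 + (j - D) - (0 + (i - D)) = j - i := by omega
      rw [e] at this
      exact ⟨this.1, this.2.trans (by omega)⟩

/-- The reversed path. -/
def revp (q : ℕ → X) (n : ℕ) : ℕ → X := fun i => q (n - i)

omit [GeoMet X] in
theorem revp_sub (q : ℕ → X) {n i0 : ℕ} (h : i0 ≤ n) : revp q n (n - i0) = q i0 := by
  unfold revp
  congr 1
  omega

/-- The geodesic from `m` to the nearest point of `q`, followed by `q` backwards. -/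
theorem np_path_rev {l c : ℕ} {q : ℕ → X} {n : ℕ} (hq : QP l c q n) {m : X} {i0 : ℕ} (hi0 : i0 ≤ n)
    (hmin : ∀ i ≤ n, d m (q i0) ≤ d m (q i)) {p : ℕ → X} (hp : IsGeo p m (q i0)) :
    QP (2 * l + 1) c (cat p (d m (q i0)) (revp q n) (n - i0)) (d m (q i0) + i0) ∧
      cat p (d m (q i0)) (revp q n) (n - i0) (d m (q i0) + i0) = q 0 := by
  have hq' : QP l c (revp q n) n := hq.rev
  have key := revp_sub q hi0
  have hp' : IsGeo p m (revp q n (n - i0)) := by rw [key]; exact hp
  have hmin' : ∀ i ≤ n, d m (revp q n (n - i0)) ≤ d m (revp q n i) := by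
    intro i _
    rw [key]
    exact hmin _ (by omega)
  have hr := np_path hq' (by omega : n - i0 ≤ n) hmin' hp'
  rw [key] at hr
  have e : n - (n - i0) = i0 := by omega
  rw [e] at hr
  refine ⟨hr, ?_⟩
  have h2 := cat_last (p := p) (D := d m (q i0)) (q := revp q n) (i0 := n - i0) (n := n) (by omega)
    (by rw [key]; exact hp.2.1)
  rw [e] at h2
  rw [h2]
  show q (n - n) = q 0
  simp

/-- Key lemma: local betweenness at `m` in `(m', m, z)` and weak betweenness of `m'` in
`(x, m', m)` imply betweenness of `m` in `(x, m, z)`. -/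
theorem ext_point {l c A T : ℕ} {x m' m z : X} (h1 : Btw (2 * l + 1) c A x m' m)
    (h2 : Btw (4 * l + 3) c T m' m z) (hL : 2 * A + T < d m' m) : Btw l c T x m z := by
  intro q n hq h0 hn
  by_contra hcon
  push Not at hcon
  obtain ⟨i0, hi0, hmin⟩ := exists_nearest q n m
  obtain ⟨p, hp⟩ := exists_isGeo m (q i0)
  -- path from `m` to `x`
  obtain ⟨hr, hrlast⟩ := np_path_rev hq hi0 hmin hp
  obtain ⟨j, hj, hjd⟩ := h1.symm _ _ hr (by rw [cat_left (Nat.zero_le _)]; exact hp.1)
    (by rw [hrlast, h0])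
  set D := d m (q i0) with hD
  have hmq : T < d m (q i0) := by
    have := hcon i0 hi0
    rw [d_comm] at this; exact this
  by_cases hjD : j ≤ D
  · -- the geodesic from m passes near m'
    rw [cat_left hjD] at hjd
    have hb := np_path hq hi0 hmin hp
    rw [← hD] at hb
    set b := cat p D q i0 with hbdef
    obtain ⟨i1, hi1, hmin1⟩ := exists_nearest b (D + (n - i0)) m'
    have hbj : b j = p j := cat_left hjD
    have hA1 : d m' (b i1) ≤ A := by
      have := hmin1 j (by omega)
      rw [hbj, d_comm m' (p j)] at this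
      exact this.trans hjd
    obtain ⟨p', hp'2⟩ := exists_isGeo m' (b i1)
    have hr2 := np_path hb hi1 hmin1 hp'2
    have hlast : cat p' (d m' (b i1)) b i1 (d m' (b i1) + (D + (n - i0) - i1)) = z := by
      rw [cat_last hi1 hp'2.2.1, hbdef, cat_last hi0 hp.2.1, hn]
    obtain ⟨k, hk, hkd⟩ := (h2.mono (by omega : 2 * (2 * l + 1) + 1 ≤ 4 * l + 3) le_rfl le_rfl)
      _ _ hr2 (by rw [cat_left (Nat.zero_le _)]; exact hp'2.1) hlast
    by_cases hkD : k ≤ d m' (b i1)
    · rw [cat_left hkD] at hkd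
      have e1 := hp'2.dist_left hkD
      have t := d_tri m' (p' k) m
      omega
    · rw [cat_right (not_le.mp hkD)] at hkd
      set i2 := i1 + (k - d m' (b i1)) with hi2
      by_cases hi2D : i2 ≤ D
      · have e1 : b i2 = p i2 := cat_left hi2D
        have e2 : b i1 = p i1 := cat_left (by omega)
        rw [e1] at hkd
        rw [e2] at hA1
        have e3 := hp.dist_left (i := i2) hi2D
        have e4 := hp.dist_left (i := i1) (by omega)
        have t := d_tri m' (p i1) m
        rw [d_comm (p i1) m] at t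
        rw [d_comm (p i2) m] at hkd
        have e5 : i1 ≤ i2 := by omega
        omega
      · have e1 : b i2 = q (i0 + (i2 - D)) := cat_right (not_le.mp hi2D)
        rw [e1] at hkd
        have := hcon (i0 + (i2 - D)) (by omega)
        omega
  · rw [cat_right (not_le.mp hjD)] at hjd
    -- q passes near m'
    set i3 := n - (n - i0 + (j - D)) with hi3
    have hjd' : d (q i3) m' ≤ A := by
      simpa only [revp] using hjd
    obtain ⟨i1, hi1, hmin1⟩ := exists_nearest q n m'
    have hA1 : d m' (q i1) ≤ A := by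
      have := hmin1 i3 (by omega)
      rw [d_comm m' (q i3)] at this
      exact this.trans hjd'
    obtain ⟨p', hp'2⟩ := exists_isGeo m' (q i1)
    have hr2 := np_path hq hi1 hmin1 hp'2
    obtain ⟨k, hk, hkd⟩ := (h2.mono (by omega : 2 * l + 1 ≤ 4 * l + 3) le_rfl le_rfl)
      _ _ hr2 (by rw [cat_left (Nat.zero_le _)]; exact hp'2.1) (by
        rw [cat_last hi1 hp'2.2.1, hn])
    by_cases hkD : k ≤ d m' (q i1)
    · rw [cat_left hkD] at hkd
      have e1 := hp'2.dist_left hkD
      have t := d_tri m' (p' k) m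
      omega
    · rw [cat_right (not_le.mp hkD)] at hkd
      have := hcon (i1 + (k - d m' (q i1))) (by omega)
      omega

/-- General one-sided nearest point argument. -/
theorem np_left {l c A : ℕ} {x y m z : X} (h1 : Btw (2 * l + 1) c A x y m)
    {q : ℕ → X} {n : ℕ} (hq : QP l c q n) (h0 : q 0 = x) (_hn : q n = z)
    {i0 : ℕ} (hi0 : i0 ≤ n) (hmin : ∀ i ≤ n, d m (q i0) ≤ d m (q i)) :
    (∃ i ≤ n, d (q i) y ≤ A) ∨
      ∃ w : X, d w y ≤ A ∧ d m w + d w (q i0) = d m (q i0) := by
  obtain ⟨p, hp⟩ := exists_isGeo m (q i0)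
  obtain ⟨hr, hrlast⟩ := np_path_rev hq hi0 hmin hp
  obtain ⟨j, hj, hjd⟩ := h1.symm _ _ hr (by rw [cat_left (Nat.zero_le _)]; exact hp.1)
    (by rw [hrlast, h0])
  by_cases hjD : j ≤ d m (q i0)
  · rw [cat_left hjD] at hjd
    refine Or.inr ⟨p j, hjd, ?_⟩
    rw [hp.dist_left hjD, hp.dist_right hjD]
    omega
  · rw [cat_right (not_le.mp hjD)] at hjd
    exact Or.inl ⟨n - (n - i0 + (j - d m (q i0))), by omega, by simpa only [revp] using hjd⟩

theorem btw_left {l c A T : ℕ} {x y m z : X} (h1 : Btw (2 * l + 1) c A x y m)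
    (h2 : Btw l c T x m z) : Btw l c (A + T) x y z := by
  intro q n hq h0 hn
  obtain ⟨i0, hi0, hmin⟩ := exists_nearest q n m
  obtain ⟨i', hi', hd'⟩ := h2 q n hq h0 hn
  have hD : d m (q i0) ≤ T := by
    have := hmin i' hi'
    rw [d_comm m (q i')] at this
    exact this.trans hd'
  rcases np_left h1 hq h0 hn hi0 hmin with ⟨i, hi, hd⟩ | ⟨w, hw, hw2⟩
  · exact ⟨i, hi, by omega⟩
  · refine ⟨i0, hi0, ?_⟩
    have t := d_tri (q i0) w y
    rw [d_comm (q i0) w] at t
    omega

theorem btw_right {l c A T : ℕ} {x y m z : X} (h1 : Btw (2 * l + 1) c A m y z)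
    (h2 : Btw l c T x m z) : Btw l c (A + T) x y z :=
  (btw_left h1.symm h2.symm).symm

theorem imp1 {l c B T : ℕ} {x y w z : X} (h1 : Btw l c B x w z)
    (h2 : Btw (2 * l + 1) c T x y w) (h3 : B + T < d w y) : Btw l c T x y z := by
  intro q n hq h0 hn
  obtain ⟨i0, hi0, hmin⟩ := exists_nearest q n w
  obtain ⟨i', hi', hd'⟩ := h1 q n hq h0 hn
  have hD : d w (q i0) ≤ B := by
    have := hmin i' hi'
    rw [d_comm w (q i')] at this
    exact this.trans hd'
  rcases np_left h2 hq h0 hn hi0 hmin with ⟨i, hi, hd⟩ | ⟨v, hv, hv2⟩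
  · exact ⟨i, hi, hd⟩
  · exfalso
    have t := d_tri w v y
    omega

theorem imp2 {l c B T : ℕ} {x y v z : X} (h1 : Btw l c B x v z)
    (h2 : Btw (2 * l + 1) c T v y z) (h3 : B + T < d v y) : Btw l c T x y z :=
  (imp1 h1.symm h2.symm h3).symm

/-- Two-sided version. -/
theorem imp3 {l c B T : ℕ} {x y v w z : X} (h1 : Btw l c B x w z)
    (h2 : Btw (2 * l + 1) c B x v w) (h3 : Btw (4 * l + 3) c T v y w)
    (h4 : B + T < d v y) (h5 : B + T < d w y) : Btw l c T x y z :=
  imp1 h1 (imp2 h2 (h3.mono (by omega) le_rfl le_rfl) h4) h5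

/-- Changing the left end point by prepending a geodesic; the point far from the end point is not
affected. -/
theorem prep {l c A D : ℕ} {f x v m : X} (h : Btw l (c + (l + 1) * D) A f v m)
    (hd : d f x ≤ D) (h3 : A + D < d f v) : Btw l c A x v m := by
  intro q n hq h0 hn
  obtain ⟨p, hp⟩ := exists_isGeo f (q 0)
  have hr := pre_path hq hp
  have hle : d f (q 0) ≤ D := by rw [h0]; exact hd
  have hr' : QP l (c + (l + 1) * D) (cat p (d f (q 0)) q 0) (d f (q 0) + n) :=
    hr.mono le_rfl (by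
      have := Nat.mul_le_mul_left (l + 1) hle
      omega)
  obtain ⟨j, hj, hjd⟩ := h _ _ hr' (by rw [cat_left (Nat.zero_le _)]; exact hp.1) (by
    have := cat_last (p := p) (D := d f (q 0)) (q := q) (Nat.zero_le n) hp.2.1
    simpa [hn] using this)
  by_cases hjD : j ≤ d f (q 0)
  · exfalso
    rw [cat_left hjD] at hjd
    have e := hp.dist_left hjD
    have t := d_tri f (p j) v
    omega
  · rw [cat_right (not_le.mp hjD)] at hjd
    exact ⟨0 + (j - d f (q 0)), by omega, hjd⟩

/-- Changing the left end point. -/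
theorem move_left {l c A D : ℕ} {x x' y z : X} (h : Btw l (c + (l + 1) * D) A x y z)
    (hd : d x x' ≤ D) : Btw l c (A + D) x' y z := by
  intro q n hq h0 hn
  obtain ⟨p, hp⟩ := exists_isGeo x (q 0)
  have hr := pre_path hq hp
  have hle : d x (q 0) ≤ D := by rw [h0]; exact hd
  have hr' : QP l (c + (l + 1) * D) (cat p (d x (q 0)) q 0) (d x (q 0) + n) :=
    hr.mono le_rfl (by
      have := Nat.mul_le_mul_left (l + 1) hle
      omega)
  obtain ⟨j, hj, hjd⟩ := h _ _ hr' (by rw [cat_left (Nat.zero_le _)]; exact hp.1) (by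
    have := cat_last (p := p) (D := d x (q 0)) (q := q) (Nat.zero_le n) hp.2.1
    simpa [hn] using this)
  by_cases hjD : j ≤ d x (q 0)
  · rw [cat_left hjD] at hjd
    have e := hp.dist_right hjD
    have t := d_tri (q 0) (p j) y
    rw [d_comm (q 0) (p j)] at t
    exact ⟨0, Nat.zero_le _, by omega⟩
  · rw [cat_right (not_le.mp hjD)] at hjd
    exact ⟨0 + (j - d x (q 0)), by omega, by omega⟩

theorem move_right {l c A D : ℕ} {x y z z' : X} (h : Btw l (c + (l + 1) * D) A x y z)
    (hd : d z z' ≤ D) : Btw l c (A + D) x y z' :=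
  (move_left h.symm hd).symm

theorem move_mid {l c A D : ℕ} {x y y' z : X} (h : Btw l c A x y z)
    (hd : d y y' ≤ D) : Btw l c (A + D) x y' z := by
  intro q n hq h0 hn
  obtain ⟨i, hi, hdi⟩ := h q n hq h0 hn
  have t := d_tri (q i) y y'
  exact ⟨i, hi, by omega⟩

theorem perturb {l c A D : ℕ} {x x' y y' z z' : X} (h : Btw l (c + 2 * ((l + 1) * D)) A x y z)
    (hx : d x x' ≤ D) (hy : d y y' ≤ D) (hz : d z z' ≤ D) : Btw l c (A + 3 * D) x' y' z' := by
  have h1 : Btw l (c + (l + 1) * D) (A + D) x' y z :=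
    move_left (h.mono le_rfl (by omega) le_rfl) hx
  have h2 := move_right h1 hz
  exact (move_mid h2 hy).mono le_rfl le_rfl (by omega)

end Pool.Agent.Lib.H76.Morse
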