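import Pool.Agent.Lib.H76.Morse.Corner

/-!
# Asymptotic rays, stabilizers, and a counting argument
-/

namespace Pool.Agent.Lib.H76.Morse

open GeoMet List GroupGeo Pointwise

section metric

variable {X : Type*} [GeoMet X]

/-- Asymptotic sequences. -/
def Asym (α β : ℕ → X) : Prop := ∃ C, ∀ n, d (α n) (β n) ≤ C

theorem Asym.refl (α : ℕ → X) : Asym α α := ⟨0, fun n => by rw [d_self]⟩

theorem Asym.symm {α β : ℕ → X} (h : Asym α β) : Asym β α := by
  obtain ⟨C, hC⟩ := h
  exact ⟨C, fun n => by rw [d_comm]; exact hC n⟩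

theorem Asym.trans {α β γ : ℕ → X} (h : Asym α β) (h' : Asym β γ) : Asym α γ := by
  obtain ⟨C, hC⟩ := h
  obtain ⟨C', hC'⟩ := h'
  refine ⟨C + C', fun n => ?_⟩
  have t := d_tri (α n) (β n) (γ n)
  have := hC n
  have := hC' n
  omega

theorem IsRay.dist_zero {γ : ℕ → X} (h : IsRay γ) (n : ℕ) : d (γ 0) (γ n) = n := by
  have := h 0 n (Nat.zero_le _)
  omega

theorem IsRay.tseg {V : ℕ → ℕ → ℕ} {γ : ℕ → X} (h : IsRay γ) (hV : Tight V γ) (n : ℕ) :
    TSeg V γ n := ⟨fun i j hij _ => h i j hij, fun l c a u b h1 h2 _ => hV l c a u b h1 h2⟩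

theorem IsRay.qp {γ : ℕ → X} (h : IsRay γ) (n : ℕ) : QP 1 0 γ n := by
  intro i j hij _
  rw [h i j hij]
  omega

theorem IsRay.dist_abs {γ : ℕ → X} (h : IsRay γ) (i j : ℕ) :
    d (γ i) (γ j) = (i - j) + (j - i) := by
  rcases le_total i j with h' | h'
  · rw [h i j h']; omega
  · rw [d_comm, h j i h']; omega

theorem Tight.mono {V V' : ℕ → ℕ → ℕ} {γ : ℕ → X} (h : Tight V γ) (hV : ∀ l c, V l c ≤ V' l c) :
    Tight V' γ := fun l c a u b h1 h2 => (h l c a u b h1 h2).mono le_rfl le_rfl (hV l c)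

/-- Points of a ray asymptotic to a tight ray are eventually uniformly close to it. -/
theorem near_asym {V : ℕ → ℕ → ℕ} {α β : ℕ → X} (hα : IsRay α) (hV : Tight V α) (hβ : IsRay β)
    (h : Asym β α) {T : ℕ} (hT : 2 * d (α 0) (β 0) ≤ T) : ∃ s, d (β T) (α s) ≤ nb V 7 0 := by
  obtain ⟨C, hC⟩ := h
  obtain ⟨n, hn⟩ : ∃ n, n = T + d (α 0) (β 0) + C + 1 := ⟨_, rfl⟩
  obtain ⟨t0, ht0, hmin⟩ := exists_nearest β n (α 0)
  obtain ⟨g, hg⟩ := exists_isGeo (α 0) (β t0)
  have hq1 := np_path (hβ.qp n) ht0 hmin hg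
  set D0 := d (α 0) (β t0) with hD0
  have hD0' : D0 ≤ d (α 0) (β 0) := hmin 0 (Nat.zero_le _)
  have ht0' : t0 ≤ T := by
    have t1 := d_tri (β 0) (α 0) (β t0)
    rw [d_comm (β 0) (α 0), hβ.dist_zero] at t1
    omega
  set q1 := cat g D0 β t0 with hq1d
  have e1 : ∀ i, q1 (D0 + i) = β (t0 + i) := fun i => cat_add hg.2.1
  have e0 : q1 0 = α 0 := by rw [hq1d, cat_left (Nat.zero_le _)]; exact hg.1
  set N1 := D0 + (n - t0) with hN1
  obtain ⟨i1, hi1, hmin1⟩ := exists_nearest q1 N1 (α n)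
  obtain ⟨g', hg'⟩ := exists_isGeo (α n) (q1 i1)
  obtain ⟨hq2, hq2l⟩ := np_path_rev hq1 hi1 hmin1 hg'
  set D1 := d (α n) (q1 i1) with hD1
  have hD1' : D1 ≤ C := by
    have h1 := hmin1 N1 le_rfl
    have e2 : q1 N1 = β n := by
      rw [hN1, e1]
      congr 1
      omega
    rw [e2, d_comm (α n) (β n)] at h1
    exact h1.trans (hC n)
  have hi1' : n ≤ i1 + C := by
    have h1 := (hq1 0 i1 (Nat.zero_le _) hi1).1
    rw [e0] at h1
    have t1 := d_tri (α 0) (q1 i1) (α n)
    rw [hα.dist_zero, d_comm (q1 i1) (α n)] at t1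
    omega
  have he : q1 (D0 + (T - t0)) = β T := by
    rw [e1]
    congr 1
    omega
  have hle : D0 + (T - t0) ≤ i1 := by omega
  obtain ⟨u, _, hu⟩ := (hα.tseg hV n).near hq2.rev (b := n) le_rfl (by
    simp only [Nat.sub_zero]
    rw [hq2l, e0]) (by
    simp only [Nat.sub_self]
    rw [cat_left (Nat.zero_le _)]
    exact hg'.1) (D0 + (T - t0)) (by omega)
  refine ⟨u, ?_⟩
  have e5 : D1 + i1 - (D0 + (T - t0)) = D1 + (i1 - (D0 + (T - t0))) := by omega
  have key : g' D1 = revp q1 N1 (N1 - i1) := by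
    rw [revp_sub q1 hi1]
    exact hg'.2.1
  have e6 : cat g' D1 (revp q1 N1) (N1 - i1) (D1 + (i1 - (D0 + (T - t0)))) =
      q1 (D0 + (T - t0)) := by
    rw [cat_add key]
    unfold revp
    congr 1
    omega
  rw [e5, e6, he] at hu
  exact hu

/-- Two rays from the same point, one of them tight, which meet infinitely often are
asymptotic. -/
theorem asym_of_meet {W : ℕ → ℕ → ℕ} {α β : ℕ → X} (hα : IsRay α) (hW : Tight W α) (hβ : IsRay β)
    (h0 : α 0 = β 0) (h : ∀ N, ∃ t ≥ N, α t = β t) : Asym α β := by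
  refine ⟨2 * W 1 0, fun u => ?_⟩
  obtain ⟨t, ht, e⟩ := h u
  obtain ⟨j, hj, hd⟩ := hW 1 0 0 u t (Nat.zero_le _) ht β t (hβ.qp t) h0.symm e.symm
  have t1 := d_tri (α 0) (β j) (α u)
  have t2 := d_tri (α 0) (α u) (β j)
  rw [hα.dist_zero] at t1 t2
  rw [h0, hβ.dist_zero] at t1 t2
  have e3 := hβ.dist_abs j u
  have t3 := d_tri (α u) (β j) (β u)
  rw [d_comm (α u) (β j)] at t2 t3
  omega

end metric

variable {G : Type*} [Group G] [GroupGeo G]

theorem IsRay.smul {γ : ℕ → G} (h : IsRay γ) (g : G) : IsRay (fun n => g * γ n) := by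
  intro i j hij
  rw [d_left]
  exact h i j hij

theorem Tight.smul {V : ℕ → ℕ → ℕ} {γ : ℕ → G} (h : Tight V γ) (g : G) :
    Tight V (fun n => g * γ n) := fun l c a u b h1 h2 => (h l c a u b h1 h2).smul g

theorem Asym.smul {α β : ℕ → G} (h : Asym α β) (g : G) :
    Asym (fun n => g * α n) (fun n => g * β n) := by
  obtain ⟨C, hC⟩ := h
  exact ⟨C, fun n => by rw [d_left]; exact hC n⟩

/-- The stabilizer of the asymptotic class of a sequence. -/
def stab (α : ℕ → G) : Subgroup G where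
  carrier := {g | Asym (fun n => g * α n) α}
  mul_mem' := by
    intro a b ha hb
    have h1 := Asym.smul hb a
    refine Asym.trans ?_ ha
    simpa only [mul_assoc] using h1
  one_mem' := by
    show Asym (fun n => 1 * α n) α
    simpa only [one_mul] using Asym.refl α
  inv_mem' := by
    intro a ha
    have h1 := Asym.smul ha a⁻¹
    simp only [inv_mul_cancel_left] at h1
    exact h1.symm

theorem mem_stab {α : ℕ → G} {g : G} : g ∈ stab α ↔ Asym (fun n => g * α n) α := Iff.rfl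

/-- If the stabilizer of a tight ray has finite index, then the group has linear growth. -/
theorem ball_upper {V : ℕ → ℕ → ℕ} {α : ℕ → G} (h0 : α 0 = 1) (hα : IsRay α) (hV : Tight V α)
    (hfin : (stab α).FiniteIndex) :
    ∃ A B : ℕ, ∀ ρ, (fin_ball ρ : {g : G | d 1 g ≤ ρ}.Finite).toFinset.card ≤ A * ρ + B := by
  classical
  have : Finite (G ⧸ stab α) := Subgroup.finite_quotient_of_finiteIndex
  have : Fintype (G ⧸ stab α) := Fintype.ofFinite _
  obtain ⟨MF, hMF⟩ : ∃ MF, ∀ c : G ⧸ stab α, d 1 c.out ≤ MF := by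
    refine ⟨Finset.univ.sup (fun c : G ⧸ stab α => d 1 c.out), fun c => ?_⟩
    exact Finset.le_sup (f := fun c : G ⧸ stab α => d 1 c.out) (Finset.mem_univ c)
  set D' := nb V 7 0 with hD'
  set BD := (fin_ball D' : {g : G | d 1 g ≤ D'}.Finite).toFinset with hBD
  refine ⟨Fintype.card (G ⧸ stab α) * BD.card * 3,
    Fintype.card (G ⧸ stab α) * BD.card * (3 * MF + D' + 1), fun ρ => ?_⟩
  have hex : ∀ g : G, d 1 g ≤ ρ → ∃ s u, s ≤ 3 * (ρ + MF) + D' ∧ d 1 u ≤ D' ∧
      g = (g : G ⧸ stab α).out * (α s * u * (α (2 * (ρ + MF)))⁻¹) := by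
    intro g hg
    set r := (g : G ⧸ stab α).out with hr
    have hmem : r⁻¹ * g ∈ stab α := by
      rw [← QuotientGroup.eq]
      rw [hr]
      exact QuotientGroup.out_eq' _
    have hd1 : d 1 (r⁻¹ * g) ≤ ρ + MF := by
      have e := d_left r 1 (r⁻¹ * g)
      rw [mul_inv_cancel_left, mul_one] at e
      have t := d_tri r 1 g
      rw [d_comm r 1] at t
      have := hMF (g : G ⧸ stab α)
      rw [← hr] at this
      omega
    have hray := hα.smul (r⁻¹ * g)
    have hr0 : d (α 0) (r⁻¹ * g * α 0) ≤ ρ + MF := by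
      simp only [h0, mul_one]
      exact hd1
    obtain ⟨s, hs⟩ := near_asym hα hV hray (mem_stab.mp hmem) (T := 2 * (ρ + MF))
      (Nat.mul_le_mul_left 2 hr0)
    refine ⟨s, (α s)⁻¹ * (r⁻¹ * g * α (2 * (ρ + MF))), ?_, ?_, ?_⟩
    · have e1 := hα.dist_zero s
      have e2 : d (r⁻¹ * g * α 0) (r⁻¹ * g * α (2 * (ρ + MF))) = 2 * (ρ + MF) :=
        hray.dist_zero (2 * (ρ + MF))
      have t1 := d_tri (α 0) (r⁻¹ * g * α 0) (r⁻¹ * g * α (2 * (ρ + MF)))
      have t2 := d_tri (α 0) (r⁻¹ * g * α (2 * (ρ + MF))) (α s)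
      omega
    · have e := d_left (α s) 1 ((α s)⁻¹ * (r⁻¹ * g * α (2 * (ρ + MF))))
      rw [mul_inv_cancel_left, mul_one] at e
      rw [← e, d_comm]
      exact hs
    · group
  choose! s u h1 h2 h3 using hex
  have hcard : (fin_ball ρ : {g : G | d 1 g ≤ ρ}.Finite).toFinset.card ≤
      ((Finset.univ : Finset (G ⧸ stab α)) ×ˢ
        (Finset.range (3 * (ρ + MF) + D' + 1) ×ˢ BD)).card := by
    refine Finset.card_le_card_of_injOn (fun g => ((g : G ⧸ stab α), (s g, u g))) ?_ ?_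
    · intro g hg
      have hg' : d 1 g ≤ ρ := by simpa using hg
      have e1 := h1 g hg'
      have e2 := h2 g hg'
      simp only [Finset.coe_product, Set.mem_prod, Finset.mem_coe, Finset.mem_univ, true_and,
        Finset.mem_range]
      refine ⟨by omega, ?_⟩
      rw [hBD]
      simpa using e2
    · intro g hg g' hg' e
      have hg1 : d 1 g ≤ ρ := by simpa using hg
      have hg2 : d 1 g' ≤ ρ := by simpa using hg'
      simp only [Prod.mk.injEq] at e
      obtain ⟨e1, e2, e3⟩ := e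
      rw [h3 g hg1, h3 g' hg2, e1, e2, e3]
  refine hcard.trans ?_
  rw [Finset.card_product, Finset.card_product, Finset.card_univ, Finset.card_range]
  refine le_of_eq ?_
  ring

/-- Many non-asymptotic tight rays give fast linear growth. -/
theorem ball_lower {K : ℕ} {β : Fin K → ℕ → G} (h0 : ∀ i, β i 0 = 1) (hβ : ∀ i, IsRay (β i))
    (hW : ∀ i, ∃ W, Tight W (β i)) (hne : ∀ i j, i ≠ j → ¬ Asym (β i) (β j)) :
    ∃ t0, ∀ ρ, K * (ρ - t0) ≤ (fin_ball ρ : {g : G | d 1 g ≤ ρ}.Finite).toFinset.card := by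
  classical
  have hex : ∀ i j, ∃ t, i ≠ j → ∀ t' ≥ t, β i t' ≠ β j t' := by
    intro i j
    by_cases hij : i = j
    · exact ⟨0, fun h => absurd hij h⟩
    · by_contra hcon
      push Not at hcon
      obtain ⟨W, hWi⟩ := hW i
      refine hne i j hij (asym_of_meet (hβ i) hWi (hβ j) (by rw [h0, h0]) fun N => ?_)
      obtain ⟨_, t', ht', e⟩ := hcon N
      exact ⟨t', ht', e⟩
  choose t ht using hex
  refine ⟨Finset.univ.sup (fun p : Fin K × Fin K => t p.1 p.2), fun ρ => ?_⟩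
  set t0 := Finset.univ.sup (fun p : Fin K × Fin K => t p.1 p.2) with ht0
  have hle : ∀ i j, t i j ≤ t0 := fun i j =>
    Finset.le_sup (f := fun p : Fin K × Fin K => t p.1 p.2) (Finset.mem_univ (i, j))
  have hcard : ((Finset.univ : Finset (Fin K)) ×ˢ Finset.range (ρ - t0)).card ≤
      (fin_ball ρ : {g : G | d 1 g ≤ ρ}.Finite).toFinset.card := by
    refine Finset.card_le_card_of_injOn (fun p => β p.1 (t0 + p.2)) ?_ ?_
    · rintro ⟨i, m⟩ hp
      simp only [Finset.coe_product, Set.mem_prod, Finset.mem_coe, Finset.mem_univ, true_and,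
        Finset.mem_range] at hp
      have e := (hβ i).dist_zero (t0 + m)
      rw [h0] at e
      simp only [Set.Finite.coe_toFinset, Set.mem_ofPred_eq]
      omega
    · rintro ⟨i, m⟩ hp ⟨j, m'⟩ hp' e
      simp only [] at e
      have e1 := (hβ i).dist_zero (t0 + m)
      have e2 := (hβ j).dist_zero (t0 + m')
      rw [h0] at e1 e2
      rw [e] at e1
      have hm : m = m' := by omega
      subst hm
      by_cases hij : i = j
      · rw [hij]
      · exact absurd e (ht i j hij (t0 + m) (by have := hle i j; omega))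
  rw [Finset.card_product, Finset.card_univ, Fintype.card_fin, Finset.card_range] at hcard
  exact hcard

/-- There are arbitrarily many pairwise non-asymptotic tight rays. -/
def ManyRays (G : Type*) [Group G] [GroupGeo G] : Prop :=
  ∀ K : ℕ, ∃ β : Fin K → ℕ → G, (∀ i, β i 0 = 1) ∧ (∀ i, IsRay (β i)) ∧
    (∀ i, ∃ W, Tight W (β i)) ∧ ∀ i j, i ≠ j → ¬ Asym (β i) (β j)

theorem stab_not_finiteIndex (hmany : ManyRays G) {V : ℕ → ℕ → ℕ} {α : ℕ → G} (h0 : α 0 = 1)
    (hα : IsRay α) (hV : Tight V α) : ¬ (stab α).FiniteIndex := by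
  intro hfin
  obtain ⟨A, B, hAB⟩ := ball_upper h0 hα hV hfin
  obtain ⟨β, h1, h2, h3, h4⟩ := hmany (A + 1)
  obtain ⟨t0, ht0⟩ := ball_lower h1 h2 h3 h4
  have h5 := ht0 (t0 + (B + A * t0 + 1))
  have h6 := hAB (t0 + (B + A * t0 + 1))
  have e : t0 + (B + A * t0 + 1) - t0 = B + A * t0 + 1 := by omega
  rw [e] at h5
  have h7 := h5.trans h6
  have e1 : (A + 1) * (B + A * t0 + 1) = A * (B + A * t0 + 1) + (B + A * t0 + 1) := by ring
  have e2 : A * (t0 + (B + A * t0 + 1)) = A * (B + A * t0 + 1) + A * t0 := by ring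
  rw [e1, e2] at h7
  omega

/-- There is an element moving two given classes away from each other. -/
theorem exists_mover (hmany : ManyRays G) {V : ℕ → ℕ → ℕ} {e : Bool → ℕ → G}
    (h0 : ∀ b, e b 0 = 1) (he : ∀ b, IsRay (e b)) (hV : ∀ b, Tight V (e b)) :
    ∃ k : G, ∀ a b, ¬ Asym (fun n => k * e a n) (e b) := by
  classical
  by_contra hcon
  push Not at hcon
  choose A hA using hcon
  -- representatives
  have hex : ∀ p : Bool × Bool, ∃ g : G, ∀ k, Asym (fun n => k * e p.1 n) (e p.2) →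
      k ∈ g • (stab (e p.1) : Set G) := by
    rintro ⟨a, b⟩
    by_cases hne : ∃ g, Asym (fun n => g * e a n) (e b)
    · obtain ⟨g, hg⟩ := hne
      refine ⟨g, fun k hk => ?_⟩
      rw [mem_leftCoset_iff]
      show Asym (fun n => (g⁻¹ * k) * e a n) (e a)
      have h1 := (Asym.trans hk hg.symm).smul g⁻¹
      simp only [inv_mul_cancel_left] at h1
      simpa only [mul_assoc] using h1
    · exact ⟨1, fun k hk => absurd ⟨k, hk⟩ hne⟩
  choose g hg using hex
  have hcov : ⋃ p ∈ (Finset.univ : Finset (Bool × Bool)), g p • (stab (e p.1) : Set G) =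
      Set.univ := by
    rw [Set.eq_univ_iff_forall]
    intro k
    obtain ⟨b, hb⟩ := hA k
    simp only [Finset.mem_univ, Set.iUnion_true, Set.mem_iUnion]
    exact ⟨(A k, b), hg (A k, b) k hb⟩
  obtain ⟨p, _, hp⟩ := Subgroup.exists_finiteIndex_of_leftCoset_cover
    (H := fun p : Bool × Bool => stab (e p.1)) hcov
  exact stab_not_finiteIndex hmany (h0 p.1) (he p.1) (hV p.1) hp

end Pool.Agent.Lib.H76.Morse
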