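import Pool.Agent.Lib.H76.Morse.WordGeo

/-!
# Geodesic rays of the Cayley graph versus discrete geodesic rays
-/

namespace Pool.Agent.Lib.H76.Morse

open GeoMet GroupGeo MorseDefs
open scoped NNReal ENNReal

/-- The Morse property for one pair of constants. -/
def MorseAt {X : Type*} [MetricSpace X] (γ : C(ℝ≥0, X)) (lam eps A : ℝ) : Prop :=
  ∀ (a b : ℝ) (q : ℝ → X), a ≤ b → IsQuasiGeodesic lam eps a b q → q a ∈ Set.range γ →
    q b ∈ Set.range γ → ∀ t ∈ Set.Icc a b, q t ∈ Metric.cthickening A (Set.range γ)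

section

variable {X : Type*} [MetricSpace X]

theorem MorseAt.mono {γ : C(ℝ≥0, X)} {lam eps A A' : ℝ} (h : MorseAt γ lam eps A) (hA : A ≤ A') :
    MorseAt γ lam eps A' := fun a b q hab hq ha hb t ht =>
  Metric.cthickening_mono hA _ (h a b q hab hq ha hb t ht)

theorem isMorse_iff {γ : C(ℝ≥0, X)} {N : MorseGauge} :
    IsMorse N γ ↔ ∀ (lam : Set.Ici (1 : ℝ)) (eps : ℝ≥0), MorseAt γ lam eps (N lam eps) :=
  Iff.rfl

theorem iso_dist {γ : ℝ≥0 → X} (hγ : Isometry γ) {s t : ℝ≥0} (h : s ≤ t) :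
    dist (γ s) (γ t) = t - s := by
  rw [hγ.dist_eq, NNReal.dist_eq, abs_sub_comm, abs_of_nonneg (sub_nonneg.mpr (by exact_mod_cast h))]

variable {V : Type*} [GeoMet V] {v : V → X}

theorem Model.inj (hM : Model V X v) {g h : V} (H : dist (v g) (v h) < 1) : g = h := by
  rw [hM.dist_eq] at H
  have : d g h < 1 := by exact_mod_cast H
  exact GeoMet.eq_of_d g h (by omega)

/-- A geodesic ray starting at a vertex passes through vertices at integral times. -/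
theorem exists_disc (hM : Model V X v) {γ : ℝ≥0 → X} (hγ : Isometry γ) {g0 : V}
    (h0 : γ 0 = v g0) : ∃ γ' : ℕ → V, (∀ n : ℕ, γ n = v (γ' n)) ∧ γ' 0 = g0 ∧ IsRay γ' := by
  have hex : ∀ n : ℕ, ∃ g, γ n = v g := by
    intro n
    induction n with
    | zero => exact ⟨g0, by simpa using h0⟩
    | succ n ih =>
      obtain ⟨g, hg⟩ := ih
      have key : ∀ δ : ℝ, 0 < δ → δ < 1 → ∃ h, dist (γ ((n + 1 : ℕ) : ℝ≥0)) (v h) ≤ 2 * δ := by
        intro δ h1 h2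
        have hn : (0 : ℝ) ≤ n := Nat.cast_nonneg n
        let s : ℝ≥0 := ⟨n + 1 - δ, by linarith⟩
        have hs : (s : ℝ) = n + 1 - δ := rfl
        have hs1 : (n : ℝ≥0) ≤ s := by
          rw [← NNReal.coe_le_coe, hs]
          push_cast
          linarith
        have hs2 : s ≤ ((n + 1 : ℕ) : ℝ≥0) := by
          rw [← NNReal.coe_le_coe, hs]
          push_cast
          linarith
        have e1 := iso_dist hγ hs1
        have e2 := iso_dist hγ hs2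
        rw [hs] at e1 e2
        push_cast at e1 e2
        rw [hg, dist_comm] at e1
        obtain ⟨h, hh⟩ := hM.near (γ s) g (by rw [e1]; linarith)
        refine ⟨h, ?_⟩
        have t1 := dist_triangle (γ ((n + 1 : ℕ) : ℝ≥0)) (γ s) (v h)
        rw [dist_comm (γ ((n + 1 : ℕ) : ℝ≥0)) (γ s)] at t1
        rw [e1] at hh
        push_cast at t1 ⊢
        linarith
      obtain ⟨h, hh⟩ := key (1 / 4) (by norm_num) (by norm_num)
      refine ⟨h, ?_⟩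
      apply eq_of_forall_dist_le
      intro ε hε
      obtain ⟨h', hh'⟩ := key (min (ε / 2) (1 / 16)) (by positivity)
        (lt_of_le_of_lt (min_le_right _ _) (by norm_num))
      have m1 := min_le_left (ε / 2) (1 / 16)
      have m2 := min_le_right (ε / 2) (1 / 16)
      have e : h = h' := by
        apply hM.inj
        have t1 := dist_triangle (v h) (γ ((n + 1 : ℕ) : ℝ≥0)) (v h')
        rw [dist_comm (v h) (γ ((n + 1 : ℕ) : ℝ≥0))] at t1
        linarith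
      rw [← e] at hh'
      linarith
  choose γ' hγ' using hex
  have hd : ∀ i j : ℕ, i ≤ j → d (γ' i) (γ' j) = j - i := by
    intro i j hij
    have e := iso_dist hγ (s := (i : ℝ≥0)) (t := (j : ℝ≥0)) (by exact_mod_cast hij)
    rw [hγ', hγ', hM.dist_eq] at e
    push_cast at e
    have e2 : (d (γ' i) (γ' j) : ℝ) = ((j - i : ℕ) : ℝ) := by
      rw [e, Nat.cast_sub hij]
    exact_mod_cast e2
  refine ⟨γ', hγ', ?_, hd⟩
  apply hM.inj
  have := hγ' 0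
  rw [← this, ← h0]
  simp

theorem Model.dist_ray (hM : Model V X v) {γ' : ℕ → V} (hγ' : IsRay γ') {i j : ℕ} (h : i ≤ j) :
    dist (v (γ' i)) (v (γ' j)) = (j : ℝ) - i := by
  rw [hM.dist_eq, hγ' i j h, Nat.cast_sub h]

/-- A discrete geodesic ray extends to a geodesic ray. -/
theorem exists_extend (hM : Model V X v) {γ' : ℕ → V} (hγ' : IsRay γ') :
    ∃ γ : C(ℝ≥0, X), Isometry γ ∧ ∀ n : ℕ, γ n = v (γ' n) := by
  have hadj : ∀ n, d (γ' n) (γ' (n + 1)) = 1 := fun n => by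
    rw [hγ' n (n + 1) (by omega)]; omega
  choose p hp0 hp1 hp using fun n => hM.edge _ _ (hadj n)
  let γ : ℝ≥0 → X := fun t => p ⌊(t : ℝ)⌋₊ ((t : ℝ) - ⌊(t : ℝ)⌋₊)
  have hfl : ∀ t : ℝ≥0, ((⌊(t : ℝ)⌋₊ : ℕ) : ℝ) ≤ t ∧ (t : ℝ) < ⌊(t : ℝ)⌋₊ + 1 := fun t =>
    ⟨Nat.floor_le t.2, Nat.lt_floor_add_one _⟩
  have hA : ∀ t : ℝ≥0, dist (γ t) (v (γ' ⌊(t : ℝ)⌋₊)) ≤ t - ⌊(t : ℝ)⌋₊ := by
    intro t
    obtain ⟨h1, h2⟩ := hfl t
    rw [← hp0]
    have := hp ⌊(t : ℝ)⌋₊ ((t : ℝ) - ⌊(t : ℝ)⌋₊) ⟨by linarith, by linarith⟩ 0 (by simp)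
    rw [sub_zero, abs_of_nonneg (by linarith)] at this
    exact this
  have hB : ∀ t : ℝ≥0, dist (γ t) (v (γ' (⌊(t : ℝ)⌋₊ + 1))) ≤ ⌊(t : ℝ)⌋₊ + 1 - t := by
    intro t
    obtain ⟨h1, h2⟩ := hfl t
    rw [← hp1]
    have := hp ⌊(t : ℝ)⌋₊ ((t : ℝ) - ⌊(t : ℝ)⌋₊) ⟨by linarith, by linarith⟩ 1 (by simp)
    rw [abs_sub_comm, abs_of_nonneg (by linarith)] at this
    have e : (1 : ℝ) - ((t : ℝ) - ⌊(t : ℝ)⌋₊) = ⌊(t : ℝ)⌋₊ + 1 - t := by ring
    rw [e] at this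
    exact this
  have hup : ∀ s t : ℝ≥0, s ≤ t → dist (γ s) (γ t) ≤ t - s := by
    intro s t hst
    have hst' : (s : ℝ) ≤ t := by exact_mod_cast hst
    obtain ⟨h1, h2⟩ := hfl s
    obtain ⟨h3, h4⟩ := hfl t
    have hnm : ⌊(s : ℝ)⌋₊ ≤ ⌊(t : ℝ)⌋₊ := Nat.floor_le_floor hst'
    rcases Nat.eq_or_lt_of_le hnm with e | hlt
    · have := hp ⌊(s : ℝ)⌋₊ ((s : ℝ) - ⌊(s : ℝ)⌋₊) ⟨by linarith, by linarith⟩
        ((t : ℝ) - ⌊(s : ℝ)⌋₊) ⟨by linarith, by rw [e]; linarith⟩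
      have e1 : (s : ℝ) - ⌊(s : ℝ)⌋₊ - ((t : ℝ) - ⌊(s : ℝ)⌋₊) = -((t : ℝ) - s) := by ring
      rw [e1, abs_neg, abs_of_nonneg (by linarith)] at this
      have e2 : γ t = p ⌊(s : ℝ)⌋₊ ((t : ℝ) - ⌊(s : ℝ)⌋₊) := by
        show p ⌊(t : ℝ)⌋₊ ((t : ℝ) - ⌊(t : ℝ)⌋₊) = _
        rw [← e]
      rw [e2]
      exact this
    · have a1 := hB s
      have a2 := hA t
      have a3 := hM.dist_ray hγ' (i := ⌊(s : ℝ)⌋₊ + 1) (j := ⌊(t : ℝ)⌋₊) hlt
      push_cast at a3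
      have t1 := dist_triangle (γ s) (v (γ' (⌊(s : ℝ)⌋₊ + 1))) (γ t)
      have t2 := dist_triangle (v (γ' (⌊(s : ℝ)⌋₊ + 1))) (v (γ' ⌊(t : ℝ)⌋₊)) (γ t)
      rw [dist_comm (v (γ' ⌊(t : ℝ)⌋₊)) (γ t)] at t2
      linarith
  have hlow : ∀ s t : ℝ≥0, s ≤ t → (t : ℝ) - s ≤ dist (γ s) (γ t) := by
    intro s t hst
    have hst' : (s : ℝ) ≤ t := by exact_mod_cast hst
    have hnm : ⌊(s : ℝ)⌋₊ ≤ ⌊(t : ℝ)⌋₊ := Nat.floor_le_floor hst'
    have a1 := hA s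
    have a2 := hB t
    have a3 := hM.dist_ray hγ' (i := ⌊(s : ℝ)⌋₊) (j := ⌊(t : ℝ)⌋₊ + 1) (by omega)
    push_cast at a3
    have t1 := dist_triangle (v (γ' ⌊(s : ℝ)⌋₊)) (γ s) (v (γ' (⌊(t : ℝ)⌋₊ + 1)))
    have t2 := dist_triangle (γ s) (γ t) (v (γ' (⌊(t : ℝ)⌋₊ + 1)))
    rw [dist_comm (v (γ' ⌊(s : ℝ)⌋₊)) (γ s)] at t1
    linarith
  have hiso : Isometry γ := by
    refine Isometry.of_dist_eq (fun s t => ?_)
    rw [NNReal.dist_eq]
    rcases le_total s t with h | h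
    · have h' : (s : ℝ) ≤ t := by exact_mod_cast h
      rw [abs_sub_comm, abs_of_nonneg (by linarith)]
      exact le_antisymm (hup s t h) (hlow s t h)
    · have h' : (t : ℝ) ≤ s := by exact_mod_cast h
      rw [abs_of_nonneg (by linarith), dist_comm]
      exact le_antisymm (hup t s h) (hlow t s h)
  refine ⟨⟨γ, hiso.continuous⟩, hiso, fun n => ?_⟩
  show γ n = _
  have e : ⌊((n : ℝ≥0) : ℝ)⌋₊ = n := by simp
  show p ⌊((n : ℝ≥0) : ℝ)⌋₊ (((n : ℝ≥0) : ℝ) - ⌊((n : ℝ≥0) : ℝ)⌋₊) = _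
  rw [e, NNReal.coe_natCast, sub_self, hp0]

/-- From the Morse property to betweenness. -/
theorem bridge1 (hM : Model V X v) {γ : C(ℝ≥0, X)} (hγ : Isometry γ) {γ' : ℕ → V}
    (hd : ∀ n : ℕ, γ n = v (γ' n)) (hγ' : IsRay γ') {l c A : ℕ}
    (h : MorseAt γ ((l : ℝ) + 1) ((c : ℝ) + 1) A) :
    ∀ a u b, a ≤ u → u ≤ b → Btw l c (5 * (A + 3)) (γ' a) (γ' u) (γ' b) := by
  intro a u b hau hub q n hq h0 hn
  -- the associated quasi-geodesic
  have hQ : IsQuasiGeodesic ((l : ℝ) + 1) ((c : ℝ) + 1) 0 n (fun t => v (q ⌊t⌋₊)) := by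
    have main : ∀ s t : ℝ, 0 ≤ s → s ≤ t → t ≤ n →
        ((l : ℝ) + 1)⁻¹ * |s - t| - ((c : ℝ) + 1) ≤ dist (v (q ⌊s⌋₊)) (v (q ⌊t⌋₊)) ∧
        dist (v (q ⌊s⌋₊)) (v (q ⌊t⌋₊)) ≤ ((l : ℝ) + 1) * |s - t| + ((c : ℝ) + 1) := by
      intro s t hs hst ht
      have hij : ⌊s⌋₊ ≤ ⌊t⌋₊ := Nat.floor_le_floor hst
      have hj : ⌊t⌋₊ ≤ n := by
        have := Nat.floor_le_floor ht
        simpa using this
      obtain ⟨q1, q2⟩ := hq _ _ hij hj
      rw [hM.dist_eq]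
      set D := d (q ⌊s⌋₊) (q ⌊t⌋₊) with hD
      have f1 := Nat.floor_le hs
      have f2 := Nat.lt_floor_add_one s
      have f3 := Nat.floor_le (hs.trans hst)
      have f4 := Nat.lt_floor_add_one t
      have q1' : (D : ℝ) ≤ (⌊t⌋₊ : ℝ) - ⌊s⌋₊ := by
        rw [← Nat.cast_sub hij]
        exact_mod_cast q1
      have q2' : (⌊t⌋₊ : ℝ) - ⌊s⌋₊ ≤ l * D + c := by
        rw [← Nat.cast_sub hij]
        exact_mod_cast q2
      have hl : (0 : ℝ) ≤ l := Nat.cast_nonneg l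
      have hc : (0 : ℝ) ≤ c := Nat.cast_nonneg c
      have hDD : (0 : ℝ) ≤ D := Nat.cast_nonneg D
      rw [abs_sub_comm, abs_of_nonneg (by linarith)]
      constructor
      · rw [sub_le_iff_le_add, inv_mul_le_iff₀ (by linarith)]
        nlinarith [mul_nonneg hl hc, mul_nonneg hl hDD]
      · nlinarith [mul_nonneg hl (sub_nonneg.mpr hst)]
    intro s hs t ht
    rcases le_total s t with h' | h'
    · exact main s t hs.1 h' ht.2
    · have := main t s ht.1 h' hs.2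
      rw [abs_sub_comm, dist_comm] at this
      exact this
  have hnear : ∀ j ≤ n, ∃ m, d (q j) (γ' m) ≤ A + 2 := by
    intro j hj
    have h1 := h 0 n (fun t => v (q ⌊t⌋₊)) (Nat.cast_nonneg n) hQ
      ⟨(a : ℝ≥0), by simp [hd, h0]⟩ ⟨(b : ℝ≥0), by simp [hd, hn]⟩ (j : ℝ)
      ⟨Nat.cast_nonneg j, by exact_mod_cast hj⟩
    have hA0 : (0 : ℝ) ≤ A := Nat.cast_nonneg A
    have h2 := Metric.cthickening_subset_thickening' (δ₂ := (A : ℝ) + 1) (by linarith)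
      (by linarith) _ h1
    rw [Metric.mem_thickening_iff] at h2
    obtain ⟨z, ⟨s, rfl⟩, hs⟩ := h2
    simp only [Nat.floor_natCast] at hs
    refine ⟨⌊(s : ℝ)⌋₊, ?_⟩
    have f1 := Nat.floor_le s.2
    have f2 := Nat.lt_floor_add_one (s : ℝ)
    have hle : ((⌊(s : ℝ)⌋₊ : ℕ) : ℝ≥0) ≤ s := by
      rw [← NNReal.coe_le_coe]
      push_cast
      exact f1
    have e1 := iso_dist hγ hle
    push_cast at e1
    rw [hd] at e1
    have t1 := dist_triangle (v (q j)) (γ s) (v (γ' ⌊(s : ℝ)⌋₊))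
    rw [dist_comm (γ s)] at t1
    rw [hM.dist_eq] at t1
    have : (d (q j) (γ' ⌊(s : ℝ)⌋₊) : ℝ) ≤ ((A + 2 : ℕ) : ℝ) := by
      push_cast
      linarith
    exact_mod_cast this
  rcases Nat.eq_zero_or_pos n with hn0 | hn0
  · refine ⟨0, Nat.zero_le _, ?_⟩
    rw [hn0, h0] at hn
    have e := hγ'.dist_abs a b
    rw [hn, d_self] at e
    rw [h0, hγ'.dist_abs]
    omega
  · choose! m hm using hnear
    let f : ℕ → ℕ := fun j => if j = 0 then a else if n ≤ j then b else m j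
    have hf : ∀ j, d (q (min j n)) (γ' (f j)) ≤ A + 2 := by
      intro j
      show d (q (min j n)) (γ' (if j = 0 then a else if n ≤ j then b else m j)) ≤ A + 2
      split_ifs with h1 h2
      · rw [h1, Nat.zero_min, h0, d_self]
        omega
      · rw [min_eq_right h2, hn, d_self]
        omega
      · rw [min_eq_left (by omega)]
        exact hm j (by omega)
    have hstep : ∀ j, f (j + 1) ≤ f j + (2 * A + 5) := by
      intro j
      have e1 := hf j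
      have e2 := hf (j + 1)
      have e3 := (hq (min j n) (min (j + 1) n) (by omega) (by omega)).1
      have t1 := d_tri (γ' (f j)) (q (min j n)) (γ' (f (j + 1)))
      have t2 := d_tri (q (min j n)) (q (min (j + 1) n)) (γ' (f (j + 1)))
      rw [d_comm (γ' (f j)) (q (min j n))] at t1
      rw [hγ'.dist_abs] at t1
      omega
    have f0 : f 0 = a := by simp [f]
    have fn : f n = b := by
      show (if n = 0 then a else if n ≤ n then b else m n) = b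
      rw [if_neg (by omega), if_pos le_rfl]
    obtain ⟨k, _, hk, hk1, hk2⟩ := ivt_up hstep (Nat.zero_le n) (t := u) (by rw [f0]; exact hau)
      (by rw [fn]; exact hub)
    refine ⟨k, hk, ?_⟩
    have e1 := hf k
    rw [min_eq_left hk] at e1
    have t1 := d_tri (q k) (γ' (f k)) (γ' u)
    rw [hγ'.dist_abs] at t1
    omega

/-- From tightness to the Morse property. -/
theorem bridge2 (hM : Model V X v) {γ : C(ℝ≥0, X)} (hγ : Isometry γ) {γ' : ℕ → V}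
    (hd : ∀ n : ℕ, γ n = v (γ' n)) (hγ' : IsRay γ') {W : ℕ → ℕ → ℕ} (hW : Tight W γ')
    {lam eps : ℝ} (hlam : 1 ≤ lam) (heps : 0 ≤ eps) : ∃ A : ℝ≥0, MorseAt γ lam eps A := by
  obtain ⟨L, hL⟩ : ∃ L : ℕ, L = ⌈lam + eps + 2⌉₊ := ⟨_, rfl⟩
  obtain ⟨l, hl⟩ : ∃ l : ℕ, l = ⌈lam⌉₊ := ⟨_, rfl⟩
  obtain ⟨c, hc⟩ : ∃ c : ℕ, c = ⌈lam * (2 + eps) + 1⌉₊ := ⟨_, rfl⟩
  have hL' : lam + eps + 2 ≤ L := by rw [hL]; exact Nat.le_ceil _
  have hl' : lam ≤ l := by rw [hl]; exact Nat.le_ceil _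
  have hc' : lam * (2 + eps) + 1 ≤ c := by rw [hc]; exact Nat.le_ceil _
  have hLpos : 0 < L := by
    have : (0 : ℝ) < L := by linarith
    exact_mod_cast this
  set B := nb W (L * l) (L * l * (2 * L) + L * c + L) with hB
  refine ⟨⟨lam + eps + 1 + B, by positivity⟩, ?_⟩
  intro a b q hab hq ha hb
  obtain ⟨α, hα⟩ := ha
  obtain ⟨β, hβ⟩ := hb
  set n := ⌊b - a⌋₊ + 1 with hn
  have hfl1 := Nat.floor_le (sub_nonneg.mpr hab)
  have hfl2 := Nat.lt_floor_add_one (b - a)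
  let τ : ℕ → ℝ := fun i => min (a + i) b
  have hτ1 : ∀ i, a ≤ τ i ∧ τ i ≤ b := fun i =>
    ⟨le_min (by have : (0 : ℝ) ≤ i := Nat.cast_nonneg i; linarith) hab, min_le_right _ _⟩
  have hτ2 : ∀ i j : ℕ, i ≤ j → τ i ≤ τ j ∧ τ j - τ i ≤ (j : ℝ) - i := by
    intro i j hij
    have hij' : (i : ℝ) ≤ j := by exact_mod_cast hij
    show min (a + i) b ≤ min (a + j) b ∧ min (a + (j : ℝ)) b - min (a + (i : ℝ)) b ≤ (j : ℝ) - i
    constructor
    · exact min_le_min (by linarith) le_rfl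
    · rcases le_total (a + (i : ℝ)) b with h1 | h1
      · rw [min_eq_left h1]
        have := min_le_left (a + (j : ℝ)) b
        linarith
      · rw [min_eq_right h1, min_eq_right (by linarith)]
        linarith
  have hτ3 : ∀ i j : ℕ, i ≤ j → j ≤ n → (j : ℝ) - i ≤ τ j - τ i + 1 := by
    intro i j hij hj
    have h1 : τ i ≤ a + i := min_le_left _ _
    have h2 : a + (j : ℝ) - 1 ≤ τ j := by
      have h3 : (j : ℝ) ≤ ⌊b - a⌋₊ + 1 := by exact_mod_cast hj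
      exact le_min (by linarith) (by linarith)
    linarith
  have hτ0 : τ 0 = a := by simp [τ, hab]
  have hτn : τ n = b := by
    show min (a + ((⌊b - a⌋₊ + 1 : ℕ) : ℝ)) b = b
    rw [min_eq_right]
    push_cast
    linarith
  -- the rounded points
  have hx : ∃ x : ℕ → V, x 0 = γ' ⌊(α : ℝ)⌋₊ ∧ x n = γ' ⌊(β : ℝ)⌋₊ ∧
      ∀ i ≤ n, dist (q (τ i)) (v (x i)) ≤ 1 := by
    have hfloor : ∀ s : ℝ≥0, dist (γ s) (v (γ' ⌊(s : ℝ)⌋₊)) ≤ 1 := by
      intro s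
      have f1 := Nat.floor_le s.2
      have f2 := Nat.lt_floor_add_one (s : ℝ)
      have hle : ((⌊(s : ℝ)⌋₊ : ℕ) : ℝ≥0) ≤ s := by
        rw [← NNReal.coe_le_coe]
        push_cast
        exact f1
      have e1 := iso_dist hγ hle
      push_cast at e1
      rw [hd] at e1
      rw [dist_comm, e1]
      linarith
    choose r hr using hM.dense
    refine ⟨fun i => if i = 0 then γ' ⌊(α : ℝ)⌋₊ else if i = n then γ' ⌊(β : ℝ)⌋₊ else
      r (q (τ i)), by simp, ?_, ?_⟩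
    · simp [hn]
    · intro i hi
      by_cases h1 : i = 0
      · simp only [h1, if_true, hτ0]
        rw [← hα]
        exact hfloor α
      · by_cases h2 : i = n
        · simp only [h1, if_false]
          rw [if_pos h2, h2, hτn, ← hβ]
          exact hfloor β
        · simp only [h1, h2, if_false]
          exact hr _
  obtain ⟨x, hx0, hxn, hx⟩ := hx
  have hdq : ∀ i j : ℕ, i ≤ j → j ≤ n →
      (d (x i) (x j) : ℝ) ≤ lam * (τ j - τ i) + eps + 2 ∧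
        (j : ℝ) - i ≤ lam * ((d (x i) (x j) : ℝ) + 2 + eps) + 1 := by
    intro i j hij hj
    obtain ⟨m1, m2⟩ := hτ2 i j hij
    obtain ⟨k1, k2⟩ := hq (τ i) (hτ1 i) (τ j) (hτ1 j)
    rw [abs_sub_comm, abs_of_nonneg (by linarith)] at k1 k2
    have n1 := hx i (hij.trans hj)
    have n2 := hx j hj
    have t1 := dist_triangle (v (x i)) (q (τ i)) (v (x j))
    have t2 := dist_triangle (q (τ i)) (q (τ j)) (v (x j))
    have t3 := dist_triangle (q (τ i)) (v (x i)) (q (τ j))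
    have t4 := dist_triangle (v (x i)) (v (x j)) (q (τ j))
    rw [dist_comm (v (x i)) (q (τ i))] at t1
    rw [dist_comm (v (x j)) (q (τ j))] at t4
    rw [hM.dist_eq] at t1 t4
    constructor
    · linarith
    · have h3 := hτ3 i j hij hj
      rw [sub_le_iff_le_add, inv_mul_le_iff₀ (by linarith)] at k1
      have h4 : lam * (dist (q (τ i)) (q (τ j)) + eps) ≤
          lam * ((d (x i) (x j) : ℝ) + 2 + eps) :=
        mul_le_mul_of_nonneg_left (by linarith) (by linarith)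
      linarith
  obtain ⟨P, hP1, hP2⟩ := tame (x := x) (n := n) (l := l) (c := c) hLpos (by
    intro i hi
    have h1 := (hdq i (i + 1) (by omega) hi).1
    have h2 := (hτ2 i (i + 1) (by omega)).2
    push_cast at h2
    have h3 : lam * (τ (i + 1) - τ i) ≤ lam * 1 :=
      mul_le_mul_of_nonneg_left (by linarith) (by linarith)
    have : (d (x i) (x (i + 1)) : ℝ) ≤ L := by linarith
    exact_mod_cast this) (by
    intro i j hij hj
    have h1 := (hdq i j hij hj).2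
    have hdd : (0 : ℝ) ≤ d (x i) (x j) := Nat.cast_nonneg _
    have h2 : lam * (d (x i) (x j) : ℝ) ≤ l * (d (x i) (x j) : ℝ) :=
      mul_le_mul_of_nonneg_right hl' hdd
    have : ((j - i : ℕ) : ℝ) ≤ ((l * d (x i) (x j) + c : ℕ) : ℝ) := by
      rw [Nat.cast_sub hij]
      push_cast
      linarith
    exact_mod_cast this)
  have hnear : ∀ k ≤ L * n, ∃ w, d (P k) (γ' w) ≤ B := by
    intro k hk
    have e0 : P 0 = γ' ⌊(α : ℝ)⌋₊ := by
      have := hP1 0 (Nat.zero_le _)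
      rw [mul_zero, hx0] at this
      exact this
    have en : P (L * n) = γ' ⌊(β : ℝ)⌋₊ := by rw [hP1 n le_rfl, hxn]
    rcases le_total ⌊(α : ℝ)⌋₊ ⌊(β : ℝ)⌋₊ with h1 | h1
    · obtain ⟨w, _, hw⟩ := (TSeg.shift hγ' hW ⌊(α : ℝ)⌋₊ (⌊(β : ℝ)⌋₊ - ⌊(α : ℝ)⌋₊)).near hP2 le_rfl
        (by rw [e0]; simp) (by rw [en]; congr 1; omega) k hk
      exact ⟨_, hw⟩
    · obtain ⟨w, _, hw⟩ := (TSeg.shiftDown hγ' hW (c := ⌊(α : ℝ)⌋₊)
        (m := ⌊(α : ℝ)⌋₊ - ⌊(β : ℝ)⌋₊) (by omega)).near hP2 le_rfl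
        (by rw [e0]; simp) (by rw [en]; congr 1; omega) k hk
      exact ⟨_, hw⟩
  intro t ht
  set i := ⌊t - a⌋₊ with hi
  have g1 := Nat.floor_le (sub_nonneg.mpr ht.1)
  have g2 := Nat.lt_floor_add_one (t - a)
  rw [← hi] at g1 g2
  have hin : i ≤ n := by
    have : ⌊t - a⌋₊ ≤ ⌊b - a⌋₊ := Nat.floor_le_floor (by linarith [ht.2])
    omega
  have hτi : τ i = a + i := min_eq_left (by linarith [ht.2])
  obtain ⟨w, hw⟩ := hnear (L * i) (Nat.mul_le_mul_left L hin)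
  rw [hP1 i hin] at hw
  have k2 := (hq t ht (τ i) (hτ1 i)).2
  have k3 : |t - τ i| ≤ 1 := by
    rw [hτi, abs_le]
    constructor <;> linarith
  have k4 : lam * |t - τ i| ≤ lam * 1 := mul_le_mul_of_nonneg_left k3 (by linarith)
  have k5 := hx i hin
  have k6 : dist (v (x i)) (v (γ' w)) ≤ B := by
    rw [hM.dist_eq]
    exact_mod_cast hw
  refine Metric.mem_cthickening_of_dist_le (q t) (v (γ' w)) _ _ ⟨(w : ℝ≥0), hd w⟩ ?_
  have t1 := dist_triangle (q t) (q (τ i)) (v (γ' w))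
  have t2 := dist_triangle (q (τ i)) (v (x i)) (v (γ' w))
  show dist (q t) (v (γ' w)) ≤ lam + eps + 1 + B
  linarith

theorem bridge2' (hM : Model V X v) {γ : C(ℝ≥0, X)} (hγ : Isometry γ) {γ' : ℕ → V}
    (hd : ∀ n : ℕ, γ n = v (γ' n)) (hγ' : IsRay γ') {W : ℕ → ℕ → ℕ} (hW : Tight W γ') :
    ∃ N : MorseGauge, IsMorse N γ := by
  choose N hN using fun (lam : Set.Ici (1 : ℝ)) (eps : ℝ≥0) =>
    bridge2 hM hγ hd hγ' hW (lam := lam) (eps := eps) lam.2 eps.2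
  exact ⟨N, hN⟩

/-- Asymptotic rays and asymptotic discrete rays. -/
theorem asymptotic_iff (hM : Model V X v) {γ₁ γ₂ : C(ℝ≥0, X)} (h₁ : Isometry γ₁)
    (h₂ : Isometry γ₂) (h0 : γ₁ 0 = γ₂ 0) {γ₁' γ₂' : ℕ → V} (hd₁ : ∀ n : ℕ, γ₁ n = v (γ₁' n))
    (hd₂ : ∀ n : ℕ, γ₂ n = v (γ₂' n)) : Asymptotic γ₁ γ₂ ↔ Asym γ₁' γ₂' := by
  constructor
  · intro h
    unfold Asymptotic at h
    set r := Metric.hausdorffEDist (Set.range γ₁) (Set.range γ₂) with hr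
    have hlt : r < r + 1 := ENNReal.lt_add_right h one_ne_zero
    have hr1 : r + 1 ≠ ⊤ := ENNReal.add_ne_top.mpr ⟨h, ENNReal.one_ne_top⟩
    refine ⟨⌈2 * (r + 1).toReal⌉₊, fun n => ?_⟩
    obtain ⟨z, ⟨s, rfl⟩, hs⟩ := Metric.exists_edist_lt_of_hausdorffEDist_lt
      (Set.mem_range_self (f := γ₁) (n : ℝ≥0)) hlt
    have hs' : dist (γ₁ n) (γ₂ s) ≤ (r + 1).toReal := by
      rw [dist_edist]
      exact ENNReal.toReal_mono hr1 hs.le
    have e1 : dist (γ₁ 0) (γ₁ n) = n := by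
      rw [iso_dist h₁ (zero_le (a := (n : ℝ≥0)))]
      simp
    have e2 : dist (γ₁ 0) (γ₂ s) = s := by
      rw [h0, iso_dist h₂ (zero_le (a := s))]
      simp
    have t1 := dist_triangle (γ₁ 0) (γ₁ n) (γ₂ s)
    have t2 := dist_triangle (γ₁ 0) (γ₂ s) (γ₁ n)
    rw [dist_comm (γ₂ s) (γ₁ n)] at t2
    have e3 : dist (γ₂ s) (γ₂ n) ≤ (r + 1).toReal := by
      rw [h₂.dist_eq, NNReal.dist_eq, abs_le]
      push_cast
      constructor <;> linarith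
    have t3 := dist_triangle (γ₁ n) (γ₂ s) (γ₂ n)
    rw [hd₁, hd₂, hM.dist_eq] at t3
    rw [hd₁] at hs'
    rw [hd₂] at e3
    have : (d (γ₁' n) (γ₂' n) : ℝ) ≤ 2 * (r + 1).toReal := by linarith
    exact_mod_cast this.trans (Nat.le_ceil _)
  · rintro ⟨C, hC⟩
    have key : ∀ t : ℝ≥0, dist (γ₁ t) (γ₂ t) ≤ C + 2 := by
      intro t
      have f1 := Nat.floor_le t.2
      have f2 := Nat.lt_floor_add_one (t : ℝ)
      have hle : ((⌊(t : ℝ)⌋₊ : ℕ) : ℝ≥0) ≤ t := by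
        rw [← NNReal.coe_le_coe]
        push_cast
        exact f1
      have e1 := iso_dist h₁ hle
      have e2 := iso_dist h₂ hle
      push_cast at e1 e2
      have t1 := dist_triangle (γ₁ t) (γ₁ ⌊(t : ℝ)⌋₊) (γ₂ t)
      have t2 := dist_triangle (γ₁ ⌊(t : ℝ)⌋₊) (γ₂ ⌊(t : ℝ)⌋₊) (γ₂ t)
      rw [dist_comm (γ₁ t) (γ₁ ⌊(t : ℝ)⌋₊)] at t1
      have e3 : dist (γ₁ ⌊(t : ℝ)⌋₊) (γ₂ ⌊(t : ℝ)⌋₊) ≤ C := by
        rw [hd₁, hd₂, hM.dist_eq]
        exact_mod_cast hC _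
      linarith
    unfold Asymptotic
    refine ne_top_of_le_ne_top (b := ENNReal.ofReal (C + 2)) ENNReal.ofReal_ne_top ?_
    apply Metric.hausdorffEDist_le_of_mem_edist
    · rintro _ ⟨t, rfl⟩
      refine ⟨γ₂ t, ⟨t, rfl⟩, ?_⟩
      rw [edist_dist]
      exact ENNReal.ofReal_le_ofReal (key t)
    · rintro _ ⟨t, rfl⟩
      refine ⟨γ₁ t, ⟨t, rfl⟩, ?_⟩
      rw [edist_comm, edist_dist]
      exact ENNReal.ofReal_le_ofReal (key t)

end

end Pool.Agent.Lib.H76.Morse
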