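import Pool.Agent.Lib.H76.Morse.Nested

/-!
# The core construction

From a system of letters (with bad words for every gauge) we construct, for every sequence of
gauges, a tight geodesic ray which is not tight for any gauge of the sequence.
-/

namespace Pool.Agent.Lib.H76.Morse

open GeoMet List GroupGeo

/-- A monotone gauge dominating `f`. -/
def dom (f : ℕ → ℕ → ℕ) (l c : ℕ) : ℕ :=
  ∑ l' ∈ Finset.range (l + 1), ∑ c' ∈ Finset.range (c + 1), f l' c'

theorem dom_mono (f : ℕ → ℕ → ℕ) : Mono (dom f) := by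
  intro l l' c c' hl hc
  unfold dom
  calc ∑ a ∈ Finset.range (l + 1), ∑ b ∈ Finset.range (c + 1), f a b
      ≤ ∑ a ∈ Finset.range (l + 1), ∑ b ∈ Finset.range (c' + 1), f a b :=
        Finset.sum_le_sum (fun a _ => Finset.sum_le_sum_of_subset
          (Finset.range_subset_range.mpr (by omega)))
    _ ≤ ∑ a ∈ Finset.range (l' + 1), ∑ b ∈ Finset.range (c' + 1), f a b :=
        Finset.sum_le_sum_of_subset (Finset.range_subset_range.mpr (by omega))

theorem le_dom (f : ℕ → ℕ → ℕ) (l c : ℕ) : f l c ≤ dom f l c := by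
  unfold dom
  calc f l c ≤ ∑ b ∈ Finset.range (c + 1), f l b :=
        Finset.single_le_sum (f := fun b => f l b) (fun _ _ => Nat.zero_le _) (by simp)
    _ ≤ _ := Finset.single_le_sum (f := fun a => ∑ b ∈ Finset.range (c + 1), f a b)
        (fun _ _ => Nat.zero_le _) (by simp)

variable {G : Type*} [Group G] [GroupGeo G]

theorem exists_norm_bound (P : List G) : ∃ R, ∀ x ∈ P, d 1 x ≤ R := by
  obtain ⟨R, hR⟩ := Tower.exists_diam (1 :: P)
  exact ⟨R, fun x hx => hR 1 (by simp) x (by simp [hx])⟩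

namespace LetterSys

variable (s : LetterSys G)

/-- A bound for the distances from the prefix `P` to the next spacer. -/
noncomputable def dd (P : List s.Λ) : ℕ :=
  (exists_norm_bound (syls s.val s.pts P).flatten).choose + d 1 (P.map s.val).prod + s.M

/-- How far before the end of the spacer the auxiliary point is chosen. -/
noncomputable def rr (i : ℕ) (P : List s.Λ) : ℕ :=
  2 * s.T0 (i + 64) (i + 64 + (i + 64 + 1) * s.dd P) + 4 * s.T0 (4 * (i + 64)) (i + 64) + s.dd P + i
    + 1

/-- Data for the construction. -/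
structure Data where
  U : ℕ → ℕ → ℕ → ℕ
  hU : ∀ i, Mono (U i)
  hTU : ∀ i l c, s.T0 l c ≤ U i l c
  w : ℕ → List s.Λ
  x : ℕ → s.Λ
  hch : ∀ i, (w i ++ [x i]).IsChain s.Adj
  hlen : ∀ i, ∀ y ∈ w i ++ [x i],
    4 * (U i (64 * (i + 64) + 63) (i + 64) + 4 * s.T0 (128 * (i + 64) + 127) (i + 64) + 1) ≤ s.len y
  hgood : ∀ i l c, CloseL (syls s.val s.pts (w i)).flatten l c (U i l c)

namespace Data

variable {s} (D : s.Data)

/-- The required syllable length for block `i`. -/
def L (i : ℕ) : ℕ :=
  4 * (D.U i (64 * (i + 64) + 63) (i + 64) + 4 * s.T0 (128 * (i + 64) + 127) (i + 64) + 1)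

theorem exists_head (i : ℕ) : ∃ y t, D.w i ++ [D.x i] = y :: t := by
  cases h : D.w i with
  | nil => exact ⟨D.x i, [], by simp⟩
  | cons a t => exact ⟨a, t ++ [D.x i], by simp⟩

noncomputable def hd (i : ℕ) : s.Λ := (D.exists_head i).choose

theorem hd_spec (i : ℕ) : ∃ t, D.w i ++ [D.x i] = D.hd i :: t := (D.exists_head i).choose_spec

/-- The next spacer. -/
noncomputable def sp (i : ℕ) (P : List s.Λ) : s.Λ :=
  (s.spacer (D.x (i - 1)) (D.hd i) (2 * s.rr i P + D.L i + D.L (i - 1) + 1)).choose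

theorem sp_spec (i : ℕ) (P : List s.Λ) :
    2 * s.rr i P + D.L i + D.L (i - 1) + 1 ≤ s.len (D.sp i P) ∧
      s.Adj (D.x (i - 1)) (D.sp i P) ∧ s.Adj (D.sp i P) (D.hd i) :=
  (s.spacer (D.x (i - 1)) (D.hd i) (2 * s.rr i P + D.L i + D.L (i - 1) + 1)).choose_spec

/-- The prefix before the spacer number `i`. -/
noncomputable def AW : ℕ → List s.Λ
  | 0 => []
  | i + 1 => AW i ++ (D.sp i (AW i) :: (D.w i ++ [D.x i]))

/-- The spacers. -/
noncomputable def S (i : ℕ) : s.Λ := D.sp i (D.AW i)

theorem AW_succ (i : ℕ) : D.AW (i + 1) = D.AW i ++ (D.S i :: (D.w i ++ [D.x i])) := rfl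

theorem S_len (i : ℕ) : 2 * s.rr i (D.AW i) + D.L i + D.L (i - 1) + 1 ≤ s.len (D.S i) :=
  (D.sp_spec i _).1

theorem S_left (i : ℕ) : s.Adj (D.x (i - 1)) (D.S i) := (D.sp_spec i _).2.1

theorem S_right (i : ℕ) : s.Adj (D.S i) (D.hd i) := (D.sp_spec i _).2.2

theorem block_chain (i : ℕ) : (D.S i :: (D.w i ++ [D.x i])).IsChain s.Adj := by
  obtain ⟨t, ht⟩ := D.hd_spec i
  have h := D.hch i
  rw [ht] at h ⊢
  rw [isChain_cons_cons]
  exact ⟨D.S_right i, h⟩

theorem flank_chain (i : ℕ) : (D.S i :: (D.w i ++ [D.x i]) ++ [D.S (i + 1)]).IsChain s.Adj := by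
  rw [isChain_append]
  refine ⟨D.block_chain i, isChain_singleton _, ?_⟩
  intro a ha b hb
  have e : (D.S i :: (D.w i ++ [D.x i])).getLast? = some (D.x i) := by
    rw [← cons_append, getLast?_append]
    simp
  rw [e] at ha
  simp only [Option.mem_def, Option.some.injEq] at ha
  simp only [head?_cons, Option.mem_def, Option.some.injEq] at hb
  rw [← ha, ← hb]
  exact D.S_left (i + 1)

theorem AW_chain (i : ℕ) : (D.AW i ++ [D.S i]).IsChain s.Adj := by
  induction i with
  | zero => simp [AW]
  | succ i ih =>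
    rw [AW_succ, append_assoc]
    have h1 := D.flank_chain i
    rw [isChain_append] at ih
    rw [isChain_append]
    refine ⟨ih.1, h1, ?_⟩
    intro a ha b hb
    refine ih.2.2 a ha b ?_
    simpa using hb

/-- Base point of the spacer. -/
noncomputable def gg (i : ℕ) : G := ((D.AW i).map s.val).prod

theorem gg_succ (i : ℕ) :
    D.gg (i + 1) = D.gg i * (((D.S i :: (D.w i ++ [D.x i])).map s.val).prod) := by
  rw [gg, AW_succ, map_append, prod_append]
  rfl

theorem long_S (i : ℕ) : ∃ f v g : G, (∃ S, s.pts (D.S i) = f :: S) ∧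
    (∃ S, s.pts (D.S i) = S ++ [g]) ∧ [f, v, g] <+ s.pts (D.S i) ∧ d v g = s.rr i (D.AW i) ∧
    s.rr i (D.AW i) < d f v := by
  obtain ⟨f, g, hf, hg, hL, hgeo⟩ := s.long (D.S i)
  have h1 := D.S_len i
  obtain ⟨v, hv1, hv2⟩ := s.dense (D.S i) f g hf hg (s.rr i (D.AW i)) (by unfold rr; omega)
    (by omega)
  refine ⟨f, v, g, hf, hg, hv1, hv2, ?_⟩
  have := hgeo v (sub3_mem hv1).2.1
  omega

noncomputable def pf (i : ℕ) : G := (D.long_S i).choose

noncomputable def pv (i : ℕ) : G := (D.long_S i).choose_spec.choose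

noncomputable def pg (i : ℕ) : G := (D.long_S i).choose_spec.choose_spec.choose

theorem p_spec (i : ℕ) : (∃ S, s.pts (D.S i) = D.pf i :: S) ∧
    (∃ S, s.pts (D.S i) = S ++ [D.pg i]) ∧ [D.pf i, D.pv i, D.pg i] <+ s.pts (D.S i) ∧
    d (D.pv i) (D.pg i) = s.rr i (D.AW i) ∧ s.rr i (D.AW i) < d (D.pf i) (D.pv i) :=
  (D.long_S i).choose_spec.choose_spec.choose_spec

noncomputable def tower : Tower G s.T0 where
  K := fun i => i + 64
  A := fun i => (syls s.val s.pts (D.AW i)).flatten
  T := fun i => (s.pts (D.S i)).map (D.gg i * ·)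
  W := fun i => ((syls s.val s.pts (D.w i ++ [D.x i])).map
    (List.map ((D.gg i * s.val (D.S i)) * ·))).flatten
  f := fun i => D.gg i * D.pf i
  v := fun i => D.gg i * D.pv i
  mu := fun i => D.gg i * D.pg i
  D := fun i => s.dd (D.AW i)
  hA0 := rfl
  hA := by
    intro i
    rw [AW_succ, syls_append, flatten_append]
    simp only [syls, map_cons, flatten_cons, append_assoc, append_cancel_left_eq]
    congr 1
    rw [map_map]
    congr 1
    apply map_congr_left
    intro P _
    simp only [Function.comp, map_map]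
    apply map_congr_left
    intro y _
    simp only [Function.comp, gg, mul_assoc]
  hT := by
    intro i
    obtain ⟨_, ⟨S, hS⟩, _⟩ := D.p_spec i
    exact ⟨S.map (D.gg i * ·), by rw [hS]; simp⟩
  hv := by
    intro i
    obtain ⟨_, _, h, _⟩ := D.p_spec i
    refine ⟨?_, ?_⟩
    · have h2 := h.map (D.gg i * ·)
      refine Sublist.trans ?_ h2
      exact Sublist.cons_cons _ (Sublist.cons_cons _ (nil_sublist _))
    · exact h.map (D.gg i * ·)
  hD := by
    intro i y hy
    obtain ⟨hf, _, _, _⟩ := D.p_spec i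
    have h1 := s.first (D.S i) _ hf
    have h2 := (exists_norm_bound (syls s.val s.pts (D.AW i)).flatten).choose_spec y hy
    have t1 := d_tri (D.gg i * D.pf i) (D.gg i) y
    have t2 := d_tri (D.gg i) 1 y
    have e : d (D.gg i * D.pf i) (D.gg i) = d 1 (D.pf i) := by
      have := d_left (D.gg i) (D.pf i) 1
      rw [mul_one] at this
      rw [this, d_comm]
    have e2 : d (D.gg i) 1 = d 1 (D.gg i) := d_comm _ _
    have e3 : s.dd (D.AW i) = (exists_norm_bound (syls s.val s.pts (D.AW i)).flatten).choose +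
      d 1 (D.gg i) + s.M := rfl
    omega
  hTclose := by
    intro i l c
    exact (s.single (D.S i) l c).smul _
  hblock := by
    intro i l c hl hc
    have hfl := s.flank (D.hU i) (D.hTU i) (L := D.L i) (K := i + 64) le_rfl (D.flank_chain i) (by
      intro y hy
      simp only [cons_append, mem_cons, mem_append, not_mem_nil, or_false] at hy
      rcases hy with rfl | (hy | rfl) | rfl
      · have := D.S_len i
        omega
      · exact D.hlen i y (by simp [hy])
      · exact D.hlen i _ (by simp)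
      · have := D.S_len (i + 1)
        simp only [Nat.add_sub_cancel] at this
        omega) (D.hgood i) hl hc
    have := hfl.smul (D.gg i)
    have e : ((syls s.val s.pts (D.S i :: (D.w i ++ [D.x i]) ++ [D.S (i + 1)])).flatten).map
        (D.gg i * ·) = (s.pts (D.S i)).map (D.gg i * ·) ++
        (((syls s.val s.pts (D.w i ++ [D.x i])).map
          (List.map ((D.gg i * s.val (D.S i)) * ·))).flatten ++
          (s.pts (D.S (i + 1))).map (D.gg (i + 1) * ·)) := by
      rw [syls_append, flatten_append, map_append]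
      simp only [syls, flatten_cons, map_append, map_cons, map_nil, flatten_nil, append_nil,
        append_assoc, append_cancel_left_eq]
      congr 1
      · rw [map_flatten, map_map]
        congr 1
        apply map_congr_left
        intro P _
        simp only [Function.comp, map_map]
        apply map_congr_left
        intro y _
        simp only [Function.comp, mul_assoc]
      · rw [map_map]
        apply map_congr_left
        intro y _
        simp only [Function.comp, gg_succ, mul_assoc, map_cons, map_append, map_nil]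
    rw [e] at this
    exact this
  hK := fun i => le_rfl
  hfv := by
    intro i
    obtain ⟨_, _, _, h3, h4⟩ := D.p_spec i
    rw [d_left]
    have e : s.rr i (D.AW i) = 2 * s.T0 (i + 64) (i + 64 + (i + 64 + 1) * s.dd (D.AW i)) +
      4 * s.T0 (4 * (i + 64)) (i + 64) + s.dd (D.AW i) + i + 1 := rfl
    omega
  hvmu := by
    intro i
    obtain ⟨_, _, _, h3, h4⟩ := D.p_spec i
    rw [d_left, h3]
    have e : s.rr i (D.AW i) = 2 * s.T0 (i + 64) (i + 64 + (i + 64 + 1) * s.dd (D.AW i)) +
      4 * s.T0 (4 * (i + 64)) (i + 64) + s.dd (D.AW i) + i + 1 := rfl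
    omega

theorem F_eq (i : ℕ) : D.tower.F i = (syls s.val s.pts (D.AW i ++ [D.S i])).flatten := by
  rw [syls_append, flatten_append]
  simp only [syls, map_cons, map_nil, flatten_cons, flatten_nil, append_nil]
  rfl

theorem far (J : ℕ) {x : G} (hx : x ∈ D.tower.F 0) : J ≤ d x (D.tower.mu J) := by
  rcases Nat.eq_zero_or_pos J with rfl | hJ
  · exact Nat.zero_le _
  · obtain ⟨i, rfl⟩ : ∃ i, J = i + 1 := ⟨J - 1, by omega⟩
    set t := D.tower with ht
    have hxA : x ∈ t.A (i + 1) := by
      rw [t.hA]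
      exact mem_append_left _ ((t.F_sublist (Nat.zero_le i)).subset hx)
    have h1 := t.hD (i + 1) x hxA
    have h2 := t.hvmu (i + 1)
    have h3 := (t.hTclose (i + 1) 1 0 _ _ _ (t.hv (i + 1)).2).dist_le'
    have h4 : s.T0 1 0 ≤ s.T0 (4 * t.K (i + 1)) (t.K (i + 1)) :=
      s.mono _ _ _ _ (by have := t.hK (i + 1); omega) (by omega)
    have t1 := d_tri (t.f (i + 1)) x (t.mu (i + 1))
    omega

end Data

/-- **The core construction.** -/
theorem core (s : LetterSys G) (V : ℕ → ℕ → ℕ → ℕ) : ∃ γ : ℕ → G, γ 0 = 1 ∧ IsRay γ ∧ (∃ W, Tight W γ) ∧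
    ∀ i, ¬ Tight (V i) γ := by
  set H := 3 * s.T0 63 0 with hH
  set M := s.M with hM
  have hmin := fun i => s.exists_minimal_bad
    (dom (fun l c => s.T0 l c + (V i l (c + 2 * ((l + 1) * H)) + 5 * H + M)))
    (4 * (dom (fun l c => s.T0 l c + (V i l (c + 2 * ((l + 1) * H)) + 5 * H + M))
      (64 * (i + 64) + 63) (i + 64) + 4 * s.T0 (128 * (i + 64) + 127) (i + 64) + 1))
  choose w x h1 h2 h3 h4 using hmin
  let D : s.Data :=
    { U := fun i => dom (fun l c => s.T0 l c + (V i l (c + 2 * ((l + 1) * H)) + 5 * H + M))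
      hU := fun i => dom_mono _
      hTU := fun i l c => (Nat.le_add_right _ _).trans
        (le_dom (fun l c => s.T0 l c + (V i l (c + 2 * ((l + 1) * H)) + 5 * H + M)) l c)
      w := w
      x := x
      hch := h1
      hlen := h2
      hgood := h4 }
  set t := D.tower with ht
  have hnest : ∀ i, ∃ Q, Q ≠ [] ∧ t.F (i + 1) = t.F i ++ Q := fun i =>
    ⟨t.Q i, ne_nil_of_mem (t.mu_mem_Q i), t.F_succ i⟩
  have hF0 : t.F 0 ≠ [] := ne_nil_of_mem (mem_append_right _ (t.mu_mem_T 0))
  have hlen := nested_len hnest hF0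
  obtain ⟨φ, hφ⟩ := exists_seq hnest hF0
  have hsub : ∀ n, (range n).map φ <+ t.F n := by
    intro n
    rw [hφ n]
    exact (range_sublist.mpr (hlen n).le).map φ
  have hφF : ∀ n, φ n ∈ t.F n := by
    intro n
    rw [hφ n]
    exact mem_map.mpr ⟨n, mem_range.mpr (hlen n), rfl⟩
  -- uniform geodesic estimate
  have hgeo : ∀ i j k, i ≤ j → j ≤ k → Btw 1 0 H (φ i) (φ j) (φ k) :=
    btw_of_closeL (fun n => (t.geo_bound s.mono n).sublist (hsub n))
  have hR : ∀ l c, ∃ R, ∀ i j k, i ≤ j → j ≤ k → Btw l c R (φ i) (φ j) (φ k) := by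
    intro l c
    obtain ⟨R, hR⟩ := t.exists_bound s.mono l c
    exact ⟨R, btw_of_closeL (fun n => (hR n).sublist (hsub n))⟩
  have hstep : ∀ n, d (φ n) (φ (n + 1)) ≤ M := by
    refine step_of_chain (fun n => ?_)
    have h5 : (t.F n).IsChain (fun a b => d a b ≤ M) := by
      rw [ht, D.F_eq]
      exact s.steps (D.AW_chain n)
    rw [hφ n] at h5
    obtain ⟨m, hm⟩ := Nat.exists_eq_add_of_le (hlen n).le
    rw [hm, range_add, map_append] at h5
    exact (isChain_append.mp h5).1
  have hφ0 : φ 0 ∈ t.F 0 := hφF 0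
  obtain ⟨γ, g, hg, hγ0, hray, hlim⟩ := exists_limit_ray (fun x n => fin_ball' x n) (φ 0) t.mu
    (fun J => D.far J hφ0)
  have hft : FT φ γ H M := by
    refine ⟨hray, hstep, ?_, hγ0, ?_, hgeo⟩
    · intro n
      obtain ⟨J, hJ, hJ2⟩ := hlim (d (φ 0) (φ n) + H + n)
      -- φ n is before mu J
      have hmu : ∃ m, n ≤ m ∧ φ m = t.mu J := by
        obtain ⟨S, hS⟩ := t.hT J
        have hFJ : t.F J = t.A J ++ S ++ [t.mu J] := by
          rw [Tower.F, hS, append_assoc]
        have hl := hlen J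
        have h6 := hφ J
        obtain ⟨m, hm⟩ : ∃ m, (t.F J).length = m + 1 := ⟨(t.F J).length - 1, by omega⟩
        rw [hm, range_succ, map_append, hFJ] at h6
        have h7 := (append_inj' h6 rfl).2
        simp only [map_cons, map_nil, cons.injEq, and_true] at h7
        exact ⟨m, by omega, h7.symm⟩
      obtain ⟨m, hm, hm2⟩ := hmu
      have h8 := hgeo 0 n m (Nat.zero_le _) hm
      rw [hm2] at h8
      obtain ⟨i, hi, hdi⟩ := h8 (g J) _ (hg J).qp (hg J).1 (hg J).2.1
      have e1 := (hg J).dist_left hi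
      have t1 := d_tri (φ 0) (φ n) (g J i)
      rw [d_comm (φ n)] at t1
      refine ⟨i, ?_⟩
      rw [hJ2 i (by omega)]
      exact hdi
    · intro N
      have hm : t.mu N ∈ t.F N := mem_append_right _ (t.mu_mem_T N)
      rw [hφ N] at hm
      obtain ⟨m, _, hm2⟩ := mem_map.mp hm
      refine ⟨m, ?_⟩
      rw [hm2]
      exact D.far N hφ0
  refine ⟨fun n => (φ 0)⁻¹ * γ n, by simp [hγ0], ?_, ?_, ?_⟩
  · intro i j hij
    simp only [d_left]
    exact hray i j hij
  · obtain ⟨W, hW⟩ := hft.to_gamma hR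
    exact ⟨W, fun l c a u b hau hub => (hW l c a u b hau hub).smul _⟩
  · intro i hV
    have hV' : Tight (V i) γ := fun l c a u b hau hub => by
      have := hV l c a u b hau hub
      exact (Btw.smul_iff _).mp this
    have hphi := hft.to_phi hV'
    apply h3 i
    intro l c
    have h9 : CloseL (t.F (i + 1)) l c (V i l (c + 2 * ((l + 1) * H)) + 5 * H + M) := by
      rw [hφ (i + 1)]
      exact closeL_range (hphi l c)
    have h10 : t.W i <+ t.F (i + 1) := by
      rw [t.F_succ, Tower.Q]
      exact (sublist_append_left _ _).trans (sublist_append_right _ _)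
    have h11 := h9.sublist h10
    have e : t.W i = ((syls s.val s.pts (w i ++ [x i])).flatten).map
        ((D.gg i * s.val (D.S i)) * ·) := by
      rw [map_flatten]
      rfl
    rw [e, CloseL.smul_iff] at h11
    refine h11.mono le_rfl le_rfl ?_
    refine le_trans ?_
      (le_dom (fun l c => s.T0 l c + (V i l (c + 2 * ((l + 1) * H)) + 5 * H + M)) l c)
    exact Nat.le_add_left _ _

end LetterSys

end Pool.Agent.Lib.H76.Morse
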