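import Pool.Agent.Lib.H76.Morse.Nested

/-!
# The corner estimate

Two tight geodesic segments issuing from nearby points, which separate, form a tight corner.
-/

namespace Pool.Agent.Lib.H76.Morse

open GeoMet List

section lists

variable {α : Type*}

theorem sub2_map_range {φ : ℕ → α} {N : ℕ} {x y : α} (h : [x, y] <+ (range N).map φ) :
    ∃ i j, i < j ∧ j < N ∧ x = φ i ∧ y = φ j := by
  rw [sublist_map_iff] at h
  obtain ⟨l', h1, h2⟩ := h
  have hp : l'.Pairwise (· < ·) := (pairwise_lt_range (n := N)).sublist h1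
  match l', h1, h2, hp with
  | [a, b], h1, h2, hp =>
    simp only [map_cons, map_nil, cons.injEq, and_true] at h2
    simp only [pairwise_cons, mem_cons, not_mem_nil, or_false, forall_eq,
      IsEmpty.forall_iff, implies_true, Pairwise.nil, and_true] at hp
    exact ⟨a, b, hp, by have := h1.subset (mem_cons_of_mem a (mem_singleton_self b)); simpa using this,
      h2.1, h2.2⟩
  | [], _, h2, _ => simp at h2
  | [a], _, h2, _ => simp at h2
  | a :: b :: e :: t, _, h2, _ => simp at h2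

theorem sub3_map_range {φ : ℕ → α} {N : ℕ} {x y z : α} (h : [x, y, z] <+ (range N).map φ) :
    ∃ i j k, i < j ∧ j < k ∧ k < N ∧ x = φ i ∧ y = φ j ∧ z = φ k := by
  rw [sublist_map_iff] at h
  obtain ⟨l', h1, h2⟩ := h
  have hp : l'.Pairwise (· < ·) := (pairwise_lt_range (n := N)).sublist h1
  match l', h1, h2, hp with
  | [a, b, e], h1, h2, hp =>
    simp only [map_cons, map_nil, cons.injEq, and_true] at h2
    simp only [pairwise_cons, mem_cons, not_mem_nil, or_false, forall_eq_or_imp, forall_eq,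
      IsEmpty.forall_iff, implies_true, Pairwise.nil, and_true] at hp
    exact ⟨a, b, e, hp.1.1, hp.2, by have := (sub3_mem h1).2.2; simpa using this,
      h2.1, h2.2.1, h2.2.2⟩
  | [], _, h2, _ => simp at h2
  | [a], _, h2, _ => simp at h2
  | [a, b], _, h2, _ => simp at h2
  | a :: b :: e :: f :: t, _, h2, _ => simp at h2

end lists

variable {X : Type*} [GeoMet X]

/-- Size of the neighbourhood containing the quasi-geodesics. -/
def nb (V : ℕ → ℕ → ℕ) (l c : ℕ) : ℕ := V l c + (l * (2 * V l c + 1) + c)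

theorem nb_mono {V : ℕ → ℕ → ℕ} (hV : Mono V) : Mono (nb V) := by
  intro l l' c c' hl hc
  unfold nb
  have h1 := hV l l' c c' hl hc
  have h2 : l * (2 * V l c + 1) ≤ l' * (2 * V l' c' + 1) := Nat.mul_le_mul hl (by omega)
  omega

theorem le_nb (V : ℕ → ℕ → ℕ) (l c : ℕ) : V l c ≤ nb V l c := Nat.le_add_right _ _

/-- A tight geodesic segment. -/
structure TSeg (V : ℕ → ℕ → ℕ) (α : ℕ → X) (m : ℕ) : Prop where
  geo : ∀ i j, i ≤ j → j ≤ m → d (α i) (α j) = j - i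
  tight : ∀ l c a u b, a ≤ u → u ≤ b → b ≤ m → Btw l c (V l c) (α a) (α u) (α b)

omit [GeoMet X] in
theorem cat_add {p : ℕ → X} {D : ℕ} {q : ℕ → X} {i0 i : ℕ} (hp : p D = q i0) :
    cat p D q i0 (D + i) = q (i0 + i) := by
  by_cases h1 : i = 0
  · subst h1
    rw [cat_left (by omega)]
    simpa using hp
  · rw [cat_right (by omega)]
    congr 1
    omega

theorem TSeg.near {V : ℕ → ℕ → ℕ} {β : ℕ → X} {n : ℕ} (h : TSeg V β n) {l c k b : ℕ} {q : ℕ → X}
    (hq : QP l c q k) (hb : b ≤ n) (h0 : q 0 = β 0) (hk : q k = β b) :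
    ∀ i ≤ k, ∃ u ≤ b, d (q i) (β u) ≤ nb V l c := by
  intro i hi
  have hP : ∀ b' ≤ b, (∃ i' ≤ i, d (q i') (β b') ≤ V l c) ∨
      ∃ u < b', (∃ i' ≤ i, d (q i') (β u) ≤ V l c) ∧ ¬ (∃ i' ≤ i, d (q i') (β (u + 1)) ≤ V l c) := by
    intro b'
    induction b' with
    | zero =>
      intro _
      exact Or.inl ⟨0, Nat.zero_le _, by rw [h0, d_self]; exact Nat.zero_le _⟩
    | succ b' ih =>
      intro hb'
      by_cases hc : ∃ i' ≤ i, d (q i') (β (b' + 1)) ≤ V l c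
      · exact Or.inl hc
      · rcases ih (by omega) with h1 | ⟨u, hu, h1⟩
        · exact Or.inr ⟨b', by omega, h1, hc⟩
        · exact Or.inr ⟨u, by omega, h1⟩
  unfold nb
  rcases hP b le_rfl with ⟨i', hi', h1⟩ | ⟨u, hu, ⟨i', hi', h1⟩, h2⟩
  · refine ⟨b, le_rfl, ?_⟩
    rw [← hk] at h1
    have e1 := (hq i' k (hi'.trans hi) le_rfl).2
    have e2 := (hq i k hi le_rfl).1
    rw [hk] at e2
    have e3 : l * d (q i') (q k) ≤ l * (2 * V l c + 1) := Nat.mul_le_mul_left _ (by omega)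
    omega
  · refine ⟨u, hu.le, ?_⟩
    obtain ⟨i'', hi'', h3⟩ := h.tight l c 0 (u + 1) b (Nat.zero_le _) (by omega) hb q k hq h0 hk
    have hlt : i < i'' := by
      by_contra hcon
      exact h2 ⟨i'', by omega, h3⟩
    have e1 := (hq i' i'' (by omega) hi'').2
    have t1 := d_tri (q i') (β u) (q i'')
    have t2 := d_tri (β u) (β (u + 1)) (q i'')
    have g1 := h.geo u (u + 1) (by omega) (by omega)
    rw [d_comm (q i'')] at h3
    have e3 : l * d (q i') (q i'') ≤ l * (2 * V l c + 1) := Nat.mul_le_mul_left _ (by omega)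
    have e4 := (hq i' i hi' hi).1
    have t3 := d_tri (q i) (q i') (β u)
    rw [d_comm (q i) (q i')] at t3
    omega

theorem TSeg.near' {V : ℕ → ℕ → ℕ} {β : ℕ → X} {n : ℕ} (h : TSeg V β n) {l c k b D : ℕ}
    {q : ℕ → X} (hq : QP l c q k) (hb : b ≤ n) (h0 : d (β 0) (q 0) ≤ D) (hk : q k = β b) :
    ∀ i ≤ k, ∃ u ≤ b, d (q i) (β u) ≤ nb V l (c + (l + 1) * D) := by
  intro i hi
  obtain ⟨p, hp⟩ := exists_isGeo (β 0) (q 0)
  have hr := pre_path hq hp
  have hr' : QP l (c + (l + 1) * D) (cat p (d (β 0) (q 0)) q 0) (d (β 0) (q 0) + k) :=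
    hr.mono le_rfl (by
      have := Nat.mul_le_mul_left (l + 1) h0
      omega)
  obtain ⟨u, hu, h1⟩ := h.near hr' hb (by rw [cat_left (Nat.zero_le _)]; exact hp.1) (by
    rw [cat_add hp.2.1, zero_add, hk]) (d (β 0) (q 0) + i) (by omega)
  rw [cat_add hp.2.1, zero_add] at h1
  exact ⟨u, hu, h1⟩

theorem corner1 {V : ℕ → ℕ → ℕ} {α β : ℕ → X} {m n M' r1 : ℕ} (hα : TSeg V α m)
    (hβ : TSeg V β n) (h0 : d (α 0) (β 0) ≤ M')
    (hsep : r1 ≤ m → ∀ t ≤ n, V 3 0 + nb V 3 (4 * M') < d (α r1) (β t)) {s t : ℕ}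
    (hs : s ≤ m) (ht : t ≤ n) : s + t ≤ d (α s) (β t) + (2 * (r1 + V 3 0) + M') := by
  have gβ := hβ.geo 0 t (Nat.zero_le _) ht
  have gα := hα.geo 0 s (Nat.zero_le _) hs
  by_cases hr : s ≤ r1
  · have t1 := d_tri (β 0) (α 0) (β t)
    have t2 := d_tri (α 0) (α s) (β t)
    rw [d_comm (β 0) (α 0)] at t1
    omega
  · have hr1 : r1 ≤ s := by omega
    obtain ⟨p, hp⟩ := exists_isGeo (β t) (α s)
    set N := d (β t) (α s) with hN
    obtain ⟨j0, hj0, hmin⟩ := exists_nearest p N (α 0)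
    obtain ⟨g, hg⟩ := exists_isGeo (α 0) (p j0)
    have hq1 := np_path hp.qp hj0 hmin hg
    obtain ⟨hq2, hq2l⟩ := np_path_rev hp.qp hj0 hmin hg
    set D := d (α 0) (p j0) with hD
    obtain ⟨i, hi, hd⟩ := hα.tight 3 0 0 r1 s (Nat.zero_le _) hr1 hs _ _ hq1
      (by rw [cat_left (Nat.zero_le _)]; exact hg.1) (by rw [cat_last hj0 hg.2.1, hp.2.1])
    by_cases hiD : i ≤ D
    · exfalso
      rw [cat_left hiD] at hd
      obtain ⟨u, hu, h1⟩ := hβ.near' (D := M') hq2 ht (by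
        rw [cat_left (Nat.zero_le _), hg.1, d_comm]; exact h0) (by rw [hq2l, hp.1]) i (by omega)
      rw [cat_left hiD] at h1
      have h2 := hsep (hr1.trans hs) u (hu.trans ht)
      have t1 := d_tri (α r1) (g i) (β u)
      rw [d_comm (α r1) (g i)] at t1
      have e : 0 + (2 * 1 + 1 + 1) * M' = 4 * M' := by ring
      rw [e] at h1
      have e2 : 2 * 1 + 1 = 3 := rfl
      rw [e2] at h1
      omega
    · rw [cat_right (not_le.mp hiD)] at hd
      set k := j0 + (i - D) with hk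
      have hkN : k ≤ N := by omega
      have e1 := hp.dist_left hkN
      have e2 := hp.dist_right hkN
      have t1 := d_tri (β t) (p k) (α r1)
      have t2 := d_tri (α r1) (p k) (α s)
      have g1 := hα.geo r1 s hr1 hs
      have g2 := hα.geo 0 r1 (Nat.zero_le _) (hr1.trans hs)
      have t3 := d_tri (β 0) (α 0) (β t)
      have t4 := d_tri (α 0) (α r1) (β t)
      rw [d_comm (β 0) (α 0)] at t3
      rw [d_comm (α r1) (β t)] at t4
      rw [d_comm (α r1) (p k)] at t2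
      rw [d_comm (α s) (β t)]
      omega

section corner2

variable {V : ℕ → ℕ → ℕ} {α β : ℕ → X} {m n M' E : ℕ}

/-- The data at the nearest point. -/
theorem corner_np (hV : Mono V) (hα : TSeg V α m) (hβ : TSeg V β n) (h0 : d (α 0) (β 0) ≤ M')
    (hE : ∀ s ≤ m, ∀ t ≤ n, s + t ≤ d (α s) (β t) + E) {l c s t N i0 : ℕ} (hs : s ≤ m) (ht : t ≤ n)
    {q : ℕ → X} (hq : QP l c q N) (hq0 : q 0 = α s) (hqN : q N = β t) (hi0 : i0 ≤ N)
    (hmin : ∀ i ≤ N, d (α 0) (q i0) ≤ d (α 0) (q i)) :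
    d (α 0) (q i0) ≤ 3 * nb V (2 * l + 1) (c + (2 * l + 2) * M') + E := by
  obtain ⟨g, hg⟩ := exists_isGeo (α 0) (q i0)
  have hR := np_path hq hi0 hmin hg
  obtain ⟨hL, hLl⟩ := np_path_rev hq hi0 hmin hg
  obtain ⟨a, ha, h1⟩ := hα.near hL hs (by rw [cat_left (Nat.zero_le _)]; exact hg.1)
    (by rw [hLl, hq0]) (d (α 0) (q i0)) (by omega)
  obtain ⟨b, hb, h2⟩ := hβ.near' (D := M') hR ht (by
    rw [cat_left (Nat.zero_le _), hg.1, d_comm]; exact h0)
    (by rw [cat_last hi0 hg.2.1, hqN]) (d (α 0) (q i0)) (by omega)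
  rw [cat_left le_rfl, hg.2.1] at h1 h2
  have h3 : nb V (2 * l + 1) c ≤ nb V (2 * l + 1) (c + (2 * l + 2) * M') :=
    nb_mono hV _ _ _ _ le_rfl (by omega)
  have e : 2 * l + 1 + 1 = 2 * l + 2 := rfl
  rw [e] at h2
  have h4 := hE a (ha.trans hs) b (hb.trans ht)
  have t1 := d_tri (α a) (q i0) (β b)
  have t2 := d_tri (α 0) (α a) (q i0)
  have g1 := hα.geo 0 a (Nat.zero_le _) (ha.trans hs)
  rw [d_comm (α a) (q i0)] at t1 t2
  omega

theorem corner2A (hV : Mono V) (hα : TSeg V α m) (hβ : TSeg V β n) (h0 : d (α 0) (β 0) ≤ M')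
    (hE : ∀ s ≤ m, ∀ t ≤ n, s + t ≤ d (α s) (β t) + E) {l c s u t : ℕ} (hus : u ≤ s) (hs : s ≤ m)
    (ht : t ≤ n) :
    Btw l c (4 * nb V (2 * l + 1) (c + (2 * l + 2) * M') + E + M') (α s) (α u) (β t) := by
  intro q N hq hq0 hqN
  obtain ⟨i0, hi0, hmin⟩ := exists_nearest q N (α 0)
  have hD := corner_np hV hα hβ h0 hE hs ht hq hq0 hqN hi0 hmin
  obtain ⟨g, hg⟩ := exists_isGeo (α 0) (q i0)
  obtain ⟨hL, hLl⟩ := np_path_rev hq hi0 hmin hg
  obtain ⟨j, hj, hjd⟩ := hα.tight (2 * l + 1) c 0 u s (Nat.zero_le _) hus hs _ _ hL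
    (by rw [cat_left (Nat.zero_le _)]; exact hg.1) (by rw [hLl, hq0])
  have h3 : V (2 * l + 1) c ≤ nb V (2 * l + 1) (c + (2 * l + 2) * M') :=
    (le_nb V _ _).trans (nb_mono hV _ _ _ _ le_rfl (by omega))
  by_cases hjD : j ≤ d (α 0) (q i0)
  · rw [cat_left hjD] at hjd
    refine ⟨i0, hi0, ?_⟩
    have e1 := hg.dist_right hjD
    have t1 := d_tri (q i0) (g j) (α u)
    rw [d_comm (q i0) (g j)] at t1
    omega
  · rw [cat_right (not_le.mp hjD)] at hjd
    exact ⟨N - (N - i0 + (j - d (α 0) (q i0))), by omega, by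
      have : d (q (N - (N - i0 + (j - d (α 0) (q i0))))) (α u) ≤ V (2 * l + 1) c := by
        simpa only [revp] using hjd
      omega⟩

theorem corner2B (hV : Mono V) (hα : TSeg V α m) (hβ : TSeg V β n) (h0 : d (α 0) (β 0) ≤ M')
    (hE : ∀ s ≤ m, ∀ t ≤ n, s + t ≤ d (α s) (β t) + E) {l c s u t : ℕ} (hut : u ≤ t) (hs : s ≤ m)
    (ht : t ≤ n) :
    Btw l c (4 * nb V (2 * l + 1) (c + (2 * l + 2) * M') + E + M') (α s) (β u) (β t) := by
  intro q N hq hq0 hqN
  obtain ⟨i0, hi0, hmin⟩ := exists_nearest q N (α 0)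
  have hD := corner_np hV hα hβ h0 hE hs ht hq hq0 hqN hi0 hmin
  obtain ⟨g, hg⟩ := exists_isGeo (α 0) (q i0)
  have hR := np_path hq hi0 hmin hg
  have hb := hβ.tight (2 * l + 1) (c + (2 * l + 1 + 1) * M') 0 u t (Nat.zero_le _) hut ht
  have hb' := move_left hb (by rw [d_comm]; exact h0)
  obtain ⟨j, hj, hjd⟩ := hb' _ _ hR (by rw [cat_left (Nat.zero_le _)]; exact hg.1)
    (by rw [cat_last hi0 hg.2.1, hqN])
  have e : 2 * l + 1 + 1 = 2 * l + 2 := rfl
  rw [e] at hjd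
  have h3 := le_nb V (2 * l + 1) (c + (2 * l + 2) * M')
  by_cases hjD : j ≤ d (α 0) (q i0)
  · rw [cat_left hjD] at hjd
    refine ⟨i0, hi0, ?_⟩
    have e1 := hg.dist_right hjD
    have t1 := d_tri (q i0) (g j) (β u)
    rw [d_comm (q i0) (g j)] at t1
    omega
  · rw [cat_right (not_le.mp hjD)] at hjd
    exact ⟨i0 + (j - d (α 0) (q i0)), by omega, by omega⟩

end corner2

theorem TSeg.closeL {V : ℕ → ℕ → ℕ} {α : ℕ → X} {m : ℕ} (h : TSeg V α m) (l c : ℕ) :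
    CloseL ((range (m + 1)).map α) l c (V l c) := by
  intro x y z hs
  obtain ⟨i, j, k, hij, hjk, hk, rfl, rfl, rfl⟩ := sub3_map_range hs
  exact h.tight l c i j k hij.le hjk.le (by omega)

theorem TSeg.closeL_rev {V : ℕ → ℕ → ℕ} {α : ℕ → X} {m : ℕ} (h : TSeg V α m) (l c : ℕ) :
    CloseL ((range (m + 1)).map (fun i => α (m - i))) l c (V l c) := by
  intro x y z hs
  obtain ⟨i, j, k, hij, hjk, hk, rfl, rfl, rfl⟩ := sub3_map_range hs
  exact (h.tight l c (m - k) (m - j) (m - i) (by omega) (by omega) (by omega)).symm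

/-- The gauge of a corner. -/
def cornerT (V : ℕ → ℕ → ℕ) (M' E l c : ℕ) : ℕ :=
  4 * nb V (2 * l + 1) (c + (2 * l + 2) * M') + E + M'

theorem cornerT_mono {V : ℕ → ℕ → ℕ} (hV : Mono V) (M' E : ℕ) : Mono (cornerT V M' E) := by
  intro l l' c c' hl hc
  unfold cornerT
  have h1 : (2 * l + 2) * M' ≤ (2 * l' + 2) * M' := Nat.mul_le_mul_right _ (by omega)
  have := nb_mono hV (2 * l + 1) (2 * l' + 1) (c + (2 * l + 2) * M') (c' + (2 * l' + 2) * M')
    (by omega) (by omega)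
  omega

theorem le_cornerT {V : ℕ → ℕ → ℕ} (hV : Mono V) (M' E l c : ℕ) : V l c ≤ cornerT V M' E l c := by
  unfold cornerT
  have h1 := hV l (2 * l + 1) c (c + (2 * l + 2) * M') (by omega) (by omega)
  have h2 := le_nb V (2 * l + 1) (c + (2 * l + 2) * M')
  omega

theorem corner {V : ℕ → ℕ → ℕ} {α β : ℕ → X} {m n M' r1 E : ℕ} (hV : Mono V) (hα : TSeg V α m)
    (hβ : TSeg V β n) (h0 : d (α 0) (β 0) ≤ M')
    (hsep : r1 ≤ m → ∀ t ≤ n, V 3 0 + nb V 3 (4 * M') < d (α r1) (β t))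
    (hE : 2 * (r1 + V 3 0) + M' ≤ E) (l c : ℕ) :
    CloseL ((range (m + 1)).map (fun i => α (m - i)) ++ (range (n + 1)).map β) l c
      (cornerT V M' E l c) := by
  have hE' : ∀ s ≤ m, ∀ t ≤ n, s + t ≤ d (α s) (β t) + E := fun s hs t ht => by
    have := corner1 hα hβ h0 hsep hs ht
    omega
  intro x y z hs
  rw [sub3_append] at hs
  rcases hs with hs | ⟨hs, hz⟩ | ⟨hx, hs⟩ | hs
  · exact (hα.closeL_rev l c x y z hs).mono le_rfl le_rfl (le_cornerT hV _ _ _ _)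
  · obtain ⟨i, j, hij, hj, rfl, rfl⟩ := sub2_map_range hs
    obtain ⟨k, hk, rfl⟩ := mem_map.mp hz
    exact corner2A hV hα hβ h0 hE' (by omega) (by omega) (by simp at hk; omega)
  · obtain ⟨i, j, hij, hj, rfl, rfl⟩ := sub2_map_range hs
    obtain ⟨k, hk, rfl⟩ := mem_map.mp hx
    exact corner2B hV hα hβ h0 hE' (by omega) (by omega) (by omega)
  · exact (hβ.closeL l c x y z hs).mono le_rfl le_rfl (le_cornerT hV _ _ _ _)

end Pool.Agent.Lib.H76.Morse
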