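import Mathlib

/-!
# Cayley graphs as metric spaces, and the Morse boundary

Definitions used in the statement about free subgroups of groups with a `σ`-compact Morse
boundary.
-/

namespace Pool.Agent.Lib.H76.MorseDefs

open scoped NNReal ENNReal

universe u

/-! ### The geometric realization of a connected graph -/

section realization

variable {V : Type u}

/-- The barycentric coordinates of the point at distance `t` from `u` on the edge from `u` to
`v`. -/
noncomputable def bary (u v : V) (t : ℝ) : V →₀ ℝ := Finsupp.single u (1 - t) + Finsupp.single v t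

/-- `PathLen Γ x y ℓ` : a piecewise linear path of length `ℓ` in the realization of the graph `Γ`
(with edges of length one) joins `x` to `y`: one passes from `x` to `y` in finitely many steps,
each of them between two points of one edge, and the lengths of the steps sum up to `ℓ`. -/
inductive PathLen (Γ : SimpleGraph V) : (V →₀ ℝ) → (V →₀ ℝ) → ℝ → Prop
  | refl (x : V →₀ ℝ) : PathLen Γ x x 0
  | step {u v : V} {s t : ℝ} {y : V →₀ ℝ} {ℓ : ℝ} (h : Γ.Adj u v) (hs : s ∈ Set.Icc (0 : ℝ) 1)
      (ht : t ∈ Set.Icc (0 : ℝ) 1) (hp : PathLen Γ (bary u v t) y ℓ) :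
      PathLen Γ (bary u v s) y (|s - t| + ℓ)

/-- The geometric realization of a connected graph: all points, given by their barycentric
coordinates, of vertices and edges. -/
structure Realization (Γ : SimpleGraph V) (hΓ : Γ.Connected) where
  coord : V →₀ ℝ
  mem : ∃ u v : V, (u = v ∨ Γ.Adj u v) ∧ ∃ t ∈ Set.Icc (0 : ℝ) 1, coord = bary u v t

variable {Γ : SimpleGraph V} {hΓ : Γ.Connected}

/-- The vertex `u` as a point of the realization. -/
noncomputable def Realization.vertex (u : V) : Realization Γ hΓ :=
  ⟨Finsupp.single u 1, u, u, Or.inl rfl, 0, by simp, by simp [bary]⟩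

/-- The path metric on the realization: the infimum of the lengths of the piecewise linear
paths. -/
noncomputable instance Realization.instDist : Dist (Realization Γ hΓ) where
  dist x y := sInf {ℓ | PathLen Γ x.coord y.coord ℓ}

theorem Realization.dist_def (x y : Realization Γ hΓ) :
    dist x y = sInf {ℓ | PathLen Γ x.coord y.coord ℓ} := rfl

theorem PathLen.nonneg {x y : V →₀ ℝ} {ℓ : ℝ} (h : PathLen Γ x y ℓ) : 0 ≤ ℓ := by
  induction h with
  | refl x => exact le_rfl
  | step h hs ht hp ih => positivity

theorem PathLen.trans {x y z : V →₀ ℝ} {a b : ℝ} (h : PathLen Γ x y a) (h' : PathLen Γ y z b) :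
    PathLen Γ x z (a + b) := by
  induction h with
  | refl x => simpa using h'
  | step h hs ht hp ih =>
    have := PathLen.step h hs ht (ih h')
    rwa [← add_assoc] at this

theorem PathLen.single {u v : V} {s t : ℝ} (h : Γ.Adj u v) (hs : s ∈ Set.Icc (0 : ℝ) 1)
    (ht : t ∈ Set.Icc (0 : ℝ) 1) : PathLen Γ (bary u v s) (bary u v t) |s - t| := by
  have := PathLen.step h hs ht (PathLen.refl (Γ := Γ) (bary u v t))
  rwa [add_zero] at this

theorem PathLen.symm {x y : V →₀ ℝ} {a : ℝ} (h : PathLen Γ x y a) : PathLen Γ y x a := by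
  induction h with
  | refl x => exact PathLen.refl x
  | step h hs ht hp ih =>
    have := ih.trans (PathLen.single h ht hs)
    rwa [abs_sub_comm, add_comm] at this

theorem bary_zero (u v : V) : bary u v 0 = Finsupp.single u 1 := by simp [bary]

theorem bary_one (u v : V) : bary u v 1 = Finsupp.single v 1 := by simp [bary]

theorem bary_self (u : V) (t : ℝ) : bary u u t = Finsupp.single u 1 := by
  unfold bary
  rw [← Finsupp.single_add]
  congr 1
  ring

/-- Vertices joined by a walk are joined by a path of the same length. -/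
theorem PathLen.of_walk {u v : V} (p : Γ.Walk u v) :
    PathLen Γ (Finsupp.single u 1) (Finsupp.single v 1) (p.length : ℝ) := by
  induction p with
  | nil => simpa using PathLen.refl _
  | @cons a b c h p ih =>
    have h1 := PathLen.single (Γ := Γ) h (s := 0) (t := 1) (by simp) (by simp)
    rw [bary_zero, bary_one] at h1
    have := h1.trans ih
    rw [SimpleGraph.Walk.length_cons]
    push_cast
    rw [add_comm]
    simpa using this

/-- Every point is joined to a vertex by a path of length at most one. -/
theorem Realization.exists_near (x : Realization Γ hΓ) : ∃ u : V, ∃ ℓ ≤ (1 : ℝ),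
    PathLen Γ x.coord (Finsupp.single u 1) ℓ := by
  obtain ⟨u, v, huv, t, ht, hx⟩ := x.mem
  rcases huv with rfl | huv
  · refine ⟨u, 0, zero_le_one, ?_⟩
    rw [hx, bary_self]
    exact PathLen.refl _
  · refine ⟨u, |t - 0|, ?_, ?_⟩
    · rw [sub_zero, abs_of_nonneg ht.1]
      exact ht.2
    · rw [hx, ← bary_zero u v]
      exact PathLen.single huv ht (by simp)

theorem Realization.exists_path (x y : Realization Γ hΓ) : ∃ ℓ, PathLen Γ x.coord y.coord ℓ := by
  obtain ⟨u, a, _, ha⟩ := x.exists_near
  obtain ⟨v, b, _, hb⟩ := y.exists_near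
  obtain ⟨p⟩ := hΓ.preconnected u v
  exact ⟨_, (ha.trans (PathLen.of_walk p)).trans hb.symm⟩

theorem bddBelow_pathLen (x y : V →₀ ℝ) : BddBelow {ℓ | PathLen Γ x y ℓ} :=
  ⟨0, fun _ h => PathLen.nonneg h⟩

/-- A linear functional which is `1`-Lipschitz on all edges is `1`-Lipschitz along paths. -/
theorem PathLen.lipschitz (f : (V →₀ ℝ) →ₗ[ℝ] ℝ)
    (hf : ∀ u v, Γ.Adj u v → |f (Finsupp.single u 1) - f (Finsupp.single v 1)| ≤ 1)
    {x y : V →₀ ℝ} {ℓ : ℝ} (h : PathLen Γ x y ℓ) : |f x - f y| ≤ ℓ := by
  have key : ∀ u v : V, ∀ t : ℝ, f (bary u v t) =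
      (1 - t) * f (Finsupp.single u 1) + t * f (Finsupp.single v 1) := by
    intro u v t
    have e1 : Finsupp.single u (1 - t) = (1 - t) • Finsupp.single u (1 : ℝ) := by simp
    have e2 : Finsupp.single v t = t • Finsupp.single v (1 : ℝ) := by simp
    unfold bary
    rw [e1, e2, map_add, map_smul, map_smul, smul_eq_mul, smul_eq_mul]
  induction h with
  | refl x => simp
  | @step u v s t y ℓ h hs ht hp ih =>
    have h1 : |f (bary u v s) - f (bary u v t)| ≤ |s - t| := by
      rw [key, key]
      have e : (1 - s) * f (Finsupp.single u 1) + s * f (Finsupp.single v 1) -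
          ((1 - t) * f (Finsupp.single u 1) + t * f (Finsupp.single v 1)) =
          -(s - t) * (f (Finsupp.single u 1) - f (Finsupp.single v 1)) := by ring
      rw [e, abs_mul, abs_neg]
      have h2 := hf u v h
      have h3 : 0 ≤ |s - t| := abs_nonneg _
      nlinarith [abs_nonneg (f (Finsupp.single u 1) - f (Finsupp.single v 1))]
    have h2 := abs_sub_le (f (bary u v s)) (f (bary u v t)) (f y)
    linarith

theorem Realization.lipschitz (f : (V →₀ ℝ) →ₗ[ℝ] ℝ)
    (hf : ∀ u v, Γ.Adj u v → |f (Finsupp.single u 1) - f (Finsupp.single v 1)| ≤ 1)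
    (x y : Realization Γ hΓ) : |f x.coord - f y.coord| ≤ dist x y := by
  obtain ⟨ℓ, hℓ⟩ := x.exists_path y
  exact le_csInf ⟨ℓ, hℓ⟩ (fun a ha => PathLen.lipschitz f hf ha)

theorem Realization.dist_le {x y : Realization Γ hΓ} {ℓ : ℝ}
    (h : PathLen Γ x.coord y.coord ℓ) : dist x y ≤ ℓ :=
  csInf_le (bddBelow_pathLen _ _) h

noncomputable instance Realization.instMetricSpace : MetricSpace (Realization Γ hΓ) where
  dist_self x := by
    apply le_antisymm
    · exact Realization.dist_le (PathLen.refl _)
    · obtain ⟨ℓ, hℓ⟩ := x.exists_path x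
      exact le_csInf ⟨ℓ, hℓ⟩ (fun a ha => PathLen.nonneg ha)
  dist_comm x y := by
    rw [Realization.dist_def, Realization.dist_def]
    congr 1
    ext ℓ
    exact ⟨PathLen.symm, PathLen.symm⟩
  dist_triangle x y z := by
    have h1 : ∀ a ∈ {ℓ | PathLen Γ x.coord y.coord ℓ}, ∀ b ∈ {ℓ | PathLen Γ y.coord z.coord ℓ},
        dist x z ≤ a + b := fun a ha b hb => Realization.dist_le (PathLen.trans ha hb)
    have h2 : ∀ a ∈ {ℓ | PathLen Γ x.coord y.coord ℓ}, dist x z - dist y z ≤ a := by
      intro a ha
      have : dist x z - a ≤ dist y z := le_csInf (y.exists_path z) (fun b hb => by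
        have := h1 a ha b hb
        linarith)
      linarith
    have h3 : dist x z - dist y z ≤ dist x y := le_csInf (x.exists_path y) h2
    linarith
  eq_of_dist_eq_zero := by
    intro x y h
    have h1 : x.coord = y.coord := by
      ext w
      have h2 := Realization.lipschitz (Γ := Γ) (hΓ := hΓ)
        (Finsupp.lapply w : (V →₀ ℝ) →ₗ[ℝ] ℝ) (by
          intro u v huv
          have hne : u ≠ v := huv.ne
          simp only [Finsupp.lapply_apply]
          by_cases h1 : u = w
          · subst h1
            rw [Finsupp.single_eq_same, Finsupp.single_eq_of_ne hne]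
            simp
          · rw [Finsupp.single_eq_of_ne (Ne.symm h1)]
            by_cases h2 : v = w
            · subst h2
              rw [Finsupp.single_eq_same]
              simp
            · rw [Finsupp.single_eq_of_ne (Ne.symm h2)]
              simp) x y
      rw [h, Finsupp.lapply_apply, Finsupp.lapply_apply] at h2
      have := abs_eq_zero.mp (le_antisymm h2 (abs_nonneg _))
      linarith
    cases x
    cases y
    simp only at h1
    subst h1
    rfl

end realization

/-! ### Cayley graphs -/

section cayley

variable {G : Type u} [Group G]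

/-- The Cayley graph of `G` with respect to `S`, as a graph: `g` and `g * s` are joined by an edge
for `g` in `G` and `s` in `S`. -/
def cayleyGraph (S : Finset G) : SimpleGraph G :=
  SimpleGraph.fromRel (fun g h => ∃ s ∈ S, h = g * s)

theorem cayleyGraph_reach (S : Finset G) (g : G) {s : G} (hs : s ∈ S) :
    (cayleyGraph S).Reachable g (g * s) := by
  by_cases h : g = g * s
  · rw [← h]
  · refine SimpleGraph.Adj.reachable ?_
    rw [cayleyGraph, SimpleGraph.fromRel_adj]
    exact ⟨h, Or.inl ⟨s, hs, rfl⟩⟩

theorem cayleyGraph_connected {S : Finset G} (hS : Subgroup.closure (S : Set G) = ⊤) :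
    (cayleyGraph S).Connected := by
  have h1 : ∀ h ∈ Subgroup.closure (S : Set G), ∀ g : G, (cayleyGraph S).Reachable g (g * h) := by
    intro h hh
    induction hh using Subgroup.closure_induction with
    | mem s hs => exact fun g => cayleyGraph_reach S g hs
    | one => intro g; rw [mul_one]
    | mul x y _ _ hx hy =>
      intro g
      rw [← mul_assoc]
      exact (hx g).trans (hy (g * x))
    | inv x _ hx =>
      intro g
      have := hx (g * x⁻¹)
      rw [inv_mul_cancel_right] at this
      exact this.symm
  have : Nonempty G := ⟨1⟩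
  refine ⟨fun g h => ?_⟩
  have := h1 (g⁻¹ * h) (by rw [hS]; trivial) g
  rwa [mul_inv_cancel_left] at this

/-- The Cayley graph of `G` with respect to the finite generating set `S`, as a metric space: the
geometric realization with its path metric. -/
abbrev CayleyGraph (S : Finset G) (hS : Subgroup.closure (S : Set G) = ⊤) : Type u :=
  Realization (cayleyGraph S) (cayleyGraph_connected hS)

end cayley

/-! ### The Morse boundary of a metric space with a base point -/

section boundary

/-- Morse gauges: the functions `[1, ∞) × [0, ∞) → [0, ∞)`. -/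
abbrev MorseGauge : Type := Set.Ici (1 : ℝ) → ℝ≥0 → ℝ≥0

variable {X : Type u} [MetricSpace X]

/-- The restriction of `q` to the interval `[a, b]` is a `(lam, eps)`-quasi-geodesic. -/
def IsQuasiGeodesic (lam eps a b : ℝ) (q : ℝ → X) : Prop :=
  ∀ s ∈ Set.Icc a b, ∀ t ∈ Set.Icc a b,
    lam⁻¹ * |s - t| - eps ≤ dist (q s) (q t) ∧ dist (q s) (q t) ≤ lam * |s - t| + eps

/-- Every `(lam, eps)`-quasi-geodesic with both endpoints on `γ` lies in the closed
`N (lam, eps)`-neighbourhood of `γ`, for all `lam ≥ 1` and `eps ≥ 0`. -/
def IsMorse (N : MorseGauge) (γ : C(ℝ≥0, X)) : Prop :=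
  ∀ (lam : Set.Ici (1 : ℝ)) (eps : ℝ≥0) (a b : ℝ) (q : ℝ → X), a ≤ b →
    IsQuasiGeodesic lam eps a b q → q a ∈ Set.range γ → q b ∈ Set.range γ →
      ∀ t ∈ Set.Icc a b, q t ∈ Metric.cthickening (N lam eps) (Set.range γ)

/-- The geodesic rays from `e` which are `N`-Morse, with the compact-open topology. -/
abbrev MorseRay (e : X) (N : MorseGauge) : Type u :=
  {γ : C(ℝ≥0, X) // Isometry γ ∧ γ 0 = e ∧ IsMorse N γ}

/-- Two rays are equivalent if their Hausdorff distance is finite. -/
def Asymptotic (γ γ' : C(ℝ≥0, X)) : Prop :=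
  Metric.hausdorffEDist (Set.range γ) (Set.range γ') ≠ ⊤

theorem asymptotic_equivalence : Equivalence (Asymptotic (X := X)) where
  refl γ := by
    unfold Asymptotic
    rw [Metric.hausdorffEDist_self]
    exact ENNReal.zero_ne_top
  symm {γ γ'} h := by
    unfold Asymptotic at h ⊢
    rw [Metric.hausdorffEDist_comm]
    exact h
  trans {γ γ' γ''} h h' := by
    unfold Asymptotic at h h' ⊢
    exact ne_top_of_le_ne_top (ENNReal.add_ne_top.mpr ⟨h, h'⟩) Metric.hausdorffEDist_triangle

/-- Finite Hausdorff distance on `N`-Morse rays. -/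
def stratumSetoid (e : X) (N : MorseGauge) : Setoid (MorseRay e N) where
  r γ γ' := Asymptotic γ.1 γ'.1
  iseqv := ⟨fun γ => asymptotic_equivalence.refl γ.1, fun h => asymptotic_equivalence.symm h,
    fun h h' => asymptotic_equivalence.trans h h'⟩

/-- The stratum of the Morse boundary given by the gauge `N`: the quotient space of the space of
`N`-Morse rays from `e`. -/
abbrev Stratum (e : X) (N : MorseGauge) : Type u := Quotient (stratumSetoid e N)

/-- Finite Hausdorff distance on rays which are Morse for some gauge. -/
def morseSetoid (e : X) :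
    Setoid {γ : C(ℝ≥0, X) // Isometry γ ∧ γ 0 = e ∧ ∃ N : MorseGauge, IsMorse N γ} where
  r γ γ' := Asymptotic γ.1 γ'.1
  iseqv := ⟨fun γ => asymptotic_equivalence.refl γ.1, fun h => asymptotic_equivalence.symm h,
    fun h h' => asymptotic_equivalence.trans h h'⟩

/-- The Morse boundary, as a set: the union of all strata. -/
def MorseBoundary (e : X) : Type u := Quotient (morseSetoid e)

/-- The (injective) map from a stratum to the Morse boundary. -/
def Stratum.incl (e : X) (N : MorseGauge) : Stratum e N → MorseBoundary e :=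
  Quotient.lift (fun γ : MorseRay e N =>
    (Quotient.mk (morseSetoid e) ⟨γ.1, γ.2.1, γ.2.2.1, N, γ.2.2.2⟩ : MorseBoundary e))
    (fun _ _ h => Quotient.sound h)

/-- The direct limit topology: a set is open if and only if its preimages in all strata are
open. -/
instance MorseBoundary.instTopologicalSpace (e : X) : TopologicalSpace (MorseBoundary e) :=
  ⨆ N : MorseGauge, TopologicalSpace.coinduced (Stratum.incl e N) inferInstance

/-- Direct limits of countable direct systems of compact spaces. -/
def StronglySigmaCompact (B : Type u) [TopologicalSpace B] : Prop :=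
  ∃ (J : Type) (_ : Preorder J) (_ : Countable J) (_ : IsDirected J (· ≤ ·))
    (F : CategoryTheory.Functor J TopCat.{u}) (c : CategoryTheory.Limits.Cocone F)
    (_ : CategoryTheory.Limits.IsColimit c), (∀ j, CompactSpace (F.obj j)) ∧ Nonempty (B ≃ₜ c.pt)

end boundary

end Pool.Agent.Lib.H76.MorseDefs
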