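import Pool.Agent.Lib.H76.Morse.Free

/-!
# Taming of coarse paths, and uniform closeness of asymptotic rays
-/

namespace Pool.Agent.Lib.H76.Morse

open GeoMet List

variable {X : Type*} [GeoMet X]

theorem dist_le_of_step {P : ℕ → X} {N : ℕ} (h : ∀ s < N, d (P s) (P (s + 1)) ≤ 1) {s t : ℕ}
    (hst : s ≤ t) (ht : t ≤ N) : d (P s) (P t) ≤ t - s := by
  induction t, hst using Nat.le_induction with
  | base => rw [d_self]; omega
  | succ t hst ih =>
    have h1 := ih (by omega)
    have h2 := h t (by omega)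
    have t1 := d_tri (P s) (P t) (P (t + 1))
    omega

/-- Filling in a coarse quasi-geodesic. -/
theorem tame {x : ℕ → X} {n L l c : ℕ} (hL : 0 < L)
    (h1 : ∀ i, i < n → d (x i) (x (i + 1)) ≤ L)
    (h2 : ∀ i j, i ≤ j → j ≤ n → j - i ≤ l * d (x i) (x j) + c) :
    ∃ P : ℕ → X, (∀ i ≤ n, P (L * i) = x i) ∧
      QP (L * l) (L * l * (2 * L) + L * c + L) P (L * n) := by
  choose g hg using fun i => exists_isGeo (x i) (x (i + 1))
  let P : ℕ → X := fun t => g (t / L) (min (t % L) (d (x (t / L)) (x (t / L + 1))))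
  have hP0 : ∀ i, P (L * i) = x i := by
    intro i
    have e1 : L * i / L = i := Nat.mul_div_cancel_left i hL
    have e2 : L * i % L = 0 := Nat.mul_mod_right L i
    show g (L * i / L) (min (L * i % L) _) = x i
    rw [e1, e2, Nat.zero_min]
    exact (hg i).1
  have hP1 : ∀ i r, r < L → P (L * i + r) = g i (min r (d (x i) (x (i + 1)))) := by
    intro i r hr
    have e1 : (L * i + r) / L = i := by
      rw [Nat.mul_add_div hL, Nat.div_eq_of_lt hr, add_zero]
    have e2 : (L * i + r) % L = r := by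
      rw [Nat.mul_add_mod, Nat.mod_eq_of_lt hr]
    show g ((L * i + r) / L) (min ((L * i + r) % L) _) = _
    rw [e1, e2]
  have hP : ∀ i < n, ∀ r ≤ L, P (L * i + r) = g i (min r (d (x i) (x (i + 1)))) := by
    intro i hi r hr
    rcases Nat.eq_or_lt_of_le hr with rfl | hr'
    · have e : r * i + r = r * (i + 1) := by ring
      rw [e, hP0, min_eq_right (h1 i hi), (hg i).2.1]
    · exact hP1 i r hr'
  have hdiv : ∀ s, s = L * (s / L) + s % L := fun s => (Nat.div_add_mod s L).symm
  have hstep : ∀ s < L * n, d (P s) (P (s + 1)) ≤ 1 := by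
    intro s hs
    have hr : s % L < L := Nat.mod_lt s hL
    have hi : s / L < n := Nat.div_lt_of_lt_mul hs
    have e := hdiv s
    generalize s / L = i at e hi
    generalize s % L = r at e hr
    subst e
    rw [add_assoc, hP i hi r hr.le, hP i hi (r + 1) hr]
    have := (hg i).2.2 (min r (d (x i) (x (i + 1)))) (min (r + 1) (d (x i) (x (i + 1))))
      (by omega) (by omega)
    omega
  have hnear : ∀ s ≤ L * n, d (x (s / L)) (P s) ≤ L := by
    intro s hs
    have hr : s % L < L := Nat.mod_lt s hL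
    have hi : s / L ≤ n := Nat.div_le_of_le_mul hs
    have e := hdiv s
    generalize s / L = i at e hi ⊢
    generalize s % L = r at e hr
    subst e
    rcases Nat.eq_or_lt_of_le hi with rfl | hi'
    · have : r = 0 := by omega
      rw [this, add_zero, hP0, d_self]
      omega
    · rw [hP i hi' r hr.le]
      have e := (hg i).2.2 0 (min r (d (x i) (x (i + 1)))) (by omega) (by omega)
      rw [(hg i).1] at e
      omega
  refine ⟨P, fun i _ => hP0 i, ?_⟩
  intro s t hst ht
  refine ⟨dist_le_of_step hstep hst ht, ?_⟩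
  have hij : s / L ≤ t / L := Nat.div_le_div_right hst
  have hj : t / L ≤ n := Nat.div_le_of_le_mul ht
  have e1 := h2 _ _ hij hj
  have n1 := hnear s (hst.trans ht)
  have n2 := hnear t ht
  have t1 := d_tri (x (s / L)) (P s) (x (t / L))
  have t2 := d_tri (P s) (P t) (x (t / L))
  rw [d_comm (P t) (x (t / L))] at t2
  have e2 : d (x (s / L)) (x (t / L)) ≤ d (P s) (P t) + 2 * L := by omega
  have r1 := hdiv s
  have r2 := hdiv t
  have m2 : t % L < L := Nat.mod_lt t hL
  have e3 : l * d (x (s / L)) (x (t / L)) ≤ l * (d (P s) (P t) + 2 * L) :=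
    Nat.mul_le_mul_left _ e2
  have e4 : t / L - s / L ≤ l * (d (P s) (P t) + 2 * L) + c := by omega
  have e5 : L * (t / L - s / L) ≤ L * (l * (d (P s) (P t) + 2 * L) + c) :=
    Nat.mul_le_mul_left _ e4
  have e6 : L * (t / L - s / L) = L * (t / L) - L * (s / L) := Nat.mul_sub L _ _
  have e7 : L * (l * (d (P s) (P t) + 2 * L) + c) =
      L * l * d (P s) (P t) + L * l * (2 * L) + L * c := by ring
  omega

/-- Changing the gauge at one parameter. -/
theorem tight_modify {W : ℕ → ℕ → ℕ} {α : ℕ → X} (hW : Tight W α) {B : ℕ}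
    (hB : ∀ a u b, a ≤ u → u ≤ b → Btw 3 0 B (α a) (α u) (α b)) :
    ∃ W', Tight W' α ∧ W' 3 0 = B := by
  refine ⟨fun l c => if l = 3 ∧ c = 0 then B else W l c, ?_, by simp⟩
  intro l c a u b h1 h2
  by_cases h : l = 3 ∧ c = 0
  · obtain ⟨rfl, rfl⟩ := h
    simpa using hB a u b h1 h2
  · simp only [h, if_false]
    exact hW l c a u b h1 h2

/-- The bound for the distance of asymptotic rays. -/
def asB (B : ℕ) : ℕ := 2 * (B + (3 * (2 * B + 1) + 0))

theorem asym_close {W : ℕ → ℕ → ℕ} {α β : ℕ → X} (hα : IsRay α) (hW : Tight W α)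
    (hβ : IsRay β) (h0 : α 0 = β 0) (h : Asym α β) {B : ℕ}
    (hB : ∀ a u b, a ≤ u → u ≤ b → Btw 3 0 B (α a) (α u) (α b)) (n : ℕ) :
    d (α n) (β n) ≤ asB B := by
  obtain ⟨W', hW', hW3⟩ := tight_modify hW hB
  obtain ⟨C, hC⟩ := h
  obtain ⟨N, hN⟩ : ∃ N, N = n + C := ⟨_, rfl⟩
  obtain ⟨t0, ht0, hmin⟩ := exists_nearest β N (α N)
  obtain ⟨g, hg⟩ := exists_isGeo (α N) (β t0)
  obtain ⟨hq, hql⟩ := np_path_rev (hβ.qp N) ht0 hmin hg
  have hD : d (α N) (β t0) ≤ C := (hmin N le_rfl).trans (hC N)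
  have e1 := hα.dist_zero N
  have e2 := hβ.dist_zero t0
  have t1 := d_tri (α 0) (β t0) (α N)
  rw [d_comm (β t0) (α N)] at t1
  rw [← h0] at e2
  have hn : n ≤ t0 := by omega
  obtain ⟨u, _, hu⟩ := (hα.tseg hW' N).near hq.rev (b := N) le_rfl (by
    simp only [Nat.sub_zero]
    rw [hql, h0]) (by
    simp only [Nat.sub_self]
    rw [cat_left (Nat.zero_le _)]
    exact hg.1) n (by omega)
  have key : g (d (α N) (β t0)) = revp β N (N - t0) := by
    rw [revp_sub β ht0]
    exact hg.2.1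
  have e6 : cat g (d (α N) (β t0)) (revp β N) (N - t0) (d (α N) (β t0) + (t0 - n)) = β n := by
    rw [cat_add key]
    unfold revp
    congr 1
    omega
  have e7 : d (α N) (β t0) + t0 - n = d (α N) (β t0) + (t0 - n) := by omega
  rw [e7, e6] at hu
  have hu' : d (β n) (α u) ≤ B + (3 * (2 * B + 1) + 0) := by
    have e8 : nb W' (2 * 1 + 1) 0 = B + (3 * (2 * B + 1) + 0) := by
      show W' 3 0 + (3 * (2 * W' 3 0 + 1) + 0) = _
      rw [hW3]
    rw [← e8]
    exact hu
  have f1 := hα.dist_zero u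
  have f2 := hβ.dist_zero n
  rw [← h0] at f2
  have f3 := hα.dist_abs n u
  have t2 := d_tri (α 0) (β n) (α u)
  have t3 := d_tri (α 0) (α u) (β n)
  have t4 := d_tri (α n) (α u) (β n)
  rw [d_comm (α u) (β n)] at t3 t4
  unfold asB
  omega

end Pool.Agent.Lib.H76.Morse
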