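import Pool.Agent.Lib.H76.Morse.Tower

/-!
# Limits of geodesics and transfer of betweenness between fellow travelling paths
-/

namespace Pool.Agent.Lib.H76.Morse

open GeoMet List

/-- Discrete intermediate value theorem (upwards). -/
theorem ivt_up {f : ℕ → ℕ} {s : ℕ} (hs : ∀ n, f (n + 1) ≤ f n + s) {m n t : ℕ} (hmn : m ≤ n)
    (h : f m ≤ t) (h' : t ≤ f n) : ∃ k, m ≤ k ∧ k ≤ n ∧ f k ≤ t + s ∧ t ≤ f k + s := by
  induction n, hmn using Nat.le_induction with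
  | base => exact ⟨m, le_rfl, le_rfl, by omega, by omega⟩
  | succ n hn ih =>
    rcases le_total t (f n) with h1 | h1
    · obtain ⟨k, hk1, hk2, hk3, hk4⟩ := ih h1
      exact ⟨k, hk1, by omega, hk3, hk4⟩
    · exact ⟨n + 1, by omega, le_rfl, by have := hs n; omega, by omega⟩

/-- Discrete intermediate value theorem (downwards). -/
theorem ivt_down {f : ℕ → ℕ} {s : ℕ} (hs : ∀ n, f n ≤ f (n + 1) + s) {m n t : ℕ} (hmn : m ≤ n)
    (h : t ≤ f m) (h' : f n ≤ t) : ∃ k, m ≤ k ∧ k ≤ n ∧ f k ≤ t + s ∧ t ≤ f k + s := by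
  induction n, hmn using Nat.le_induction with
  | base => exact ⟨m, le_rfl, le_rfl, by omega, by omega⟩
  | succ n hn ih =>
    rcases le_total (f n) t with h1 | h1
    · obtain ⟨k, hk1, hk2, hk3, hk4⟩ := ih h1
      exact ⟨k, hk1, by omega, hk3, hk4⟩
    · exact ⟨n + 1, by omega, le_rfl, by omega, by have := hs n; omega⟩

variable {X : Type*} [GeoMet X]

/-- A geodesic ray. -/
def IsRay (γ : ℕ → X) : Prop := ∀ i j, i ≤ j → d (γ i) (γ j) = j - i

/-- A ray (or any sequence) all of whose triples satisfy the betweenness estimate with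
gauge `V`. -/
def Tight (V : ℕ → ℕ → ℕ) (γ : ℕ → X) : Prop :=
  ∀ l c a u b, a ≤ u → u ≤ b → Btw l c (V l c) (γ a) (γ u) (γ b)

/-- The data of a ray and a path at bounded distance. -/
structure FT (φ γ : ℕ → X) (H M : ℕ) : Prop where
  ray : IsRay γ
  step : ∀ n, d (φ n) (φ (n + 1)) ≤ M
  near : ∀ n, ∃ s, d (γ s) (φ n) ≤ H
  zero : γ 0 = φ 0
  unb : ∀ N, ∃ n, N ≤ d (φ 0) (φ n)
  geo : ∀ i j k, i ≤ j → j ≤ k → Btw 1 0 H (φ i) (φ j) (φ k)

theorem FT.param {φ γ : ℕ → X} {H M : ℕ} (h : FT φ γ H M) :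
    ∃ σ : ℕ → ℕ, σ 0 = 0 ∧ (∀ n, d (γ (σ n)) (φ n) ≤ H) ∧
      (∀ n, σ (n + 1) ≤ σ n + (2 * H + M)) ∧ (∀ n, σ n ≤ σ (n + 1) + (2 * H + M)) ∧
      (∀ N, ∃ n, N ≤ σ n) := by
  obtain ⟨σ, hσ0, hσ⟩ : ∃ σ : ℕ → ℕ, σ 0 = 0 ∧ ∀ n, d (γ (σ n)) (φ n) ≤ H := by
    choose τ hτ using h.near
    refine ⟨fun n => if n = 0 then 0 else τ n, by simp, ?_⟩
    intro n
    by_cases hn : n = 0
    · simp [hn, h.zero, d_self]
    · simpa [hn] using hτ n
  have key : ∀ n, d (γ (σ n)) (γ (σ (n + 1))) ≤ 2 * H + M := by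
    intro n
    have t1 := d_tri (γ (σ n)) (φ n) (γ (σ (n + 1)))
    have t2 := d_tri (φ n) (φ (n + 1)) (γ (σ (n + 1)))
    have e1 := hσ n
    have e2 := hσ (n + 1)
    rw [d_comm] at e2
    have e3 := h.step n
    omega
  refine ⟨σ, hσ0, hσ, ?_, ?_, ?_⟩
  · intro n
    have k := key n
    rcases le_total (σ n) (σ (n + 1)) with h1 | h1
    · rw [h.ray _ _ h1] at k
      omega
    · omega
  · intro n
    have k := key n
    rcases le_total (σ n) (σ (n + 1)) with h1 | h1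
    · omega
    · rw [d_comm, h.ray _ _ h1] at k
      omega
  · intro N
    obtain ⟨n, hn⟩ := h.unb (N + H)
    refine ⟨n, ?_⟩
    have t := d_tri (φ 0) (γ (σ n)) (φ n)
    have e := hσ n
    have e2 := h.ray 0 (σ n) (Nat.zero_le _)
    rw [h.zero] at e2
    omega

theorem FT.to_phi {φ γ : ℕ → X} {H M : ℕ} (h : FT φ γ H M) {V : ℕ → ℕ → ℕ} (hV : Tight V γ) :
    ∀ l c i j k, i ≤ j → j ≤ k →
      Btw l c (V l (c + 2 * ((l + 1) * H)) + 5 * H + M) (φ i) (φ j) (φ k) := by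
  obtain ⟨σ, h0, h1, h2, h3, h4⟩ := h.param
  intro l c i j k hij hjk
  have hd : ∀ a b, d (φ a) (φ b) ≤ (σ a - σ b) + (σ b - σ a) + 2 * H := by
    intro a b
    have t1 := d_tri (φ a) (γ (σ a)) (φ b)
    have t2 := d_tri (γ (σ a)) (γ (σ b)) (φ b)
    have e1 := h1 a
    have e2 := h1 b
    rw [d_comm] at e1
    rcases le_total (σ a) (σ b) with h' | h'
    · rw [h.ray _ _ h'] at t2
      omega
    · rw [d_comm (γ (σ a)) (γ (σ b)), h.ray _ _ h'] at t2
      omega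
  -- the two possible trivial conclusions
  have left : ∀ k', j ≤ k' → σ k' ≤ σ i + (2 * H + M) → σ i ≤ σ k' + (2 * H + M) →
      Btw l c (V l (c + 2 * ((l + 1) * H)) + 5 * H + M) (φ i) (φ j) (φ k) := by
    intro k' hk' e1 e2
    have b := (h.geo i j k' hij hk').dist_le
    have := hd i k'
    exact Btw.of_left (by omega)
  have right : ∀ i', i' ≤ j → σ i' ≤ σ k + (2 * H + M) → σ k ≤ σ i' + (2 * H + M) →
      Btw l c (V l (c + 2 * ((l + 1) * H)) + 5 * H + M) (φ i) (φ j) (φ k) := by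
    intro i' hi' e1 e2
    have b := (h.geo i' j k hi' hjk).dist_le'
    have := hd i' k
    refine Btw.of_right ?_
    rw [d_comm]
    omega
  rcases le_total (σ i) (σ j) with hij' | hij' <;> rcases le_total (σ j) (σ k) with hjk' | hjk'
  · have b := hV l (c + 2 * ((l + 1) * H)) (σ i) (σ j) (σ k) hij' hjk'
    exact (perturb b (h1 i) (h1 j) (h1 k)).mono le_rfl le_rfl (by omega)
  · rcases le_total (σ i) (σ k) with hik | hik
    · obtain ⟨i', hi1, hi2, hi3, hi4⟩ := ivt_up h2 hij hik hjk'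
      exact right i' hi2 hi3 hi4
    · obtain ⟨k', hk1, hk2, hk3, hk4⟩ := ivt_down h3 hjk hij' hik
      exact left k' hk1 hk3 hk4
  · rcases le_total (σ i) (σ k) with hik | hik
    · obtain ⟨k', hk1, hk2, hk3, hk4⟩ := ivt_up h2 hjk hij' hik
      exact left k' hk1 hk3 hk4
    · obtain ⟨i', hi1, hi2, hi3, hi4⟩ := ivt_down h3 hij hik hjk'
      exact right i' hi2 hi3 hi4
  · have b := (hV l (c + 2 * ((l + 1) * H)) (σ k) (σ j) (σ i) hjk' hij').symm
    exact (perturb b (h1 i) (h1 j) (h1 k)).mono le_rfl le_rfl (by omega)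

theorem FT.to_gamma {φ γ : ℕ → X} {H M : ℕ} (h : FT φ γ H M)
    (hR : ∀ l c, ∃ R, ∀ i j k, i ≤ j → j ≤ k → Btw l c R (φ i) (φ j) (φ k)) :
    ∃ V, Tight V γ := by
  obtain ⟨σ, h0, h1, h2, h3, h4⟩ := h.param
  have main : ∀ l c, ∃ R, ∀ a u b, a ≤ u → u ≤ b → Btw l c R (γ a) (γ u) (γ b) := by
    intro l c
    set S := 2 * H + M with hS
    obtain ⟨R, hR⟩ := hR l (c + 2 * ((l + 1) * (H + S)))
    refine ⟨R + 3 * (H + S), ?_⟩
    intro a u b hau hub
    have hex : ∀ a, ∃ i, σ i ≤ a + S ∧ a ≤ σ i + S := by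
      intro a
      obtain ⟨n, hn⟩ := h4 a
      obtain ⟨k, _, _, hk3, hk4⟩ := ivt_up h2 (Nat.zero_le n) (by rw [h0]; exact Nat.zero_le a) hn
      exact ⟨k, hk3, hk4⟩
    have hclose : ∀ i a, σ i ≤ a + S → a ≤ σ i + S → d (φ i) (γ a) ≤ H + S := by
      intro i a e1 e2
      have t := d_tri (φ i) (γ (σ i)) (γ a)
      have e3 := h1 i
      rw [d_comm] at e3
      rcases le_total (σ i) a with h' | h'
      · rw [h.ray _ _ h'] at t
        omega
      · rw [d_comm (γ (σ i)), h.ray _ _ h'] at t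
        omega
    obtain ⟨i, hi1, hi2⟩ := hex a
    obtain ⟨k, hk1, hk2⟩ := hex b
    by_cases hu1 : u ≤ a + S
    · refine Btw.of_left ?_
      rw [h.ray _ _ hau]; omega
    · by_cases hu2 : b ≤ u + S
      · refine Btw.of_right ?_
        rw [d_comm, h.ray _ _ hub]; omega
      · rcases le_total i k with hik | hik
        · obtain ⟨j, hj1, hj2, hj3, hj4⟩ := ivt_up h2 hik (by omega : σ i ≤ u) (by omega)
          exact perturb (hR i j k hj1 hj2) (hclose i a hi1 hi2) (hclose j u hj3 hj4)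
            (hclose k b hk1 hk2)
        · obtain ⟨j, hj1, hj2, hj3, hj4⟩ := ivt_down h3 hik (by omega : u ≤ σ k) (by omega)
          exact perturb (hR k j i hj1 hj2).symm (hclose i a hi1 hi2) (hclose j u hj3 hj4)
            (hclose k b hk1 hk2)
  choose V hV using main
  exact ⟨V, fun l c a u b h1 h2 => hV l c a u b h1 h2⟩

/-- Limits of geodesics. -/
theorem exists_limit_ray (hfin : ∀ (x : X) n, {y : X | d x y ≤ n}.Finite) (x0 : X) (μ : ℕ → X)
    (hμ : ∀ J, J ≤ d x0 (μ J)) :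
    ∃ (γ : ℕ → X) (g : ℕ → ℕ → X), (∀ J, IsGeo (g J) x0 (μ J)) ∧ γ 0 = x0 ∧ IsRay γ ∧
      ∀ N, ∃ J ≥ N, ∀ i ≤ N, γ i = g J i := by
  choose g hg using fun J => exists_isGeo x0 (μ J)
  have hev : ∀ i : ℕ, ∃ y, ∀ᶠ J in (Filter.hyperfilter ℕ : Filter ℕ), g J i = y := by
    intro i
    have h1 : ∀ᶠ J in (Filter.hyperfilter ℕ : Filter ℕ), ∃ y ∈ {y : X | d x0 y ≤ i}, g J i = y := by
      refine Nat.hyperfilter_le_atTop ?_
      filter_upwards [Filter.eventually_ge_atTop i] with J hJ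
      refine ⟨g J i, ?_, rfl⟩
      have := (hg J).dist_left (hJ.trans (hμ J) : i ≤ d x0 (μ J))
      simp [this]
    obtain ⟨y, _, hy⟩ := (Ultrafilter.eventually_exists_mem_iff (hfin x0 i)).mp h1
    exact ⟨y, hy⟩
  choose γ hγ using hev
  have hall : ∀ N, ∀ᶠ J in (Filter.hyperfilter ℕ : Filter ℕ), N ≤ J ∧ ∀ i ≤ N, γ i = g J i := by
    intro N
    have h2 : ∀ᶠ J in (Filter.hyperfilter ℕ : Filter ℕ), N ≤ J :=
      Nat.hyperfilter_le_atTop (Filter.eventually_ge_atTop N)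
    have h3 : ∀ᶠ J in (Filter.hyperfilter ℕ : Filter ℕ), ∀ i ∈ Finset.range (N + 1), g J i = γ i :=
      (Filter.eventually_all_finset _).mpr (fun i _ => hγ i)
    filter_upwards [h2, h3] with J hJ hJ2
    exact ⟨hJ, fun i hi => (hJ2 i (by simp; omega)).symm⟩
  have hex : ∀ N, ∃ J ≥ N, ∀ i ≤ N, γ i = g J i := by
    intro N
    obtain ⟨J, hJ1, hJ2⟩ := (hall N).exists
    exact ⟨J, hJ1, hJ2⟩
  refine ⟨γ, g, hg, ?_, ?_, hex⟩
  · obtain ⟨J, _, hJ⟩ := hex 0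
    rw [hJ 0 le_rfl]
    exact (hg J).1
  · intro i j hij
    obtain ⟨J, hJ1, hJ⟩ := hex j
    rw [hJ i hij, hJ j le_rfl]
    exact (hg J).2.2 i j hij (hJ1.trans (hμ J))

end Pool.Agent.Lib.H76.Morse
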