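import Pool.Agent.Lib.H76.Morse.Bridge

/-!
# `σ`-compact Morse boundaries
-/

namespace Pool.Agent.Lib.H76.Morse

open GeoMet GroupGeo MorseDefs
open scoped NNReal ENNReal Topology

section topology

variable {X : Type*} [MetricSpace X] {e : X}

/-- The class of a ray. -/
def cls (γ : {γ : C(ℝ≥0, X) // Isometry γ ∧ γ 0 = e ∧ ∃ N : MorseGauge, IsMorse N γ}) :
    MorseBoundary e := Quotient.mk (morseSetoid e) γ

/-- The class of a ray in a stratum. -/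
def clsN (N : MorseGauge) (γ : MorseRay e N) : MorseBoundary e :=
  cls ⟨γ.1, γ.2.1, γ.2.2.1, N, γ.2.2.2⟩

theorem cls_surj (x : MorseBoundary e) : ∃ γ, cls γ = x := Quotient.exists_rep x

theorem cls_eq {γ γ' : {γ : C(ℝ≥0, X) // Isometry γ ∧ γ 0 = e ∧ ∃ N : MorseGauge, IsMorse N γ}} :
    cls γ = cls γ' ↔ Asymptotic γ.1 γ'.1 :=
  ⟨fun h => Quotient.exact h, fun h => Quotient.sound h⟩

theorem isOpen_boundary_iff {U : Set (MorseBoundary e)} :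
    IsOpen U ↔ ∀ N : MorseGauge, IsOpen {γ : MorseRay e N | clsN N γ ∈ U} := by
  have h1 : IsOpen U ↔ ∀ N : MorseGauge,
      IsOpen[TopologicalSpace.coinduced (Stratum.incl e N) inferInstance] U := isOpen_iSup_iff
  rw [h1]
  refine forall_congr' fun N => ?_
  rw [isOpen_coinduced]
  exact isQuotientMap_quotient_mk'.isOpen_preimage.symm

theorem isClosed_boundary_iff {F : Set (MorseBoundary e)} :
    IsClosed F ↔ ∀ N : MorseGauge, IsClosed {γ : MorseRay e N | clsN N γ ∈ F} := by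
  rw [← isOpen_compl_iff, isOpen_boundary_iff]
  refine forall_congr' fun N => ?_
  rw [← isOpen_compl_iff]
  rfl

theorem asymptotic_of_dist_le {γ γ' : C(ℝ≥0, X)} {R : ℝ} (h : ∀ t, dist (γ t) (γ' t) ≤ R) :
    Asymptotic γ γ' := by
  unfold Asymptotic
  refine ne_top_of_le_ne_top (b := ENNReal.ofReal R) ENNReal.ofReal_ne_top ?_
  apply Metric.hausdorffEDist_le_of_mem_edist
  · rintro _ ⟨t, rfl⟩
    refine ⟨γ' t, ⟨t, rfl⟩, ?_⟩
    rw [edist_dist]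
    exact ENNReal.ofReal_le_ofReal (h t)
  · rintro _ ⟨t, rfl⟩
    refine ⟨γ t, ⟨t, rfl⟩, ?_⟩
    rw [edist_comm, edist_dist]
    exact ENNReal.ofReal_le_ofReal (h t)

end topology

section main

variable {V : Type*} [GeoMet V] {X : Type*} [MetricSpace X] {v : V → X} {g0 : V}

/-- The gauge of a Morse ray. -/
theorem tight_of_morse (hM : Model V X v) {γ : C(ℝ≥0, X)} (hγ : Isometry γ) {γ' : ℕ → V}
    (hd : ∀ n : ℕ, γ n = v (γ' n)) (hγ' : IsRay γ') (hN : ∃ N : MorseGauge, IsMorse N γ) :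
    ∃ W, Tight W γ' := by
  obtain ⟨N, hN⟩ := hN
  refine ⟨fun l c => 5 * (⌈(N ⟨(l : ℝ) + 1, by
    show (1 : ℝ) ≤ (l : ℝ) + 1
    have : (0 : ℝ) ≤ l := Nat.cast_nonneg l
    linarith⟩ ((c : ℝ≥0) + 1) : ℝ)⌉₊ + 3), ?_⟩
  intro l c a u b h1 h2
  have h3 := hN ⟨(l : ℝ) + 1, by
    show (1 : ℝ) ≤ (l : ℝ) + 1
    have : (0 : ℝ) ≤ l := Nat.cast_nonneg l
    linarith⟩ ((c : ℝ≥0) + 1)
  refine bridge1 hM hγ hd hγ' (l := l) (c := c) ?_ a u b h1 h2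
  refine MorseAt.mono (A := (N ⟨(l : ℝ) + 1, _⟩ ((c : ℝ≥0) + 1) : ℝ)) ?_ (Nat.le_ceil _)
  push_cast at h3
  exact h3

/-- Uniform closeness of asymptotic rays. -/
theorem disc_close (hM : Model V X v) {γ₁ γ₂ : C(ℝ≥0, X)} (h₁ : Isometry γ₁)
    (h₂ : Isometry γ₂) (h01 : γ₁ 0 = v g0) (h02 : γ₂ 0 = v g0)
    (hN : ∃ N : MorseGauge, IsMorse N γ₁) (has : Asymptotic γ₁ γ₂) {A : ℕ}
    (hA : MorseAt γ₁ 4 1 A) {γ₁' γ₂' : ℕ → V} (hd₁ : ∀ n : ℕ, γ₁ n = v (γ₁' n))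
    (hd₂ : ∀ n : ℕ, γ₂ n = v (γ₂' n)) (hr₁ : IsRay γ₁') (hr₂ : IsRay γ₂') (n : ℕ) :
    d (γ₁' n) (γ₂' n) ≤ asB (5 * (A + 3)) := by
  obtain ⟨W, hW⟩ := tight_of_morse hM h₁ hd₁ hr₁ hN
  have h00 : γ₁' 0 = γ₂' 0 := by
    apply hM.inj
    rw [← hd₁, ← hd₂]
    simp [h01, h02]
  refine asym_close hr₁ hW hr₂ h00 ((asymptotic_iff hM h₁ h₂ (h01.trans h02.symm) hd₁ hd₂).mp has)
    ?_ n
  refine bridge1 hM h₁ hd₁ hr₁ (l := 3) (c := 0) ?_
  norm_num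
  exact hA

theorem real_close (hM : Model V X v) {γ₁ γ₂ : C(ℝ≥0, X)} (h₁ : Isometry γ₁)
    (h₂ : Isometry γ₂) (h01 : γ₁ 0 = v g0) (h02 : γ₂ 0 = v g0)
    (hN : ∃ N : MorseGauge, IsMorse N γ₁) (has : Asymptotic γ₁ γ₂) {A : ℕ}
    (hA : MorseAt γ₁ 4 1 A) (t : ℝ≥0) :
    dist (γ₁ t) (γ₂ t) ≤ asB (5 * (A + 3)) + 2 := by
  obtain ⟨γ₁', hd₁, _, hr₁⟩ := exists_disc hM h₁ h01
  obtain ⟨γ₂', hd₂, _, hr₂⟩ := exists_disc hM h₂ h02
  have hc := disc_close hM h₁ h₂ h01 h02 hN has hA hd₁ hd₂ hr₁ hr₂ ⌊(t : ℝ)⌋₊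
  have f1 := Nat.floor_le t.2
  have f2 := Nat.lt_floor_add_one (t : ℝ)
  have hle : ((⌊(t : ℝ)⌋₊ : ℕ) : ℝ≥0) ≤ t := by
    rw [← NNReal.coe_le_coe]
    push_cast
    exact f1
  have e1 := iso_dist h₁ hle
  have e2 := iso_dist h₂ hle
  push_cast at e1 e2
  have t1 := dist_triangle (γ₁ t) (γ₁ ⌊(t : ℝ)⌋₊) (γ₂ t)
  have t2 := dist_triangle (γ₁ ⌊(t : ℝ)⌋₊) (γ₂ ⌊(t : ℝ)⌋₊) (γ₂ t)
  rw [dist_comm (γ₁ t) (γ₁ ⌊(t : ℝ)⌋₊)] at t1
  have e3 : dist (γ₁ ⌊(t : ℝ)⌋₊) (γ₂ ⌊(t : ℝ)⌋₊) ≤ asB (5 * (A + 3)) := by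
    rw [hd₁, hd₂, hM.dist_eq]
    exact_mod_cast hc
  linarith

/-- The classes are closed in each stratum. -/
theorem fiber_closed (hM : Model V X v) (N : MorseGauge) (x : MorseBoundary (v g0)) :
    IsClosed {γ : MorseRay (v g0) N | clsN N γ = x} := by
  by_cases hne : ∃ γ₀ : MorseRay (v g0) N, clsN N γ₀ = x
  · obtain ⟨γ₀, hγ₀⟩ := hne
    obtain ⟨A, hA⟩ : ∃ A : ℕ, (N ⟨4, by
      show (1 : ℝ) ≤ 4
      norm_num⟩ 1 : ℝ) ≤ A := ⟨_, Nat.le_ceil _⟩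
    have hA' : MorseAt γ₀.1 4 1 A := by
      have := γ₀.2.2.2 ⟨4, by
        show (1 : ℝ) ≤ 4
        norm_num⟩ 1
      exact MorseAt.mono this hA
    have e : {γ : MorseRay (v g0) N | clsN N γ = x} =
        ⋂ t : ℝ≥0, {γ : MorseRay (v g0) N | dist (γ₀.1 t) (γ.1 t) ≤ asB (5 * (A + 3)) + 2} := by
      ext γ
      simp only [Set.mem_ofPred_eq, Set.mem_iInter]
      constructor
      · intro h t
        have has : Asymptotic γ₀.1 γ.1 := by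
          have : clsN N γ₀ = clsN N γ := hγ₀.trans h.symm
          exact cls_eq.mp this
        exact real_close hM γ₀.2.1 γ.2.1 γ₀.2.2.1 γ.2.2.1 ⟨N, γ₀.2.2.2⟩ has hA' t
      · intro h
        rw [← hγ₀]
        exact (cls_eq.mpr (asymptotic_of_dist_le h)).symm
    rw [e]
    refine isClosed_iInter fun t => ?_
    refine isClosed_le ?_ continuous_const
    exact continuous_const.dist ((continuous_eval_const t).comp continuous_subtype_val)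
  · have e : {γ : MorseRay (v g0) N | clsN N γ = x} = ∅ := by
      ext γ
      simp only [Set.mem_ofPred_eq, Set.mem_empty_iff_false, iff_false]
      exact fun h => hne ⟨γ, h⟩
    rw [e]
    exact isClosed_empty

/-- Compact subsets of the Morse boundary are bounded, for each pair of constants. -/
theorem compact_bound (hM : Model V X v) {C : Set (MorseBoundary (v g0))} (hC : IsCompact C)
    (lam : Set.Ici (1 : ℝ)) (eps : ℝ≥0) : ∃ n : ℕ, ∀ x ∈ C, ∃ γ, cls γ = x ∧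
      MorseAt γ.1 lam eps n := by
  by_contra hcon
  push Not at hcon
  choose x hxC hx using hcon
  have hclosed : ∀ n, IsClosed {y | ∃ m, n ≤ m ∧ y = x m} := by
    intro n
    rw [isClosed_boundary_iff]
    intro N
    obtain ⟨A, hA⟩ : ∃ A : ℕ, (N lam eps : ℝ) ≤ A := ⟨_, Nat.le_ceil _⟩
    have e : {γ : MorseRay (v g0) N | clsN N γ ∈ {y | ∃ m, n ≤ m ∧ y = x m}} =
        ⋃ m ∈ Finset.filter (fun m => n ≤ m) (Finset.range A),
          {γ : MorseRay (v g0) N | clsN N γ = x m} := by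
      ext γ
      simp only [Set.mem_ofPred_eq, Finset.mem_filter, Finset.mem_range, Set.mem_iUnion,
        exists_prop]
      constructor
      · rintro ⟨m, hm, h⟩
        refine ⟨m, ⟨?_, hm⟩, h⟩
        by_contra hmA
        refine hx m _ h ?_
        exact MorseAt.mono (γ.2.2.2 lam eps) (hA.trans (by exact_mod_cast not_lt.mp hmA))
      · rintro ⟨m, ⟨_, hm⟩, h⟩
        exact ⟨m, hm, h⟩
    rw [e]
    exact (Finset.finite_toSet _).isClosed_biUnion (fun m _ => fiber_closed hM N (x m))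
  have hcomp : IsCompact {y | ∃ m, 0 ≤ m ∧ y = x m} :=
    hC.of_isClosed_subset (hclosed 0) (by
      rintro y ⟨m, _, rfl⟩
      exact hxC m)
  obtain ⟨y, hy⟩ := IsCompact.nonempty_iInter_of_sequence_nonempty_isCompact_isClosed
    (fun n => {y | ∃ m, n ≤ m ∧ y = x m}) (by
      rintro n y ⟨m, hm, h⟩
      exact ⟨m, by omega, h⟩) (fun n => ⟨x n, n, le_rfl, rfl⟩) hcomp hclosed
  rw [Set.mem_iInter] at hy
  obtain ⟨γ, hγ⟩ := cls_surj y
  obtain ⟨N, hN⟩ := γ.2.2.2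
  obtain ⟨A, hA⟩ : ∃ A : ℕ, (N lam eps : ℝ) ≤ A := ⟨_, Nat.le_ceil _⟩
  obtain ⟨m, hm, h⟩ := hy A
  refine hx m γ (hγ.trans h) ?_
  exact MorseAt.mono (hN lam eps) (hA.trans (by exact_mod_cast hm))

end main

section group

variable {G : Type*} [Group G] [GroupGeo G] {X : Type*} [MetricSpace X] {v : G → X}

theorem manyRays_of_infinite (hM : Model G X v) (hinf : Infinite (MorseBoundary (v 1))) :
    ManyRays G := by
  intro K
  obtain ⟨f⟩ : Nonempty (Fin K ↪ MorseBoundary (v 1)) :=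
    ⟨(Fin.valEmbedding).trans (Infinite.natEmbedding _)⟩
  choose γ hγ using fun i => cls_surj (f i)
  choose γ' hd h0 hr using fun i => exists_disc hM (γ i).2.1 (γ i).2.2.1
  refine ⟨γ', h0, hr, fun i => tight_of_morse hM (γ i).2.1 (hd i) (hr i) (γ i).2.2.2, ?_⟩
  intro i j hij has
  apply hij
  apply f.injective
  rw [← hγ i, ← hγ j]
  exact cls_eq.mpr ((asymptotic_iff hM (γ i).2.1 (γ j).2.1
    ((γ i).2.2.1.trans (γ j).2.2.1.symm) (hd i) (hd j)).mpr has)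

/-- **The theorem for metric models.** -/
theorem main_model (hM : Model G X v) (hinf : Infinite (MorseBoundary (v 1)))
    (hσ : SigmaCompactSpace (MorseBoundary (v 1))) :
    ∃ f : FreeGroup Bool →* G, Function.Injective f := by
  obtain ⟨K, hK1, hK2⟩ := hσ.exists_compact_covering
  choose n hn using fun i => compact_bound hM (hK1 i)
  have hpos : ∀ l : ℕ, (1 : ℝ) ≤ (l : ℝ) + 1 := fun l => by
    have : (0 : ℝ) ≤ l := Nat.cast_nonneg l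
    linarith
  -- the constants
  let B : ℕ → ℕ := fun i => 2 * asB (5 * (n i ⟨4, by
    show (1 : ℝ) ≤ 4
    norm_num⟩ 1 + 3))
  refine exists_free (manyRays_of_infinite hM hinf)
    (fun i l c => 5 * (n i ⟨(l : ℝ) + 1, hpos l⟩
      (((c + 2 * ((l + 1) * B i) : ℕ) : ℝ≥0) + 1) + 3) + 3 * B i) ?_
  intro γ' hγ0 hγr hγW
  obtain ⟨W, hW⟩ := hγW
  obtain ⟨γ, hγ, hd⟩ := exists_extend hM hγr
  have hγ00 : γ 0 = v 1 := by
    have := hd 0
    rw [hγ0] at this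
    simpa using this
  have hmor := bridge2' hM hγ hd hγr hW
  have hx : cls ⟨γ, hγ, hγ00, hmor⟩ ∈ ⋃ i, K i := by
    rw [hK2]
    trivial
  obtain ⟨i, hi⟩ := Set.mem_iUnion.mp hx
  refine ⟨i, ?_⟩
  obtain ⟨γ₀, hγ₀, hγ₀A⟩ := hn i ⟨4, by
    show (1 : ℝ) ≤ 4
    norm_num⟩ 1 _ hi
  obtain ⟨γ₀', hd₀, _, hr₀⟩ := exists_disc hM γ₀.2.1 γ₀.2.2.1
  have hc0 := disc_close hM γ₀.2.1 hγ γ₀.2.2.1 hγ00 γ₀.2.2.2 (cls_eq.mp hγ₀) hγ₀A hd₀ hd hr₀ hγr
  intro l c a u b hau hub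
  obtain ⟨γ₁, hγ₁, hγ₁A⟩ := hn i ⟨(l : ℝ) + 1, hpos l⟩
    (((c + 2 * ((l + 1) * B i) : ℕ) : ℝ≥0) + 1) _ hi
  obtain ⟨γ₁', hd₁, _, hr₁⟩ := exists_disc hM γ₁.2.1 γ₁.2.2.1
  have hc1 := disc_close hM γ₀.2.1 γ₁.2.1 γ₀.2.2.1 γ₁.2.2.1 γ₀.2.2.2
    (cls_eq.mp (hγ₀.trans hγ₁.symm)) hγ₀A hd₀ hd₁ hr₀ hr₁
  have hc : ∀ m, d (γ₁' m) (γ' m) ≤ B i := by
    intro m
    have t := d_tri (γ₁' m) (γ₀' m) (γ' m)
    have c0 := hc0 m
    have c1 := hc1 m
    rw [d_comm] at c1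
    show _ ≤ 2 * asB _
    omega
  have e1 : (((((c + 2 * ((l + 1) * B i) : ℕ) : ℝ≥0) + 1 : ℝ≥0)) : ℝ) =
      ((c + 2 * ((l + 1) * B i) : ℕ) : ℝ) + 1 := by
    rw [NNReal.coe_add, NNReal.coe_natCast, NNReal.coe_one]
  rw [e1] at hγ₁A
  have hb := bridge1 hM γ₁.2.1 hd₁ hr₁ (l := l) (c := c + 2 * ((l + 1) * B i)) hγ₁A a u b hau hub
  exact perturb hb (hc a) (hc u) (hc b)

end group

/-- **The theorem for the Cayley graph.** -/
theorem main_cayley {G : Type*} [Group G] (S : Finset G)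
    (hS : Subgroup.closure (S : Set G) = ⊤)
    (hinf : Infinite (MorseBoundary (Realization.vertex 1 : CayleyGraph S hS)))
    (hσ : SigmaCompactSpace (MorseBoundary (Realization.vertex 1 : CayleyGraph S hS))) :
    ∃ f : FreeGroup Bool →* G, Function.Injective f :=
  @main_model G _ (wordGeo S hS) (CayleyGraph S hS) _ Realization.vertex (cayley_model S hS)
    hinf hσ

end Pool.Agent.Lib.H76.Morse
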