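import Pool.Agent.Lib.H76.Morse.Line

/-!
# Groups without free subgroups have bad words; the main theorem in metric form
-/

namespace Pool.Agent.Lib.H76.Morse

open GeoMet List GroupGeo

/-- No free subgroup of rank two. -/
def NoFree (G : Type*) [Group G] : Prop := ∀ f : FreeGroup Bool →* G, ¬ Function.Injective f

variable {G : Type*} [Group G] [GroupGeo G]

namespace Setup

variable (s : Setup G)

theorem exists_bad (hG : NoFree G) (U : ℕ → ℕ → ℕ) (L : ℕ) : ∃ w : List s.Letter,
    w.IsChain Letter.Adj ∧ (∀ x ∈ w, L ≤ x.len) ∧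
    ¬ (∀ l c, CloseL (syls Letter.val Letter.pts w).flatten l c (U l c)) := by
  classical
  obtain ⟨c1, _, hc1⟩ := s.exists_good 0
  obtain ⟨c2, hle, hc2⟩ := s.exists_good (c1 + (L + U 1 0 + s.M' + 1))
  have hlt : c1 < c2 := by omega
  let lt : Bool × Bool → s.Letter := fun p => ⟨p.1, p.2, c1, c2, hlt, hc1, hc2⟩
  have hlen : ∀ p, (lt p).len = c2 - c1 := fun p => rfl
  set z := (s.ξ c1)⁻¹ * s.ξ c2 with hz
  have hpath : ∀ p, (lt p).path (lt p).len = cond p.2 z z⁻¹ := by
    rintro ⟨κ, ε⟩
    rw [hlen]
    unfold Letter.path
    cases ε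
    · simp only [lt, Bool.false_eq_true, if_false, cond_false]
      have e : c2 - (c2 - c1) = c1 := by omega
      rw [e, hz]
      group
    · simp only [lt, if_true, cond_true]
      have e : c1 + (c2 - c1) = c2 := by omega
      rw [e]
  have hval : ∀ p, (lt p).val = cond p.2 (s.K p.1 * z * (s.K p.1)⁻¹)
      (s.K p.1 * z * (s.K p.1)⁻¹)⁻¹ := by
    rintro ⟨κ, ε⟩
    unfold Letter.val
    rw [hpath]
    cases ε
    · simp only [lt, cond_false]
      group
    · simp only [lt, cond_true]
  set φ : FreeGroup Bool →* G := FreeGroup.lift (fun κ => s.K κ * z * (s.K κ)⁻¹) with hφ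
  have hni := hG φ
  rw [injective_iff_map_eq_one] at hni
  push Not at hni
  obtain ⟨w, hw1, hw2⟩ := hni
  have hW : w.toWord ≠ [] := by
    intro h
    exact hw2 (FreeGroup.toWord_eq_nil_iff.mp h)
  have hred : FreeGroup.IsReduced w.toWord := FreeGroup.isReduced_toWord
  have hprod : ((w.toWord.map lt).map Letter.val).prod = 1 := by
    rw [← FreeGroup.mk_toWord (x := w), hφ, FreeGroup.lift_mk] at hw1
    rw [map_map, ← hw1]
    congr 1
    apply map_congr_left
    intro p _
    exact hval p
  refine ⟨w.toWord.map lt, ?_, ?_, ?_⟩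
  · rw [isChain_map]
    exact hred
  · intro x hx
    obtain ⟨p, _, rfl⟩ := mem_map.mp hx
    rw [hlen]
    omega
  · intro hclose
    have h10 := hclose 1 0
    generalize w.toWord = W at hW hprod h10
    match W, hW with
    | p :: W', _ =>
      rcases eq_nil_or_concat W' with rfl | ⟨W'', p', rfl⟩
      · simp only [map_cons, map_nil, prod_cons, prod_nil, mul_one] at hprod
        unfold Letter.val at hprod
        rw [mul_inv_eq_one, mul_eq_left] at hprod
        have e1 := (lt p).path_tseg.geo 0 (lt p).len (Nat.zero_le _) le_rfl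
        rw [hprod, (lt p).path_zero, d_self] at e1
        have := (lt p).len_pos
        omega
      · have e0 : (p :: W''.concat p').map lt = (p :: W'').map lt ++ [lt p'] := by
          simp
        rw [e0] at hprod h10
        rw [syls_append, flatten_append] at h10
        have e1 : (syls Letter.val Letter.pts [lt p']).map
            (List.map ((((p :: W'').map lt).map Letter.val).prod * ·)) =
            [(lt p').pts.map ((((p :: W'').map lt).map Letter.val).prod * ·)] := by
          simp [syls]
        rw [e1, flatten_singleton] at h10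
        have e2 : ([lt p'].map Letter.val).prod = (lt p').val := by simp
        rw [map_append, prod_append, e2] at hprod
        have hlast : (((p :: W'').map lt).map Letter.val).prod *
            (s.K (lt p').κ * (lt p').path (lt p').len) = s.K (lt p').κ := by
          unfold Letter.val at hprod ⊢
          rw [← mul_assoc, ← mul_assoc] at hprod
          rw [mul_inv_eq_one] at hprod
          rw [← mul_assoc]
          exact hprod
        have hmem : s.K (lt p').κ ∈ (lt p').pts.map
            ((((p :: W'').map lt).map Letter.val).prod * ·) := by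
          refine mem_map.mpr ⟨s.K (lt p').κ * (lt p').path (lt p').len, ?_, hlast⟩
          obtain ⟨S, hS⟩ := (lt p').pts_last
          rw [hS]
          simp
        have hsub : [s.K (lt p).κ, s.K (lt p).κ * (lt p).path (lt p).len] <+
            (syls Letter.val Letter.pts ((p :: W'').map lt)).flatten := by
          rw [map_cons, syls, flatten_cons]
          refine Sublist.trans ?_ (sublist_append_left _ _)
          have := (sub2_range (lt p).len_pos (Nat.lt_succ_self (lt p).len)).map
            (fun i => s.K (lt p).κ * (lt p).path i)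
          simp only [map_cons, map_nil, (lt p).path_zero, mul_one] at this
          exact this
        have hb := (h10 _ _ _ (sub3_append.mpr (Or.inr (Or.inl ⟨hsub, hmem⟩)))).dist_le
        rw [(lt p).dist_first_last, hlen] at hb
        have e3 : d (s.K (lt p).κ) (s.K (lt p').κ) ≤ s.M' := by
          have := d_left (s.K (lt p).κ) 1 ((s.K (lt p).κ)⁻¹ * s.K (lt p').κ)
          rw [mul_one, mul_inv_cancel_left] at this
          rw [this]
          exact dK _ _
        omega

/-- The system of letters. -/
noncomputable def sys (hG : NoFree G) : LetterSys G where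
  Λ := s.Letter
  val := Letter.val
  pts := Letter.pts
  len := Letter.len
  Adj := Letter.Adj
  T0 := s.T0
  M := s.M' + 1
  mono := cornerT_mono s.hV _ _
  long := by
    intro x
    refine ⟨s.K x.κ, s.K x.κ * x.path x.len, x.pts_first, x.pts_last,
      x.dist_first_last.symm.le, ?_⟩
    intro y hy
    obtain ⟨i, hi, rfl⟩ := mem_map.mp hy
    have hi' : i ≤ x.len := by simp at hi; omega
    have hs := x.path_tseg.smul (s.K x.κ)
    have e1 := hs.geo 0 i (Nat.zero_le _) hi'
    have e2 := hs.geo i x.len hi' le_rfl
    have e3 := hs.geo 0 x.len (Nat.zero_le _) le_rfl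
    simp only [x.path_zero, mul_one] at e1 e2 e3
    omega
  single := by
    intro x l c
    exact ((x.path_tseg.smul (s.K x.κ)).closeL l c).mono le_rfl le_rfl (le_cornerT s.hV _ _ _ _)
  pair := fun x y h => Letter.pair h
  spacer := by
    intro x y m
    obtain ⟨c1, _, hc1⟩ := s.exists_good 0
    obtain ⟨c2, hle, hc2⟩ := s.exists_good (c1 + (m + 1))
    by_cases h : y.κ = x.κ
    · refine ⟨⟨!x.κ, true, c1, c2, by omega, hc1, hc2⟩, ?_, ?_, ?_⟩
      · show m ≤ c2 - c1
        omega
      · intro h'
        exfalso
        revert h'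
        show x.κ ≠ !x.κ
        simp
      · intro h'
        exfalso
        revert h'
        show (!x.κ) ≠ y.κ
        rw [h]
        simp
    · refine ⟨⟨x.κ, x.ε, c1, c2, by omega, hc1, hc2⟩, ?_, ?_, ?_⟩
      · show m ≤ c2 - c1
        omega
      · intro _
        rfl
      · intro h'
        exact absurd h'.symm h
  dense := by
    intro x f g hf hg R hR0 hR
    rw [x.first_eq hf, x.last_eq hg] at hR ⊢
    rw [x.dist_first_last] at hR
    refine ⟨s.K x.κ * x.path (x.len - R), ?_, ?_⟩
    · have := (sub3_range (i := 0) (j := x.len - R) (k := x.len) (by omega) (by omega)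
        (Nat.lt_succ_self x.len)).map (fun i => s.K x.κ * x.path i)
      simp only [map_cons, map_nil, x.path_zero, mul_one] at this
      exact this
    · rw [d_left, x.path_tseg.geo (x.len - R) x.len (by omega) le_rfl]
      omega
  first := by
    intro x f hf
    rw [x.first_eq hf]
    have := dK1 (s := s) x.κ
    omega
  step := by
    intro x
    unfold Letter.pts
    rw [isChain_map, isChain_range]
    intro m hm
    rw [d_left, x.path_tseg.geo m (m + 1) (by omega) (by omega)]
    omega
  stepPair := by
    intro x y hxy g f hg hf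
    rw [x.last_eq hg, y.first_eq hf]
    have e : x.val * s.K y.κ = (s.K x.κ * x.path x.len) * ((s.K x.κ)⁻¹ * s.K y.κ) := by
      unfold Letter.val
      group
    have e2 := d_left (s.K x.κ * x.path x.len) 1 ((s.K x.κ)⁻¹ * s.K y.κ)
    rw [mul_one] at e2
    rw [e, e2]
    have := dK (s := s) x.κ y.κ
    omega
  bad := s.exists_bad hG

end Setup

/-- **The main theorem in metric form.** -/
theorem exists_free (hmany : ManyRays G) (V : ℕ → ℕ → ℕ → ℕ)
    (hV : ∀ γ : ℕ → G, γ 0 = 1 → IsRay γ → (∃ W, Tight W γ) → ∃ i, Tight (V i) γ) :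
    ∃ f : FreeGroup Bool →* G, Function.Injective f := by
  by_contra hcon
  have hG : NoFree G := fun f hf => hcon ⟨f, hf⟩
  obtain ⟨β, h1, h2, h3, _⟩ := hmany 1
  obtain ⟨W, hW⟩ := h3 0
  obtain ⟨e, he⟩ := exists_line (h2 0)
  have hW' : Tight (dom W) (β 0) := hW.mono (le_dom W)
  -- preliminary data to get the properties of the line
  let s0 : Bool → ℕ → G := e
  have hts : ∀ b m, TSeg (dom W) (e b) m := by
    intro b m
    obtain ⟨n, _, hn, h⟩ := he m 0
    cases b with
    | true =>
      exact ((TSeg.shift (h2 0) hW' n m).smul (β 0 n)⁻¹).congr (fun i hi => (h i hi).1.symm)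
    | false =>
      exact ((TSeg.shiftDown (h2 0) hW' hn).smul (β 0 n)⁻¹).congr
        (fun i hi => (h i hi).2.symm)
  have he0 : ∀ b, e b 0 = 1 := by
    intro b
    obtain ⟨n, _, _, h⟩ := he 0 0
    cases b with
    | true => rw [← (h 0 le_rfl).1]; simp
    | false => rw [← (h 0 le_rfl).2]; simp
  obtain ⟨k, hk⟩ := exists_mover hmany he0 (fun b i j hij => (hts b j).geo i j hij le_rfl)
    (fun b l c a u b' h1 h2 => (hts b b').tight l c a u b' h1 h2 le_rfl)
  let s : Setup G :=
    { ξ := β 0
      V := dom W
      hV := dom_mono W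
      ray := h2 0
      tight := hW'
      e := e
      he := he
      k := k
      mover := hk }
  obtain ⟨γ, hγ0, hγ, hγW, hγV⟩ := LetterSys.core (s.sys hG) V
  obtain ⟨i, hi⟩ := hV γ hγ0 hγ hγW
  exact hγV i hi

end Pool.Agent.Lib.H76.Morse
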