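import Pool.Agent.Lib.H76.Morse.Fellow

/-!
# Groups with a left invariant discrete geodesic metric, and systems of letters
-/

namespace Pool.Agent.Lib.H76.Morse

open GeoMet List

/-- A group with a left invariant proper discrete geodesic metric. -/
class GroupGeo (G : Type*) [Group G] extends GeoMet G where
  left_inv : ∀ g x y : G, d (g * x) (g * y) = d x y
  fin_ball : ∀ n, {g : G | d 1 g ≤ n}.Finite

open GroupGeo

variable {G : Type*} [Group G] [GroupGeo G]

theorem d_left (g x y : G) : d (g * x) (g * y) = d x y := left_inv g x y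

theorem fin_ball' (x : G) (n : ℕ) : {y : G | d x y ≤ n}.Finite := by
  refine ((fin_ball n : {g : G | d 1 g ≤ n}.Finite).image (fun g => x * g)).subset ?_
  intro y hy
  refine ⟨x⁻¹ * y, ?_, by simp⟩
  show d 1 (x⁻¹ * y) ≤ n
  have := d_left x⁻¹ x y
  rw [inv_mul_cancel] at this
  rw [this]
  exact hy

theorem QP.smul {l c n : ℕ} {q : ℕ → G} (h : QP l c q n) (g : G) :
    QP l c (fun i => g * q i) n := by
  intro i j hij hj
  simp only [d_left]
  exact h i j hij hj

theorem Btw.smul {l c A : ℕ} {x y z : G} (h : Btw l c A x y z) (g : G) :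
    Btw l c A (g * x) (g * y) (g * z) := by
  intro q n hq h0 hn
  obtain ⟨i, hi, hd⟩ := h (fun i => g⁻¹ * q i) n (hq.smul g⁻¹) (by simp [h0]) (by simp [hn])
  refine ⟨i, hi, ?_⟩
  have := d_left g (g⁻¹ * q i) y
  rw [mul_inv_cancel_left] at this
  rw [this]
  exact hd

theorem Btw.smul_iff {l c A : ℕ} {x y z : G} (g : G) :
    Btw l c A (g * x) (g * y) (g * z) ↔ Btw l c A x y z := by
  refine ⟨fun h => ?_, fun h => h.smul g⟩
  have := h.smul g⁻¹
  simpa using this

theorem CloseL.smul {P : List G} {l c A : ℕ} (h : CloseL P l c A) (g : G) :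
    CloseL (P.map (g * ·)) l c A := by
  intro x y z hs
  rw [sublist_map_iff] at hs
  obtain ⟨l', h1, h2⟩ := hs
  match l', h2 with
  | [a, b, e], h2 =>
    simp only [map_cons, map_nil, cons.injEq, and_true] at h2
    obtain ⟨rfl, rfl, rfl⟩ := h2
    exact (h a b e h1).smul g
  | [], h2 => simp at h2
  | [a], h2 => simp at h2
  | [a, b], h2 => simp at h2
  | a :: b :: e :: f :: t, h2 => simp at h2

theorem CloseL.smul_iff {P : List G} {l c A : ℕ} (g : G) :
    CloseL (P.map (g * ·)) l c A ↔ CloseL P l c A := by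
  refine ⟨fun h => ?_, fun h => h.smul g⟩
  have := h.smul g⁻¹
  simpa using this

theorem LongSyl.smul {P : List G} {L : ℕ} (h : LongSyl L P) (g : G) :
    LongSyl L (P.map (g * ·)) := by
  obtain ⟨a, b, ⟨S1, h1⟩, ⟨S2, h2⟩, h3, h4⟩ := h
  refine ⟨g * a, g * b, ⟨S1.map (g * ·), by rw [h1]; rfl⟩, ⟨S2.map (g * ·), by rw [h2]; simp⟩,
    by rw [d_left]; exact h3, ?_⟩
  intro y hy
  obtain ⟨y', hy', rfl⟩ := mem_map.mp hy
  simp only [d_left]
  exact h4 y' hy'

theorem R2.smul {T0 : ℕ → ℕ → ℕ} {P Q : List G} (h : R2 T0 P Q) (g : G) :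
    R2 T0 (P.map (g * ·)) (Q.map (g * ·)) := by
  intro l c
  have := (h l c).smul g
  rw [map_append] at this
  exact this

theorem SChain.smul {T0 : ℕ → ℕ → ℕ} {L : ℕ} {Ls : List (List G)} (h : SChain T0 L Ls) (g : G) :
    SChain T0 L (Ls.map (List.map (g * ·))) := by
  refine ⟨?_, ?_⟩
  · intro S hS
    obtain ⟨S', hS', rfl⟩ := mem_map.mp hS
    exact ⟨(h.1 S' hS').1.smul g, fun l c => ((h.1 S' hS').2 l c).smul g⟩
  · rw [isChain_map]
    exact h.2.imp (fun a b hab => hab.smul g)

section syls

variable {Λ : Type*} (val : Λ → G) (pts : Λ → List G)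

/-- The list of syllables (lists of points) of a word. -/
def syls : List Λ → List (List G)
  | [] => []
  | x :: w => pts x :: (syls w).map (List.map (val x * ·))

omit [GroupGeo G] in
theorem syls_append (w w' : List Λ) : syls val pts (w ++ w') =
    syls val pts w ++ (syls val pts w').map (List.map ((w.map val).prod * ·)) := by
  induction w with
  | nil =>
    simp only [nil_append, syls, map_nil, prod_nil, one_mul]
    have : (fun x : G => x) = id := rfl
    rw [this, map_id_fun]
    simp
  | cons x w ih =>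
    simp only [cons_append, syls, ih, map_append, map_map, map_cons, prod_cons, cons.injEq,
      true_and, append_cancel_left_eq]
    congr 1
    funext l
    simp [mul_assoc]

omit [GroupGeo G] in
theorem syls_length (w : List Λ) : (syls val pts w).length = w.length := by
  induction w with
  | nil => rfl
  | cons x w ih => simp [syls, ih]

end syls

/-- A system of letters. -/
structure LetterSys (G : Type*) [Group G] [GroupGeo G] where
  Λ : Type
  val : Λ → G
  pts : Λ → List G
  len : Λ → ℕ
  Adj : Λ → Λ → Prop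
  T0 : ℕ → ℕ → ℕ
  M : ℕ
  mono : Mono T0
  long : ∀ x, LongSyl (len x) (pts x)
  single : ∀ x l c, CloseL (pts x) l c (T0 l c)
  pair : ∀ x y, Adj x y → R2 T0 (pts x) ((pts y).map (val x * ·))
  spacer : ∀ x y m, ∃ s, m ≤ len s ∧ Adj x s ∧ Adj s y
  dense : ∀ x f g, (∃ S, pts x = f :: S) → (∃ S, pts x = S ++ [g]) → ∀ R, 0 < R → R < d f g →
    ∃ v, [f, v, g] <+ pts x ∧ d v g = R
  first : ∀ x f, (∃ S, pts x = f :: S) → d 1 f ≤ M
  step : ∀ x, (pts x).IsChain (fun a b => d a b ≤ M)
  stepPair : ∀ x y, Adj x y → ∀ g f, (∃ S, pts x = S ++ [g]) → (∃ S, pts y = f :: S) →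
    d g (val x * f) ≤ M
  bad : ∀ (U : ℕ → ℕ → ℕ) (L : ℕ), ∃ w : List Λ, w.IsChain Adj ∧ (∀ x ∈ w, L ≤ len x) ∧
    ¬ (∀ l c, CloseL (syls val pts w).flatten l c (U l c))

namespace LetterSys

variable (s : LetterSys G)

theorem schain {w : List s.Λ} {L : ℕ} (hw : w.IsChain s.Adj) (hL : ∀ x ∈ w, L ≤ s.len x) :
    SChain s.T0 L (syls s.val s.pts w) := by
  induction w with
  | nil => exact ⟨by simp [syls], by simp [syls]⟩
  | cons x w ih =>
    have h1 := ih hw.tail (fun y hy => hL y (mem_cons_of_mem _ hy))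
    have h2 := h1.smul (s.val x)
    refine ⟨?_, ?_⟩
    · intro S hS
      rcases mem_cons.mp hS with rfl | hS
      · exact ⟨(s.long x).mono (hL x (by simp)), s.single x⟩
      · exact h2.1 S hS
    · cases w with
      | nil => simp [syls]
      | cons y w =>
        have h3 := h2.2
        simp only [syls, map_cons] at h3 ⊢
        rw [isChain_cons_cons]
        refine ⟨s.pair x y ?_, h3⟩
        rw [isChain_cons_cons] at hw
        exact hw.1

/-- The steps of the path of a chain are bounded. -/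
theorem steps {w : List s.Λ} (hw : w.IsChain s.Adj) :
    (syls s.val s.pts w).flatten.IsChain (fun a b => d a b ≤ s.M) := by
  induction w with
  | nil => simp [syls]
  | cons x w ih =>
    have h1 := ih hw.tail
    have h2 : ((syls s.val s.pts w).map (List.map (s.val x * ·))).flatten.IsChain
        (fun a b => d a b ≤ s.M) := by
      have e : ((syls s.val s.pts w).map (List.map (s.val x * ·))).flatten =
          (syls s.val s.pts w).flatten.map (s.val x * ·) := by
        rw [map_flatten]
      rw [e, isChain_map]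
      exact h1.imp (fun a b hab => by rw [d_left]; exact hab)
    simp only [syls, flatten_cons]
    rw [isChain_append]
    refine ⟨s.step x, h2, ?_⟩
    intro a ha b hb
    cases w with
    | nil => simp [syls] at hb
    | cons y w =>
      obtain ⟨f, g, ⟨S1, hf⟩, _, _, _⟩ := s.long y
      simp only [syls, map_cons, flatten_cons, hf] at hb
      simp only [cons_append, head?_cons, Option.mem_def, Option.some.injEq] at hb
      rw [← hb]
      rw [isChain_cons_cons] at hw
      refine s.stepPair x y hw.1 a f ?_ ⟨S1, hf⟩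
      have : (s.pts x).getLast? = some a := ha
      rw [getLast?_eq_some_iff] at this
      exact this

/-- A minimal bad word. -/
theorem exists_minimal_bad (U : ℕ → ℕ → ℕ) (L : ℕ) : ∃ w : List s.Λ, ∃ x : s.Λ,
    (w ++ [x]).IsChain s.Adj ∧ (∀ y ∈ w ++ [x], L ≤ s.len y) ∧
    (¬ (∀ l c, CloseL (syls s.val s.pts (w ++ [x])).flatten l c (U l c))) ∧
    (∀ l c, CloseL (syls s.val s.pts w).flatten l c (U l c)) := by
  classical
  have hex : ∃ n, ∃ w : List s.Λ, w.length = n ∧ w.IsChain s.Adj ∧ (∀ x ∈ w, L ≤ s.len x) ∧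
    ¬ (∀ l c, CloseL (syls s.val s.pts w).flatten l c (U l c)) := by
    obtain ⟨w, h1, h2, h3⟩ := s.bad U L
    exact ⟨_, w, rfl, h1, h2, h3⟩
  obtain ⟨w, hwn, h1, h2, h3⟩ := Nat.find_spec hex
  rcases eq_nil_or_concat w with rfl | ⟨w', x, hw'⟩
  · exfalso
    apply h3
    intro l c x y z h
    simp [syls] at h
  · rw [concat_eq_append] at hw'
    subst hw'
    refine ⟨w', x, h1, h2, h3, ?_⟩
    by_contra hcon
    have := Nat.find_min hex (m := w'.length) (by
      rw [← hwn]; simp)
    exact this ⟨w', rfl, (isChain_append.mp h1).1, fun y hy => h2 y (mem_append_left _ hy), hcon⟩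

/-- Flanking a minimal bad word by long spacers gives a block which satisfies the local
estimate for all small parameters. -/
theorem flank {U : ℕ → ℕ → ℕ} (hU : Mono U) (hTU : ∀ l c, s.T0 l c ≤ U l c) {L K : ℕ}
    (hL : 4 * (U (64 * K + 63) K + 4 * s.T0 (128 * K + 127) K + 1) ≤ L)
    {w : List s.Λ} {x a b : s.Λ} (hch : (a :: (w ++ [x]) ++ [b]).IsChain s.Adj)
    (hlen : ∀ y ∈ a :: (w ++ [x]) ++ [b], L ≤ s.len y)
    (hgood : ∀ l c, CloseL (syls s.val s.pts w).flatten l c (U l c)) {l c : ℕ} (hl : l ≤ K)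
    (hc : c ≤ K) :
    CloseL (syls s.val s.pts (a :: (w ++ [x]) ++ [b])).flatten l c (s.T0 (4 * l + 3) c) := by
  have hT := s.mono
  have hS := s.schain hch hlen
  have hUU : ∀ l' ≤ 64 * K + 63, ∀ c' ≤ K, U l' c' ≤ U (64 * K + 63) K :=
    fun l' hl' c' hc' => hU _ _ _ _ hl' hc'
  have hTT : ∀ l' ≤ 128 * K + 127, ∀ c' ≤ K, s.T0 l' c' ≤ s.T0 (128 * K + 127) K :=
    fun l' hl' c' hc' => hT _ _ _ _ hl' hc'
  -- step 1 : w ++ [x] at parameter 16 l + 15
  have hS1 : SChain s.T0 L (syls s.val s.pts (w ++ [x])) := by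
    refine s.schain ?_ ?_
    · have := (isChain_append.mp hch).1
      exact this.tail
    · intro y hy
      exact hlen y (by simp only [cons_append, mem_cons, mem_append] at hy ⊢; tauto)
  rw [syls_append] at hS1
  have e1 : (syls s.val s.pts [x]).map (List.map ((w.map s.val).prod * ·)) =
      [(s.pts x).map ((w.map s.val).prod * ·)] := by simp [syls]
  rw [e1] at hS1
  have st1 := step_right hT (l := 16 * l + 15) (c := c) hS1 (hgood _ _) (by
    have h1 := hUU (4 * (16 * l + 15) + 3) (by omega) c hc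
    have h2 := hTT (8 * (16 * l + 15) + 7) (by omega) c hc
    omega)
  rw [← e1, ← syls_append] at st1
  have e64 : 4 * (16 * l + 15) + 3 = 64 * l + 63 := by ring
  rw [e64] at st1
  -- step 2 : a :: (w ++ [x])
  have hS2 : SChain s.T0 L (syls s.val s.pts (a :: (w ++ [x]))) := by
    refine s.schain (isChain_append.mp hch).1 ?_
    intro y hy
    exact hlen y (mem_append_left _ hy)
  have hA2 : CloseL ((syls s.val s.pts (w ++ [x])).map (List.map (s.val a * ·))).flatten
      (4 * (4 * l + 3) + 3) c (s.T0 (64 * l + 63) c) := by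
    rw [← map_flatten, CloseL.smul_iff]
    exact st1.mono (by omega) le_rfl le_rfl
  have st2 := step_left hT (l := 4 * l + 3) (c := c) (S := s.pts a)
    (Ls := (syls s.val s.pts (w ++ [x])).map (List.map (s.val a * ·))) hS2 hA2 (by
      have h1 := hTT (64 * l + 63) (by omega) c hc
      have h2 := hTT (8 * (4 * l + 3) + 7) (by omega) c hc
      have h3 := hUU (64 * l + 63) (by omega) c hc
      have h4 := hTU (64 * l + 63) c
      omega)
  -- step 3
  rw [syls_append] at hS ⊢
  have e3 : (syls s.val s.pts [b]).map (List.map (((a :: (w ++ [x])).map s.val).prod * ·)) =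
      [(s.pts b).map (((a :: (w ++ [x])).map s.val).prod * ·)] := by simp [syls]
  rw [e3] at hS ⊢
  have st3 := step_right hT (l := l) (c := c) hS (A := s.T0 (16 * l + 15) c) (by
    have e16 : 4 * (4 * l + 3) + 3 = 16 * l + 15 := by ring
    rw [e16] at st2
    exact st2) (by
      have h1 := hTT (16 * l + 15) (by omega) c hc
      have h2 := hTT (8 * l + 7) (by omega) c hc
      have h3 := hTU (16 * l + 15) c
      have h4 := hUU (16 * l + 15) (by omega) c hc
      omega)
  exact st3

end LetterSys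

end Pool.Agent.Lib.H76.Morse
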