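import Pool.Agent.Lib.H76.Morse.Asym
import Pool.Agent.Lib.H76.Morse.Core

/-!
# The letters obtained from a tight ray
-/

namespace Pool.Agent.Lib.H76.Morse

open GeoMet List GroupGeo

variable {G : Type*} [Group G] [GroupGeo G]

theorem exists_line {ξ : ℕ → G} (hξ : IsRay ξ) :
    ∃ e : Bool → ℕ → G, ∀ R N, ∃ n ≥ N, R ≤ n ∧
      ∀ t ≤ R, (ξ n)⁻¹ * ξ (n + t) = e true t ∧ (ξ n)⁻¹ * ξ (n - t) = e false t := by
  have hball : ∀ n t, t ≤ n → d 1 ((ξ n)⁻¹ * ξ (n + t)) ≤ t ∧ d 1 ((ξ n)⁻¹ * ξ (n - t)) ≤ t := by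
    intro n t ht
    have e1 := d_left (ξ n) 1 ((ξ n)⁻¹ * ξ (n + t))
    have e2 := d_left (ξ n) 1 ((ξ n)⁻¹ * ξ (n - t))
    rw [mul_inv_cancel_left, mul_one] at e1 e2
    rw [← e1, ← e2, hξ.dist_abs, hξ.dist_abs]
    omega
  have hev1 : ∀ t : ℕ, ∃ y, ∀ᶠ n in (Filter.hyperfilter ℕ : Filter ℕ),
      (ξ n)⁻¹ * ξ (n + t) = y := by
    intro t
    have h1 : ∀ᶠ n in (Filter.hyperfilter ℕ : Filter ℕ), ∃ y ∈ {y : G | d 1 y ≤ t},
        (ξ n)⁻¹ * ξ (n + t) = y := by
      refine Nat.hyperfilter_le_atTop ?_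
      filter_upwards [Filter.eventually_ge_atTop t] with n hn
      exact ⟨_, (hball n t hn).1, rfl⟩
    obtain ⟨y, _, hy⟩ := (Ultrafilter.eventually_exists_mem_iff (fin_ball t)).mp h1
    exact ⟨y, hy⟩
  have hev2 : ∀ t : ℕ, ∃ y, ∀ᶠ n in (Filter.hyperfilter ℕ : Filter ℕ),
      (ξ n)⁻¹ * ξ (n - t) = y := by
    intro t
    have h1 : ∀ᶠ n in (Filter.hyperfilter ℕ : Filter ℕ), ∃ y ∈ {y : G | d 1 y ≤ t},
        (ξ n)⁻¹ * ξ (n - t) = y := by
      refine Nat.hyperfilter_le_atTop ?_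
      filter_upwards [Filter.eventually_ge_atTop t] with n hn
      exact ⟨_, (hball n t hn).2, rfl⟩
    obtain ⟨y, _, hy⟩ := (Ultrafilter.eventually_exists_mem_iff (fin_ball t)).mp h1
    exact ⟨y, hy⟩
  choose ep hep using hev1
  choose em hem using hev2
  refine ⟨fun b => if b then ep else em, fun R N => ?_⟩
  have h2 : ∀ᶠ n in (Filter.hyperfilter ℕ : Filter ℕ), N ≤ n ∧ R ≤ n :=
    Nat.hyperfilter_le_atTop ((Filter.eventually_ge_atTop N).and (Filter.eventually_ge_atTop R))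
  have h3 : ∀ᶠ n in (Filter.hyperfilter ℕ : Filter ℕ), ∀ t ∈ Finset.range (R + 1),
      (ξ n)⁻¹ * ξ (n + t) = ep t := (Filter.eventually_all_finset _).mpr (fun t _ => hep t)
  have h4 : ∀ᶠ n in (Filter.hyperfilter ℕ : Filter ℕ), ∀ t ∈ Finset.range (R + 1),
      (ξ n)⁻¹ * ξ (n - t) = em t := (Filter.eventually_all_finset _).mpr (fun t _ => hem t)
  obtain ⟨n, ⟨hn1, hn2⟩, hn3, hn4⟩ := (h2.and (h3.and h4)).exists
  refine ⟨n, hn1, hn2, fun t ht => ⟨?_, ?_⟩⟩
  · simpa using hn3 t (by simp; omega)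
  · simpa using hn4 t (by simp; omega)

/-- The data from which the letters are constructed. -/
structure Setup (G : Type*) [Group G] [GroupGeo G] where
  ξ : ℕ → G
  V : ℕ → ℕ → ℕ
  hV : Mono V
  ray : IsRay ξ
  tight : Tight V ξ
  e : Bool → ℕ → G
  he : ∀ R N, ∃ n ≥ N, R ≤ n ∧
      ∀ t ≤ R, (ξ n)⁻¹ * ξ (n + t) = e true t ∧ (ξ n)⁻¹ * ξ (n - t) = e false t
  k : G
  mover : ∀ a b, ¬ Asym (fun n => k * e a n) (e b)

theorem TSeg.smul {V : ℕ → ℕ → ℕ} {α : ℕ → G} {m : ℕ} (h : TSeg V α m) (g : G) :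
    TSeg V (fun i => g * α i) m :=
  ⟨fun i j hij hj => by rw [d_left]; exact h.geo i j hij hj,
    fun l c a u b h1 h2 h3 => (h.tight l c a u b h1 h2 h3).smul g⟩

theorem TSeg.congr {X : Type*} [GeoMet X] {V : ℕ → ℕ → ℕ} {α β : ℕ → X} {m : ℕ}
    (h : TSeg V α m) (he : ∀ i ≤ m, β i = α i) : TSeg V β m :=
  ⟨fun i j hij hj => by rw [he i (hij.trans hj), he j hj]; exact h.geo i j hij hj,
    fun l c a u b h1 h2 h3 => by
      rw [he a (h1.trans (h2.trans h3)), he u (h2.trans h3), he b h3]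
      exact h.tight l c a u b h1 h2 h3⟩

theorem TSeg.rev {X : Type*} [GeoMet X] {V : ℕ → ℕ → ℕ} {α : ℕ → X} {m : ℕ}
    (h : TSeg V α m) : TSeg V (fun i => α (m - i)) m :=
  ⟨fun i j hij hj => by
      rw [d_comm, h.geo (m - j) (m - i) (by omega) (by omega)]; omega,
    fun l c a u b h1 h2 h3 =>
      (h.tight l c (m - b) (m - u) (m - a) (by omega) (by omega) (by omega)).symm⟩

theorem TSeg.shift {X : Type*} [GeoMet X] {V : ℕ → ℕ → ℕ} {α : ℕ → X} (h : IsRay α)
    (hV : Tight V α) (c m : ℕ) : TSeg V (fun i => α (c + i)) m :=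
  ⟨fun i j hij hj => by rw [h (c + i) (c + j) (by omega)]; omega,
    fun l c' a u b h1 h2 h3 => hV l c' (c + a) (c + u) (c + b) (by omega) (by omega)⟩

theorem TSeg.shiftDown {X : Type*} [GeoMet X] {V : ℕ → ℕ → ℕ} {α : ℕ → X} (h : IsRay α)
    (hV : Tight V α) {c m : ℕ} (hm : m ≤ c) : TSeg V (fun i => α (c - i)) m :=
  ⟨fun i j hij hj => by rw [d_comm, h (c - j) (c - i) (by omega)]; omega,
    fun l c' a u b h1 h2 h3 => (hV l c' (c - b) (c - u) (c - a) (by omega) (by omega)).symm⟩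

namespace Setup

variable (s : Setup G)

theorem e_tseg (b : Bool) (m : ℕ) : TSeg s.V (s.e b) m := by
  obtain ⟨n, _, hn, h⟩ := s.he m 0
  cases b with
  | true =>
    exact ((TSeg.shift s.ray s.tight n m).smul (s.ξ n)⁻¹).congr (fun i hi => (h i hi).1.symm)
  | false =>
    exact ((TSeg.shiftDown s.ray s.tight hn).smul (s.ξ n)⁻¹).congr (fun i hi => (h i hi).2.symm)

theorem e_ray (b : Bool) : IsRay (s.e b) := fun i j hij => (s.e_tseg b j).geo i j hij le_rfl

theorem e_tight (b : Bool) : Tight s.V (s.e b) := fun l c a u b' h1 h2 =>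
  (s.e_tseg b b').tight l c a u b' h1 h2 le_rfl

theorem e_zero (b : Bool) : s.e b 0 = 1 := by
  obtain ⟨n, _, _, h⟩ := s.he 0 0
  cases b with
  | true => rw [← (h 0 le_rfl).1]; simp
  | false => rw [← (h 0 le_rfl).2]; simp

/-- The separation constant. -/
def M' : ℕ := d 1 s.k

def D1 : ℕ := s.V 3 0 + nb s.V 3 (4 * s.M')

theorem not_asym_sep {α β : ℕ → G} (hα : IsRay α) (hβ : IsRay β) (h : ¬ Asym α β) (D : ℕ) :
    ∃ r, ∀ t, D < d (α r) (β t) := by
  by_contra hcon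
  push Not at hcon
  apply h
  refine ⟨2 * D + d (α 0) (β 0), fun r => ?_⟩
  obtain ⟨t, ht⟩ := hcon r
  have e1 := hβ.dist_abs t r
  have t1 := d_tri (α r) (β t) (β r)
  have t2 := d_tri (α 0) (α r) (β t)
  have t3 := d_tri (β 0) (α 0) (β t)
  have t4 := d_tri (α 0) (β 0) (β t)
  have t5 := d_tri (α 0) (β t) (α r)
  rw [hα.dist_zero] at t2 t5
  rw [hβ.dist_zero] at t3 t4
  rw [d_comm (β 0) (α 0)] at t3
  rw [d_comm (β t) (α r)] at t5
  omega

/-- Conjugator. -/
def K (κ : Bool) : G := if κ then s.k else 1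

theorem sep_aux (κ κ' a b : Bool) (h : κ = κ' → a ≠ b) :
    ∃ r, ∀ t, s.D1 < d (s.e a r) ((s.K κ)⁻¹ * s.K κ' * s.e b t) := by
  have hray : IsRay (fun n => (s.K κ)⁻¹ * s.K κ' * s.e b n) := (s.e_ray b).smul _
  by_cases hκ : κ = κ'
  · subst hκ
    have hab := h rfl
    refine ⟨s.D1 + 1, fun t => ?_⟩
    rw [inv_mul_cancel, one_mul]
    obtain ⟨n, _, hn, hn2⟩ := s.he (s.D1 + 1 + t) 0
    cases a <;> cases b
    · exact absurd rfl hab
    · rw [← (hn2 t (by omega)).1, ← (hn2 (s.D1 + 1) (by omega)).2, d_left, s.ray.dist_abs]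
      omega
    · rw [← (hn2 t (by omega)).2, ← (hn2 (s.D1 + 1) (by omega)).1, d_left, s.ray.dist_abs]
      omega
    · exact absurd rfl hab
  · refine not_asym_sep (s.e_ray a) hray ?_ s.D1
    intro hA
    cases κ <;> cases κ'
    · exact hκ rfl
    · simp only [K, Bool.false_eq_true, if_false, if_true, inv_one, one_mul] at hA
      exact s.mover b a hA.symm
    · simp only [K, Bool.false_eq_true, if_false, if_true, mul_one] at hA
      have := hA.smul s.k
      simp only [mul_inv_cancel_left] at this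
      exact s.mover a b this
    · exact hκ rfl

/-- A bound for all separation radii. -/
theorem exists_r1 : ∃ r1, ∀ κ κ' a b : Bool, (κ = κ' → a ≠ b) →
    ∃ r ≤ r1, ∀ t, s.D1 < d (s.e a r) ((s.K κ)⁻¹ * s.K κ' * s.e b t) := by
  have h : ∀ p : Bool × Bool × Bool × Bool, ∃ r, (p.1 = p.2.1 → p.2.2.1 ≠ p.2.2.2) →
      ∀ t, s.D1 < d (s.e p.2.2.1 r) ((s.K p.1)⁻¹ * s.K p.2.1 * s.e p.2.2.2 t) := by
    rintro ⟨κ, κ', a, b⟩
    by_cases hc : κ = κ' → a ≠ b
    · obtain ⟨r, hr⟩ := s.sep_aux κ κ' a b hc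
      exact ⟨r, fun _ => hr⟩
    · exact ⟨0, fun h => absurd h hc⟩
  choose r hr using h
  refine ⟨Finset.univ.sup r, fun κ κ' a b hc => ⟨r (κ, κ', a, b), ?_, hr (κ, κ', a, b) hc⟩⟩
  exact Finset.le_sup (Finset.mem_univ _)

noncomputable def r1 : ℕ := s.exists_r1.choose

theorem r1_spec : ∀ κ κ' a b : Bool, (κ = κ' → a ≠ b) →
    ∃ r ≤ s.r1, ∀ t, s.D1 < d (s.e a r) ((s.K κ)⁻¹ * s.K κ' * s.e b t) := s.exists_r1.choose_spec

/-- The radius of agreement. -/
noncomputable def rs : ℕ := s.r1 + s.M' + s.D1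

/-- The good positions. -/
def Good (n : ℕ) : Prop := s.rs ≤ n ∧
  ∀ t ≤ s.rs, (s.ξ n)⁻¹ * s.ξ (n + t) = s.e true t ∧ (s.ξ n)⁻¹ * s.ξ (n - t) = s.e false t

theorem exists_good (N : ℕ) : ∃ n ≥ N, s.Good n := by
  obtain ⟨n, h1, h2, h3⟩ := s.he s.rs N
  exact ⟨n, h1, h2, h3⟩

/-- The letters. -/
structure Letter where
  κ : Bool
  ε : Bool
  c1 : ℕ
  c2 : ℕ
  lt : c1 < c2
  good1 : s.Good c1
  good2 : s.Good c2

variable {s}

namespace Letter

variable (x : s.Letter)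

def len : ℕ := x.c2 - x.c1

theorem len_pos : 0 < x.len := by have := x.lt; unfold len; omega

def path (i : ℕ) : G :=
  if x.ε then (s.ξ x.c1)⁻¹ * s.ξ (x.c1 + i) else (s.ξ x.c2)⁻¹ * s.ξ (x.c2 - i)

def rpath (i : ℕ) : G :=
  if x.ε then (s.ξ x.c2)⁻¹ * s.ξ (x.c2 - i) else (s.ξ x.c1)⁻¹ * s.ξ (x.c1 + i)

theorem path_zero : x.path 0 = 1 := by unfold path; split_ifs <;> simp

theorem rpath_eq {i : ℕ} (hi : i ≤ x.len) : x.path x.len * x.rpath (x.len - i) = x.path i := by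
  have := x.lt
  unfold len at hi
  unfold path rpath len
  have e1 : x.c1 + (x.c2 - x.c1) = x.c2 := by omega
  have e2 : x.c2 - (x.c2 - x.c1) = x.c1 := by omega
  have e3 : x.c2 - (x.c2 - x.c1 - i) = x.c1 + i := by omega
  have e4 : x.c1 + (x.c2 - x.c1 - i) = x.c2 - i := by omega
  split_ifs
  · rw [e1, e3]; group
  · rw [e2, e4]; group

theorem rpath_zero : x.rpath 0 = 1 := by unfold rpath; split_ifs <;> simp

theorem path_tseg : TSeg s.V x.path x.len := by
  unfold path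
  split_ifs with h
  · exact (TSeg.shift s.ray s.tight x.c1 x.len).smul _
  · exact (TSeg.shiftDown s.ray s.tight (by unfold len; omega)).smul _

theorem rpath_tseg : TSeg s.V x.rpath x.len := by
  unfold rpath
  split_ifs with h
  · exact (TSeg.shiftDown s.ray s.tight (by unfold len; omega)).smul _
  · exact (TSeg.shift s.ray s.tight x.c1 x.len).smul _

theorem path_agree {t : ℕ} (ht : t ≤ s.rs) : x.path t = s.e x.ε t := by
  unfold path
  cases h : x.ε
  · simp only [Bool.false_eq_true, if_false]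
    exact (x.good2.2 t ht).2
  · simp only [if_true]
    exact (x.good1.2 t ht).1

theorem rpath_agree {t : ℕ} (ht : t ≤ s.rs) : x.rpath t = s.e (!x.ε) t := by
  unfold rpath
  cases h : x.ε
  · simp only [Bool.false_eq_true, if_false]
    exact (x.good1.2 t ht).1
  · simp only [if_true]
    exact (x.good2.2 t ht).2

noncomputable def val : G := s.K x.κ * x.path x.len * (s.K x.κ)⁻¹

noncomputable def pts : List G := (range (x.len + 1)).map (fun i => s.K x.κ * x.path i)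

theorem pts_first : ∃ S, x.pts = s.K x.κ :: S := by
  refine ⟨((range x.len).map Nat.succ).map (fun i => s.K x.κ * x.path i), ?_⟩
  unfold pts
  rw [range_succ_eq_map, map_cons, path_zero, mul_one]

theorem pts_last : ∃ S, x.pts = S ++ [s.K x.κ * x.path x.len] := by
  refine ⟨(range x.len).map (fun i => s.K x.κ * x.path i), ?_⟩
  unfold pts
  rw [range_succ, map_append, map_cons, map_nil]

theorem first_eq {f : G} (h : ∃ S, x.pts = f :: S) : f = s.K x.κ := by
  obtain ⟨S, hS⟩ := h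
  obtain ⟨S', hS'⟩ := x.pts_first
  rw [hS'] at hS
  exact (cons.inj hS).1.symm

theorem last_eq {g : G} (h : ∃ S, x.pts = S ++ [g]) : g = s.K x.κ * x.path x.len := by
  obtain ⟨S, hS⟩ := h
  obtain ⟨S', hS'⟩ := x.pts_last
  rw [hS'] at hS
  have := (append_inj' hS rfl).2
  simpa using this.symm

theorem dist_first_last : d (s.K x.κ) (s.K x.κ * x.path x.len) = x.len := by
  have e := d_left (s.K x.κ) 1 (x.path x.len)
  rw [mul_one] at e
  rw [e, ← x.path_zero, x.path_tseg.geo 0 x.len (Nat.zero_le _) le_rfl]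
  omega

end Letter

theorem dK (κ κ' : Bool) : d (1 : G) ((s.K κ)⁻¹ * s.K κ') ≤ s.M' := by
  cases κ <;> cases κ' <;> simp [K, M', d_self]
  have := d_left s.k 1 s.k⁻¹
  rw [mul_inv_cancel, mul_one] at this
  rw [← this, d_comm]

theorem dK1 (κ : Bool) : d (1 : G) (s.K κ) ≤ s.M' := by
  cases κ <;> simp [K, M', d_self]

/-- The gauge of the letters. -/
noncomputable def T0 (s : Setup G) : ℕ → ℕ → ℕ :=
  cornerT s.V s.M' (2 * (s.r1 + s.V 3 0) + s.M')

theorem Letter.pair {x y : s.Letter} (h : x.κ = y.κ → x.ε = y.ε) :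
    R2 s.T0 x.pts (y.pts.map (x.val * ·)) := by
  intro l c
  have hsepr := s.r1_spec x.κ y.κ (!x.ε) y.ε (by
    intro hκ
    rw [h hκ]
    cases y.ε <;> simp)
  obtain ⟨r, hr, hsep⟩ := hsepr
  have h0 : d (x.rpath 0) ((fun t => (s.K x.κ)⁻¹ * s.K y.κ * y.path t) 0) ≤ s.M' := by
    simp only [x.rpath_zero, y.path_zero, mul_one]
    exact dK _ _
  have hE : 2 * (r + s.V 3 0) + s.M' ≤ 2 * (s.r1 + s.V 3 0) + s.M' := by omega
  have hα := x.rpath_tseg
  have hβ := y.path_tseg.smul ((s.K x.κ)⁻¹ * s.K y.κ)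
  have hcor := corner s.hV hα hβ h0 (r1 := r) (by
    intro hrm t ht
    show s.D1 < _
    by_cases htr : t ≤ s.rs
    · rw [x.rpath_agree (by unfold Setup.rs; omega)]
      rw [y.path_agree htr]
      exact hsep t
    · have g1 := hβ.geo 0 t (Nat.zero_le _) ht
      have g2 := hα.geo 0 r (Nat.zero_le _) hrm
      have hrs : s.rs = s.r1 + s.M' + s.D1 := rfl
      simp only [] at g1 h0 ⊢
      have t1 := d_tri ((s.K x.κ)⁻¹ * s.K y.κ * y.path 0) (x.rpath 0)
        ((s.K x.κ)⁻¹ * s.K y.κ * y.path t)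
      have t2 := d_tri (x.rpath 0) (x.rpath r) ((s.K x.κ)⁻¹ * s.K y.κ * y.path t)
      rw [d_comm ((s.K x.κ)⁻¹ * s.K y.κ * y.path 0) (x.rpath 0)] at t1
      omega) hE l c
  have e : x.pts ++ y.pts.map (x.val * ·) =
      ((range (x.len + 1)).map (fun i => x.rpath (x.len - i)) ++
        (range (y.len + 1)).map (fun t => (s.K x.κ)⁻¹ * s.K y.κ * y.path t)).map
        ((s.K x.κ * x.path x.len) * ·) := by
    rw [map_append, map_map, map_map]
    unfold Letter.pts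
    rw [map_map]
    congr 1
    · apply map_congr_left
      intro i hi
      have hi' : i ≤ x.len := by simp at hi; omega
      simp only [Function.comp]
      rw [mul_assoc, x.rpath_eq hi']
    · apply map_congr_left
      intro i hi
      simp only [Function.comp, Letter.val]
      group
  show CloseL (x.pts ++ y.pts.map (x.val * ·)) l c (s.T0 l c)
  rw [e, CloseL.smul_iff]
  exact hcor

/-- The adjacency relation. -/
def Letter.Adj (x y : s.Letter) : Prop := x.κ = y.κ → x.ε = y.ε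

end Setup

end Pool.Agent.Lib.H76.Morse
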