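import Pool.Agent.Lib.H76.Morse.Basic

/-!
# Lists of points and the local-to-global step
-/

namespace Pool.Agent.Lib.H76.Morse

open GeoMet List

section sub

variable {α : Type*}

theorem sub2_append {x y : α} {A B : List α} :
    [x, y] <+ A ++ B ↔ [x, y] <+ A ∨ (x ∈ A ∧ y ∈ B) ∨ [x, y] <+ B := by
  constructor
  · intro h
    rw [sublist_append_iff] at h
    obtain ⟨l1, l2, h1, h2, h3⟩ := h
    match l1, h1 with
    | [], h1 => simp only [nil_append] at h1; subst h1; exact Or.inr (Or.inr h3)
    | [a], h1 =>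
      simp only [cons_append, nil_append, cons.injEq] at h1
      obtain ⟨rfl, rfl⟩ := h1
      exact Or.inr (Or.inl ⟨singleton_sublist.mp h2, singleton_sublist.mp h3⟩)
    | a :: b :: t, h1 =>
      simp only [cons_append, cons.injEq, nil_eq, append_eq_nil_iff] at h1
      obtain ⟨rfl, rfl, rfl, rfl⟩ := h1
      exact Or.inl h2
  · rintro (h | ⟨h1, h2⟩ | h)
    · exact sublist_append_of_sublist_left h
    · exact Sublist.append (singleton_sublist.mpr h1) (singleton_sublist.mpr h2)
    · exact sublist_append_of_sublist_right h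

theorem sub3_append {x y z : α} {A B : List α} :
    [x, y, z] <+ A ++ B ↔ [x, y, z] <+ A ∨ ([x, y] <+ A ∧ z ∈ B) ∨ (x ∈ A ∧ [y, z] <+ B) ∨
      [x, y, z] <+ B := by
  constructor
  · intro h
    rw [sublist_append_iff] at h
    obtain ⟨l1, l2, h1, h2, h3⟩ := h
    match l1, h1 with
    | [], h1 => simp only [nil_append] at h1; subst h1; exact Or.inr (Or.inr (Or.inr h3))
    | [a], h1 =>
      simp only [cons_append, nil_append, cons.injEq] at h1
      obtain ⟨rfl, rfl⟩ := h1
      exact Or.inr (Or.inr (Or.inl ⟨singleton_sublist.mp h2, h3⟩))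
    | [a, b], h1 =>
      simp only [cons_append, nil_append, cons.injEq] at h1
      obtain ⟨rfl, rfl, rfl⟩ := h1
      exact Or.inr (Or.inl ⟨h2, singleton_sublist.mp h3⟩)
    | a :: b :: c :: t, h1 =>
      simp only [cons_append, cons.injEq, nil_eq, append_eq_nil_iff] at h1
      obtain ⟨rfl, rfl, rfl, rfl, rfl⟩ := h1
      exact Or.inl h2
  · rintro (h | ⟨h1, h2⟩ | ⟨h1, h2⟩ | h)
    · exact sublist_append_of_sublist_left h
    · exact Sublist.append h1 (singleton_sublist.mpr h2)
    · exact Sublist.append (singleton_sublist.mpr h1) h2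
    · exact sublist_append_of_sublist_right h

theorem sub2_cons {x y a : α} {A : List α} : [x, y] <+ a :: A ↔ [x, y] <+ A ∨ (x = a ∧ y ∈ A) := by
  have := @sub2_append α x y [a] A
  simp only [singleton_append, mem_singleton] at this
  rw [this]
  constructor
  · rintro (h | h | h)
    · have := h.length_le; simp at this
    · exact Or.inr h
    · exact Or.inl h
  · tauto

theorem sub3_cons {x y z a : α} {A : List α} :
    [x, y, z] <+ a :: A ↔ [x, y, z] <+ A ∨ (x = a ∧ [y, z] <+ A) := by
  have := @sub3_append α x y z [a] A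
  simp only [singleton_append, mem_singleton] at this
  rw [this]
  constructor
  · rintro (h | ⟨h, _⟩ | h | h)
    · have := h.length_le; simp at this
    · have := h.length_le; simp at this
    · exact Or.inr h
    · exact Or.inl h
  · tauto

theorem sub2_mem {x y : α} {A : List α} (h : [x, y] <+ A) : x ∈ A ∧ y ∈ A :=
  ⟨h.subset (by simp), h.subset (by simp)⟩

theorem sub3_mem {x y z : α} {A : List α} (h : [x, y, z] <+ A) : x ∈ A ∧ y ∈ A ∧ z ∈ A :=
  ⟨h.subset (by simp), h.subset (by simp), h.subset (by simp)⟩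

/-- Decomposition of a list at the middle element of a three element sublist. -/
theorem sub3_split {x y z : α} {P : List α} (h : [x, y, z] <+ P) :
    ∃ P1 P2, P = P1 ++ y :: P2 ∧ x ∈ P1 ∧ z ∈ P2 := by
  induction P with
  | nil => simp at h
  | cons a P ih =>
    rw [sub3_cons] at h
    rcases h with h | ⟨rfl, h⟩
    · obtain ⟨P1, P2, h1, h2, h3⟩ := ih h
      exact ⟨a :: P1, P2, by rw [h1]; rfl, mem_cons_of_mem _ h2, h3⟩
    · clear ih
      induction P with
      | nil => simp at h
      | cons b P ih =>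
        rw [sub2_cons] at h
        rcases h with h | ⟨rfl, h⟩
        · obtain ⟨P1, P2, h1, h2, h3⟩ := ih h
          match P1, h1 with
          | [], h1 => simp at h2
          | a' :: P1', h1 =>
            simp only [cons_append, cons.injEq] at h1
            obtain ⟨rfl, h1⟩ := h1
            refine ⟨x :: b :: P1', P2, by rw [h1]; rfl, by simp, h3⟩
        · exact ⟨[x], P, rfl, by simp, h⟩

theorem flatten_split {L : List (List α)} {P1 P2 : List α} {y : α} (h : L.flatten = P1 ++ y :: P2) :
    ∃ l1 S1 S2 l2, L = l1 ++ (S1 ++ y :: S2) :: l2 ∧ P1 = l1.flatten ++ S1 ∧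
      P2 = S2 ++ l2.flatten := by
  induction L generalizing P1 with
  | nil => simp at h
  | cons S L ih =>
    rw [flatten_cons] at h
    rw [append_eq_append_iff] at h
    rcases h with ⟨as, h1, h2⟩ | ⟨bs, h1, h2⟩
    · -- P1 = S ++ as, L.flatten = as ++ y :: P2
      obtain ⟨l1, S1, S2, l2, e1, e2, e3⟩ := ih h2
      refine ⟨S :: l1, S1, S2, l2, by rw [e1]; rfl, ?_, e3⟩
      rw [h1, e2, flatten_cons, append_assoc]
    · -- S = P1 ++ bs, y :: P2 = bs ++ L.flatten
      match bs, h1, h2 with
      | [], h1, h2 =>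
        rw [nil_append] at h2
        obtain ⟨l1, S1, S2, l2, e1, e2, e3⟩ := ih (P1 := []) (by rw [← h2]; rfl)
        rw [append_nil] at h1
        refine ⟨S :: l1, S1, S2, l2, by rw [e1]; rfl, ?_, e3⟩
        rw [flatten_cons, append_assoc, ← e2, h1, append_nil]
      | b :: bs, h1, h2 =>
        rw [cons_append, cons.injEq] at h2
        obtain ⟨rfl, h2⟩ := h2
        exact ⟨[], P1, bs, L, by rw [h1]; rfl, rfl, h2⟩

end sub

variable {X : Type*} [GeoMet X]

/-- All ordered triples of points of the list satisfy the betweenness estimate. -/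
def CloseL (P : List X) (l c A : ℕ) : Prop := ∀ x y z, [x, y, z] <+ P → Btw l c A x y z

theorem CloseL.mono {P : List X} {l c A l' c' A' : ℕ} (h : CloseL P l c A) (hl : l' ≤ l)
    (hc : c' ≤ c) (hA : A ≤ A') : CloseL P l' c' A' :=
  fun x y z hs => (h x y z hs).mono hl hc hA

theorem CloseL.sublist {P Q : List X} {l c A : ℕ} (h : CloseL P l c A) (hs : Q <+ P) :
    CloseL Q l c A := fun x y z hs' => h x y z (hs'.trans hs)

theorem CloseL.reverse {P : List X} {l c A : ℕ} (h : CloseL P l c A) :
    CloseL P.reverse l c A := by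
  intro x y z hs
  have := reverse_sublist.mpr hs
  simp only [reverse_reverse, reverse_cons, reverse_nil, nil_append, cons_append] at this
  exact (h z y x this).symm

/-- A syllable: a list of points on a geodesic from its first to its last point, of length
at least `L`. -/
def LongSyl (L : ℕ) (S : List X) : Prop :=
  ∃ f g : X, (∃ S', S = f :: S') ∧ (∃ S', S = S' ++ [g]) ∧ L ≤ d f g ∧
    ∀ y ∈ S, d f y + d y g = d f g

theorem LongSyl.reverse {L : ℕ} {S : List X} (h : LongSyl L S) : LongSyl L S.reverse := by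
  obtain ⟨f, g, ⟨S1, h1⟩, ⟨S2, h2⟩, hL, hy⟩ := h
  refine ⟨g, f, ⟨S2.reverse, by rw [h2]; simp⟩, ⟨S1.reverse, by rw [h1]; simp⟩, ?_, ?_⟩
  · rw [d_comm]; exact hL
  · intro y hyS
    have := hy y (by simpa using hyS)
    rw [d_comm g y, d_comm y f, d_comm g f]
    omega

theorem LongSyl.mono {L L' : ℕ} {S : List X} (h : LongSyl L S) (hL : L' ≤ L) : LongSyl L' S := by
  obtain ⟨f, g, h1, h2, h3, h4⟩ := h
  exact ⟨f, g, h1, h2, hL.trans h3, h4⟩

/-- From betweenness for geodesics: `x, y, z` satisfy a reverse triangle inequality. -/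
theorem Btw.dist_le {A : ℕ} {x y z : X} (h : Btw 1 0 A x y z) : d x y ≤ d x z + A := by
  obtain ⟨p, hp⟩ := exists_isGeo x z
  obtain ⟨i, hi, hd⟩ := h p _ hp.qp hp.1 hp.2.1
  have e := hp.dist_left hi
  have t := d_tri x (p i) y
  omega

theorem Btw.dist_le' {A : ℕ} {x y z : X} (h : Btw 1 0 A x y z) : d y z ≤ d x z + A := by
  have := h.symm.dist_le
  rw [d_comm y z, d_comm x z]
  exact this

theorem close_ext {P S' S : List X} {l c A T L : ℕ} (h1 : CloseL (P ++ S') (2 * l + 1) c A)
    (h2 : CloseL (S' ++ S) (4 * l + 3) c T) (hS' : LongSyl L S') (hL : 2 * A + T < L) :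
    CloseL (P ++ S' ++ S) l c (A + 2 * T) := by
  obtain ⟨f, g, ⟨S1, hf⟩, ⟨S2, hg⟩, hLd, _⟩ := hS'
  have hfg : f ≠ g := by
    rintro rfl
    rw [d_self] at hLd
    omega
  have hfgs : [f, g] <+ S' := by
    have hgm : g ∈ S' := by rw [hg]; simp
    rw [hf] at hgm ⊢
    rcases mem_cons.mp hgm with h | h
    · exact absurd h.symm hfg
    · exact sub2_cons.mpr (Or.inr ⟨rfl, h⟩)
  -- the junction estimate
  have hm : ∀ x ∈ P, ∀ z ∈ S, Btw l c T x g z := by
    intro x hx z hz
    refine ext_point (m' := f) (h1 x f g ?_) (h2 f g z ?_) (by omega)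
    · exact sub3_append.mpr (Or.inr (Or.inr (Or.inl ⟨hx, hfgs⟩)))
    · exact sub3_append.mpr (Or.inr (Or.inl ⟨hfgs, hz⟩))
  have h2' : CloseL (S' ++ S) (2 * l + 1) c T := h2.mono (by omega) le_rfl le_rfl
  intro x y z hs
  rw [sub3_append] at hs
  rcases hs with hs | ⟨hs, hz⟩ | ⟨hx, hs⟩ | hs
  · exact (h1 x y z hs).mono (by omega) le_rfl (by omega)
  · rw [sub2_append] at hs
    rcases hs with hs | ⟨hx, hy⟩ | hs
    · -- x, y in P
      have hb : Btw (2 * l + 1) c A x y g := h1 x y g (by
        refine sub3_append.mpr (Or.inr (Or.inl ⟨hs, ?_⟩))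
        rw [hg]; simp)
      exact (btw_left hb (hm x (sub2_mem hs).1 z hz)).mono le_rfl le_rfl (by omega)
    · by_cases hyg : y = g
      · subst hyg
        exact (hm x hx z hz).mono le_rfl le_rfl (by omega)
      · have hyS2 : y ∈ S2 := by
          rw [hg] at hy
          rcases mem_append.mp hy with h | h
          · exact h
          · exact absurd (mem_singleton.mp h) hyg
        have hb : Btw (2 * l + 1) c A x y g := h1 x y g (by
          refine sub3_append.mpr (Or.inr (Or.inr (Or.inl ⟨hx, ?_⟩)))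
          rw [hg]
          exact sub2_append.mpr (Or.inr (Or.inl ⟨hyS2, by simp⟩)))
        exact (btw_left hb (hm x hx z hz)).mono le_rfl le_rfl (by omega)
    · exact (h2 x y z (sub3_append.mpr (Or.inr (Or.inl ⟨hs, hz⟩)))).mono (by omega) le_rfl
        (by omega)
  · rcases mem_append.mp hx with hx | hx
    · have hb : Btw (2 * l + 1) c T g y z := h2' g y z
        (sub3_append.mpr (Or.inr (Or.inr (Or.inl ⟨by rw [hg]; simp, hs⟩))))
      exact (btw_right hb (hm x hx z (sub2_mem hs).2)).mono le_rfl le_rfl (by omega)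
    · exact (h2 x y z (sub3_append.mpr (Or.inr (Or.inr (Or.inl ⟨hx, hs⟩))))).mono (by omega)
        le_rfl (by omega)
  · exact (h2 x y z (sub3_append.mpr (Or.inr (Or.inr (Or.inr hs))))).mono (by omega)
      le_rfl (by omega)

/-- Hypotheses for the improvement step. -/
structure SylHyp (Ls : List (List X)) (L l c T T1 B : ℕ) : Prop where
  long : ∀ S ∈ Ls, LongSyl L S
  single : ∀ S ∈ Ls, CloseL S (4 * l + 3) c T
  pair : ∀ A S S' A', Ls = A ++ S :: S' :: A' → CloseL (S ++ S') (4 * l + 3) c T
  pair1 : ∀ A S S' A', Ls = A ++ S :: S' :: A' → CloseL (S ++ S') 1 0 T1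
  crude : CloseL Ls.flatten (2 * l + 1) c B

omit [GeoMet X] in
theorem flatten_rev (Ls : List (List X)) :
    (Ls.map List.reverse).reverse.flatten = Ls.flatten.reverse := by
  rw [reverse_flatten]

theorem SylHyp.reverse {Ls : List (List X)} {L l c T T1 B : ℕ} (h : SylHyp Ls L l c T T1 B) :
    SylHyp (Ls.map List.reverse).reverse L l c T T1 B := by
  have key : ∀ A S S' A', (Ls.map List.reverse).reverse = A ++ S :: S' :: A' →
      Ls = (A'.map List.reverse).reverse ++ S'.reverse :: S.reverse :: (A.map List.reverse).reverse := by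
    intro A S S' A' e
    have := congrArg (fun l => (l.map List.reverse).reverse) e
    simp only [map_reverse, reverse_reverse, map_map, map_append, map_cons, reverse_append,
      reverse_cons, append_assoc, cons_append, nil_append] at this
    have e2 : (List.reverse ∘ List.reverse : List X → List X) = id := by
      funext x; simp
    rw [e2, map_id] at this
    rw [this]
  refine ⟨?_, ?_, ?_, ?_, ?_⟩
  · intro S hS
    simp only [mem_reverse, mem_map] at hS
    obtain ⟨S', hS', rfl⟩ := hS
    exact (h.long S' hS').reverse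
  · intro S hS
    simp only [mem_reverse, mem_map] at hS
    obtain ⟨S', hS', rfl⟩ := hS
    exact (h.single S' hS').reverse
  · intro A S S' A' e
    have := (h.pair _ _ _ _ (key A S S' A' e)).reverse
    simpa using this
  · intro A S S' A' e
    have := (h.pair1 _ _ _ _ (key A S S' A' e)).reverse
    simpa using this
  · rw [flatten_rev]
    exact h.crude.reverse

theorem imp_caseA {Ls : List (List X)} {L l c T T1 B : ℕ} (h : SylHyp Ls L l c T T1 B)
    (hL : 2 * (B + T) + T1 < L) {l1 l2 : List (List X)} {S1 S2 : List X} {x y z g : X}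
    (hLs : Ls = l1 ++ (S1 ++ y :: S2) :: l2) (hx : x ∈ l1.flatten ++ S1) (hz : z ∈ S2 ++ l2.flatten)
    (hg : ∃ S', S1 ++ y :: S2 = S' ++ [g]) (hyg : L ≤ 2 * d y g) : Btw l c T x y z := by
  have hcr : CloseL Ls.flatten l c B := h.crude.mono (by omega) le_rfl le_rfl
  have hygne : y ≠ g := by
    rintro rfl
    rw [d_self] at hyg
    omega
  have hgS2 : g ∈ S2 := by
    obtain ⟨S', hS'⟩ := hg
    have h1 := congrArg List.getLast? hS'
    rw [getLast?_append, getLast?_append] at h1
    simp only [getLast?_singleton, Option.some_or] at h1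
    cases hS2 : S2 with
    | nil =>
      rw [hS2] at h1
      simp at h1
      exact absurd h1 hygne
    | cons b t =>
      rw [hS2] at h1
      simp only [getLast?_cons_cons] at h1
      have h2 : (b :: t).getLast? = some g := by
        cases hh : (b :: t).getLast? with
        | none => simp at hh
        | some w => rw [hh] at h1; simpa using h1
      exact mem_of_getLast? h2
  have hfl : Ls.flatten = l1.flatten ++ (S1 ++ y :: S2) ++ l2.flatten := by
    rw [hLs]; simp
  have hBT : B + T < d g y := by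
    rw [d_comm]; omega
  -- estimates with right end in the syllable of `y`
  have right : ∀ z' ∈ S2, Btw (2 * l + 1) c T x y z' ∧ Btw l c T x y z' := by
    intro z' hz'
    rcases mem_append.mp hx with hx1 | hx1
    · -- x in an earlier syllable
      rcases eq_nil_or_concat l1 with hl1 | ⟨l1', S', hl1⟩
      · rw [hl1] at hx1; simp at hx1
      · rw [concat_eq_append] at hl1
        have e : Ls = l1' ++ S' :: (S1 ++ y :: S2) :: l2 := by
          rw [hLs, hl1]; simp
        have hp := h.pair _ _ _ _ e
        have hp1 := h.pair1 _ _ _ _ e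
        have hyz : [y, z'] <+ S1 ++ y :: S2 := by
          rw [sub2_append, sub2_cons]
          exact Or.inr (Or.inr (Or.inr ⟨rfl, hz'⟩))
        rw [hl1, flatten_append, mem_append] at hx1
        rcases hx1 with hx1 | hx1
        · -- x two or more syllables before
          have hS'long : LongSyl L S' := h.long S' (by rw [e]; simp)
          obtain ⟨f', g', ⟨F1, hf'⟩, ⟨F2, hg'⟩, hLd, _⟩ := hS'long
          have hf'm : f' ∈ S' := by rw [hf']; simp
          have hg'm : g' ∈ S' := by rw [hg']; simp
          have hf'g' : f' ≠ g' := by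
            rintro rfl
            rw [d_self] at hLd
            omega
          have hs' : [f', g'] <+ S' := by
            rw [hf'] at hg'm ⊢
            rcases mem_cons.mp hg'm with h | h
            · exact absurd h.symm hf'g'
            · exact sub2_cons.mpr (Or.inr ⟨rfl, h⟩)
          have hym : y ∈ S1 ++ y :: S2 := by simp
          have hdf : B + T < d f' y := by
            have b1 : Btw 1 0 T1 f' g' y := hp1 _ _ _ (sub3_append.mpr (Or.inr (Or.inl ⟨hs', hym⟩)))
            have := b1.dist_le
            omega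
          have hxf : x ∈ l1'.flatten := hx1
          have b2 : Btw (4 * l + 3) c T f' y z' :=
            hp _ _ _ (sub3_append.mpr (Or.inr (Or.inr (Or.inl ⟨hf'm, hyz⟩))))
          have hfl' : Ls.flatten = l1'.flatten ++ (S' ++ ((S1 ++ y :: S2) ++ l2.flatten)) := by
            rw [e]; simp
          have b3 : Btw (2 * l + 1) c B x f' z' := h.crude _ _ _ (by
            rw [hfl', sub3_append]
            refine Or.inr (Or.inr (Or.inl ⟨hxf, ?_⟩))
            rw [sub2_append]
            refine Or.inr (Or.inl ⟨hf'm, ?_⟩)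
            simp [hz'])
          exact ⟨imp2 b3 (b2.mono (by omega) le_rfl le_rfl) hdf,
            imp2 (b3.mono (by omega) le_rfl le_rfl) (b2.mono (by omega) le_rfl le_rfl) hdf⟩
        · -- x in the previous syllable
          have hx2 : x ∈ S' := by simpa using hx1
          have b : Btw (4 * l + 3) c T x y z' :=
            hp _ _ _ (sub3_append.mpr (Or.inr (Or.inr (Or.inl ⟨hx2, hyz⟩))))
          exact ⟨b.mono (by omega) le_rfl le_rfl, b.mono (by omega) le_rfl le_rfl⟩
    · have hs := h.single (S1 ++ y :: S2) (by rw [hLs]; simp)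
      have b : Btw (4 * l + 3) c T x y z' := hs _ _ _ (by
        rw [sub3_append]
        refine Or.inr (Or.inr (Or.inl ⟨hx1, ?_⟩))
        exact sub2_cons.mpr (Or.inr ⟨rfl, hz'⟩))
      exact ⟨b.mono (by omega) le_rfl le_rfl, b.mono (by omega) le_rfl le_rfl⟩
  rcases mem_append.mp hz with hz1 | hz1
  · exact (right z hz1).2
  · -- z in a later syllable: use g
    have b1 : Btw l c B x g z := hcr _ _ _ (by
      rw [hfl, sub3_append]
      refine Or.inr (Or.inl ⟨?_, hz1⟩)
      rw [sub2_append]
      rcases mem_append.mp hx with hx1 | hx1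
      · exact Or.inr (Or.inl ⟨hx1, by simp [hgS2]⟩)
      · refine Or.inr (Or.inr ?_)
        rw [sub2_append]
        exact Or.inr (Or.inl ⟨hx1, by simp [hgS2]⟩))
    exact imp1 b1 (right g hgS2).1 hBT

/-- Improvement step: a crude betweenness estimate is upgraded to the local one. -/
theorem close_imp {Ls : List (List X)} {L l c T T1 B : ℕ} (h : SylHyp Ls L l c T T1 B)
    (hL : 2 * (B + T) + T1 < L) : CloseL Ls.flatten l c T := by
  intro x y z hs
  obtain ⟨P1, P2, e, hx, hz⟩ := sub3_split hs
  obtain ⟨l1, S1, S2, l2, e1, e2, e3⟩ := flatten_split e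
  have hlong := h.long (S1 ++ y :: S2) (by rw [e1]; simp)
  obtain ⟨f, g, ⟨F1, hf⟩, ⟨F2, hg⟩, hLd, hgeo⟩ := hlong
  have hy := hgeo y (by simp)
  rcases Nat.lt_or_ge (2 * d y g) L with hlt | hge
  · -- y is in the second half
    have hyf : L ≤ 2 * d y f := by
      rw [d_comm y f]; omega
    have hrev := h.reverse
    have e' : (Ls.map List.reverse).reverse =
        (l2.map List.reverse).reverse ++ (S2.reverse ++ y :: S1.reverse) ::
          (l1.map List.reverse).reverse := by
      rw [e1]; simp
    refine (imp_caseA hrev hL e' (x := z) (z := x) (g := f) ?_ ?_ ?_ hyf).symm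
    · rw [e3] at hz
      rw [flatten_rev]
      simp only [mem_append, mem_reverse] at hz ⊢
      tauto
    · rw [e2] at hx
      rw [flatten_rev]
      simp only [mem_append, mem_reverse] at hx ⊢
      tauto
    · refine ⟨F1.reverse, ?_⟩
      have := congrArg List.reverse hf
      simpa using this
  · refine imp_caseA h hL e1 ?_ ?_ ⟨F2, hg⟩ hge
    · rw [← e2]; exact hx
    · rw [← e3]; exact hz

/-- Monotone gauges. -/
def Mono (T : ℕ → ℕ → ℕ) : Prop := ∀ l l' c c', l ≤ l' → c ≤ c' → T l c ≤ T l' c'

/-- The two-syllable estimate. -/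
def R2 (T0 : ℕ → ℕ → ℕ) (S S' : List X) : Prop := ∀ l c, CloseL (S ++ S') l c (T0 l c)

/-- A chain of syllables of length at least `L`, satisfying the local estimates. -/
def SChain (T0 : ℕ → ℕ → ℕ) (L : ℕ) (Ls : List (List X)) : Prop :=
  (∀ S ∈ Ls, LongSyl L S ∧ ∀ l c, CloseL S l c (T0 l c)) ∧ Ls.IsChain (R2 T0)

theorem R2.reverse {T0 : ℕ → ℕ → ℕ} {S S' : List X} (h : R2 T0 S S') :
    R2 T0 S'.reverse S.reverse := by
  intro l c
  have := (h l c).reverse
  simpa using this

theorem SChain.reverse {T0 : ℕ → ℕ → ℕ} {L : ℕ} {Ls : List (List X)} (h : SChain T0 L Ls) :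
    SChain T0 L (Ls.map List.reverse).reverse := by
  refine ⟨?_, ?_⟩
  · intro S hS
    simp only [mem_reverse, mem_map] at hS
    obtain ⟨S', hS', rfl⟩ := hS
    exact ⟨(h.1 S' hS').1.reverse, fun l c => ((h.1 S' hS').2 l c).reverse⟩
  · rw [isChain_reverse, isChain_map]
    exact h.2.imp (fun a b hab => hab.reverse)

theorem SChain.left {T0 : ℕ → ℕ → ℕ} {L : ℕ} {A B : List (List X)} (h : SChain T0 L (A ++ B)) :
    SChain T0 L A :=
  ⟨fun S hS => h.1 S (mem_append_left _ hS), (isChain_append.mp h.2).1⟩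

theorem SChain.right {T0 : ℕ → ℕ → ℕ} {L : ℕ} {A B : List (List X)} (h : SChain T0 L (A ++ B)) :
    SChain T0 L B :=
  ⟨fun S hS => h.1 S (mem_append_right _ hS), (isChain_append.mp h.2).2.1⟩

theorem SChain.mono {T0 : ℕ → ℕ → ℕ} {L L' : ℕ} {A : List (List X)} (h : SChain T0 L A)
    (hL : L' ≤ L) : SChain T0 L' A :=
  ⟨fun S hS => ⟨(h.1 S hS).1.mono hL, (h.1 S hS).2⟩, h.2⟩

theorem SChain.r2 {T0 : ℕ → ℕ → ℕ} {L : ℕ} {Ls A A' : List (List X)} {S S' : List X}
    (h : SChain T0 L Ls) (e : Ls = A ++ S :: S' :: A') : R2 T0 S S' := by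
  have h2 := h.2
  rw [e] at h2
  exact (isChain_append_cons_cons.mp h2).2.1

/-- Local-to-global step: if the chain without its last syllable satisfies a (bad) estimate
at `4 l + 3`, and the syllables are long, then the whole chain satisfies the local estimate. -/
theorem step_right {T0 : ℕ → ℕ → ℕ} (hT : Mono T0) {L l c A : ℕ} {Ls : List (List X)}
    {S : List X} (h : SChain T0 L (Ls ++ [S])) (hA : CloseL Ls.flatten (4 * l + 3) c A)
    (hL : 4 * (A + 4 * T0 (8 * l + 7) c + 1) ≤ L) :
    CloseL (Ls ++ [S]).flatten l c (T0 (4 * l + 3) c) := by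
  have hT1 : T0 1 0 ≤ T0 (8 * l + 7) c := hT _ _ _ _ (by omega) (by omega)
  have hT2 : T0 (4 * l + 3) c ≤ T0 (8 * l + 7) c := hT _ _ _ _ (by omega) le_rfl
  rcases eq_nil_or_concat Ls with hnil | ⟨Ls', S', hcons⟩
  · subst hnil
    have := (h.1 S (by simp)).2 (4 * l + 3) c
    simpa using this.mono (by omega) le_rfl le_rfl
  · rw [concat_eq_append] at hcons
    subst hcons
    have hS' : LongSyl L S' := (h.1 S' (by simp)).1
    have hr2 : R2 T0 S' S := h.r2 (A := Ls') (A' := []) (by simp)
    have hA' : CloseL (Ls'.flatten ++ S') (2 * (2 * l + 1) + 1) c A := by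
      have : (Ls' ++ [S']).flatten = Ls'.flatten ++ S' := by simp
      rw [this] at hA
      exact hA.mono (by omega) le_rfl le_rfl
    have hcrude := close_ext hA' ((hr2 (4 * (2 * l + 1) + 3) c)) hS'
      (by
        have : 4 * (2 * l + 1) + 3 = 8 * l + 7 := by ring
        rw [this]; omega)
    have e87 : 4 * (2 * l + 1) + 3 = 8 * l + 7 := by ring
    rw [e87] at hcrude
    refine close_imp (T1 := T0 1 0) (B := A + 2 * T0 (8 * l + 7) c) (L := L)
      ⟨fun S hS => (h.1 S hS).1, fun S hS => (h.1 S hS).2 _ _, ?_, ?_, ?_⟩ (by omega)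
    · intro A0 S0 S1 A1 e
      exact h.r2 e _ _
    · intro A0 S0 S1 A1 e
      exact h.r2 e _ _
    · have : (Ls' ++ [S'] ++ [S]).flatten = Ls'.flatten ++ S' ++ S := by simp
      rw [this]
      exact hcrude

theorem step_left {T0 : ℕ → ℕ → ℕ} (hT : Mono T0) {L l c A : ℕ} {Ls : List (List X)}
    {S : List X} (h : SChain T0 L (S :: Ls)) (hA : CloseL Ls.flatten (4 * l + 3) c A)
    (hL : 4 * (A + 4 * T0 (8 * l + 7) c + 1) ≤ L) :
    CloseL (S :: Ls).flatten l c (T0 (4 * l + 3) c) := by
  have h' := h.reverse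
  have e : ((S :: Ls).map List.reverse).reverse = (Ls.map List.reverse).reverse ++ [S.reverse] := by
    simp
  rw [e] at h'
  have hA' : CloseL (Ls.map List.reverse).reverse.flatten (4 * l + 3) c A := by
    rw [flatten_rev]
    exact hA.reverse
  have := (step_right hT h' hA' hL).reverse
  rw [← e, flatten_rev, reverse_reverse] at this
  exact this

end Pool.Agent.Lib.H76.Morse
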