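import Pool.Agent.Lib.H76.Morse.Letters

/-!
# Infinite sequences from nested lists
-/

namespace Pool.Agent.Lib.H76.Morse

open GeoMet List

section

variable {α : Type*}

theorem nested_len {F : ℕ → List α} (hF : ∀ i, ∃ Q, Q ≠ [] ∧ F (i + 1) = F i ++ Q)
    (h0 : F 0 ≠ []) : ∀ n, n < (F n).length := by
  intro n
  induction n with
  | zero => exact length_pos_iff.mpr h0
  | succ n ih =>
    obtain ⟨Q, hQ, h⟩ := hF n
    rw [h, length_append]
    have := length_pos_iff.mpr hQ
    omega

theorem nested_prefix {F : ℕ → List α} (hF : ∀ i, ∃ Q, Q ≠ [] ∧ F (i + 1) = F i ++ Q) {i j : ℕ}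
    (h : i ≤ j) : ∃ Q, F j = F i ++ Q := by
  induction j, h using Nat.le_induction with
  | base => exact ⟨[], by simp⟩
  | succ j _ ih =>
    obtain ⟨Q, hQ⟩ := ih
    obtain ⟨Q', _, h'⟩ := hF j
    exact ⟨Q ++ Q', by rw [h', hQ, append_assoc]⟩

theorem exists_seq {F : ℕ → List α} (hF : ∀ i, ∃ Q, Q ≠ [] ∧ F (i + 1) = F i ++ Q)
    (h0 : F 0 ≠ []) : ∃ φ : ℕ → α, ∀ k, F k = (range (F k).length).map φ := by
  have hlen := nested_len hF h0
  have hx : ∀ n, ∃ x, ∀ k, n < (F k).length → (F k)[n]? = some x := by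
    intro n
    refine ⟨(F n)[n]'(hlen n), fun k hk => ?_⟩
    rcases le_total k n with h | h
    · obtain ⟨Q, hQ⟩ := nested_prefix hF h
      have e : (F n)[n]? = some ((F n)[n]'(hlen n)) := getElem?_eq_getElem _
      rw [← e, hQ, getElem?_append_left hk]
    · obtain ⟨Q, hQ⟩ := nested_prefix hF h
      have e : (F n)[n]? = some ((F n)[n]'(hlen n)) := getElem?_eq_getElem _
      rw [← e, hQ, getElem?_append_left (hlen n)]
  choose φ hφ using hx
  refine ⟨φ, fun k => ?_⟩
  apply ext_getElem?
  intro n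
  by_cases hn : n < (F k).length
  · rw [hφ n k hn]
    simp [hn]
  · rw [getElem?_eq_none (by omega), getElem?_eq_none (by simp; omega)]

theorem sub2_range {i j n : ℕ} (hij : i < j) (hj : j < n) : [i, j] <+ range n := by
  have h1 : range (j + 1) <+ range n := range_sublist.mpr (by omega)
  refine Sublist.trans ?_ h1
  rw [range_succ, sub2_append]
  exact Or.inr (Or.inl ⟨by simpa using hij, by simp⟩)

theorem sub3_range {i j k n : ℕ} (hij : i < j) (hjk : j < k) (hk : k < n) :
    [i, j, k] <+ range n := by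
  have h1 : range (k + 1) <+ range n := range_sublist.mpr (by omega)
  refine Sublist.trans ?_ h1
  rw [range_succ, sub3_append]
  exact Or.inr (Or.inl ⟨sub2_range hij hjk, by simp⟩)

end

variable {X : Type*} [GeoMet X]

theorem closeL_range {φ : ℕ → X} {n l c A : ℕ}
    (h : ∀ i j k, i ≤ j → j ≤ k → Btw l c A (φ i) (φ j) (φ k)) :
    CloseL ((range n).map φ) l c A := by
  intro x y z hs
  rw [sublist_map_iff] at hs
  obtain ⟨l', h1, h2⟩ := hs
  have hp : l'.Pairwise (· < ·) := (pairwise_lt_range (n := n)).sublist h1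
  match l', h2, hp with
  | [a, b, e], h2, hp =>
    simp only [map_cons, map_nil, cons.injEq, and_true] at h2
    obtain ⟨rfl, rfl, rfl⟩ := h2
    simp only [pairwise_cons, mem_cons, not_mem_nil, or_false, forall_eq_or_imp, forall_eq,
      IsEmpty.forall_iff, implies_true, Pairwise.nil, and_true] at hp
    exact h a b e (by omega) (by omega)
  | [], h2, _ => simp at h2
  | [a], h2, _ => simp at h2
  | [a, b], h2, _ => simp at h2
  | a :: b :: e :: f :: t, h2, _ => simp at h2

theorem btw_of_closeL {φ : ℕ → X} {l c A : ℕ} (h : ∀ n, CloseL ((range n).map φ) l c A) :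
    ∀ i j k, i ≤ j → j ≤ k → Btw l c A (φ i) (φ j) (φ k) := by
  intro i j k hij hjk
  rcases Nat.eq_or_lt_of_le hij with rfl | hij'
  · exact Btw.of_left (by rw [d_self]; omega)
  · rcases Nat.eq_or_lt_of_le hjk with rfl | hjk'
    · exact Btw.of_right (by rw [d_self]; omega)
    · refine h (k + 1) _ _ _ ?_
      have := (sub3_range hij' hjk' (Nat.lt_succ_self k)).map φ
      simpa using this

theorem step_of_chain {φ : ℕ → X} {M : ℕ}
    (h : ∀ n, ((range n).map φ).IsChain (fun a b => d a b ≤ M)) (n : ℕ) :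
    d (φ n) (φ (n + 1)) ≤ M := by
  have h1 := h (n + 1 + 1)
  rw [range_succ, range_succ, append_assoc] at h1
  simp only [singleton_append, map_append, map_cons, map_nil] at h1
  exact (isChain_append_cons_cons.mp h1).2.1

end Pool.Agent.Lib.H76.Morse
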