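import Pool.Agent.Lib.H76.Morse.Lists

/-!
# Towers: concatenating blocks with very long spacers
-/

namespace Pool.Agent.Lib.H76.Morse

open GeoMet List

variable {X : Type*} [GeoMet X]

/-- Data of an infinite concatenation `T 0, W 0, T 1, W 1, ...` of blocks `W i` and spacers `T i`.
`F i` is everything up to and including the spacer `T i`, and `A i` is everything before it. -/
structure Tower (X : Type*) [GeoMet X] (T0 : ℕ → ℕ → ℕ) where
  K : ℕ → ℕ
  A : ℕ → List X
  T : ℕ → List X
  W : ℕ → List X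
  f : ℕ → X
  v : ℕ → X
  mu : ℕ → X
  D : ℕ → ℕ
  hA0 : A 0 = []
  hA : ∀ i, A (i + 1) = A i ++ T i ++ W i
  hT : ∀ i, ∃ S, T i = S ++ [mu i]
  hv : ∀ i, [f i, v i] <+ T i ∧ [f i, v i, mu i] <+ T i
  hD : ∀ i, ∀ x ∈ A i, d (f i) x ≤ D i
  hTclose : ∀ i l c, CloseL (T i) l c (T0 l c)
  hblock : ∀ i l c, l ≤ K i → c ≤ K i → CloseL (T i ++ (W i ++ T (i + 1))) l c (T0 (4 * l + 3) c)
  hK : ∀ i, i + 64 ≤ K i
  /-- spacers are long -/
  hfv : ∀ i, T0 (K i) (K i + (K i + 1) * D i) + D i < d (f i) (v i)
  hvmu : ∀ i, 2 * T0 (K i) (K i + (K i + 1) * D i) + 4 * T0 (4 * K i) (K i) + D i + i < d (v i) (mu i)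

namespace Tower

variable {T0 : ℕ → ℕ → ℕ} (hmono : Mono T0) (t : Tower X T0)

/-- Everything up to and including the spacer `T i`. -/
def F (i : ℕ) : List X := t.A i ++ t.T i

/-- The block after `F i`. -/
def Q (i : ℕ) : List X := t.W i ++ t.T (i + 1)

theorem F_succ (i : ℕ) : t.F (i + 1) = t.F i ++ t.Q i := by
  simp [F, Q, t.hA]

theorem F_sublist {i j : ℕ} (h : i ≤ j) : t.F i <+ t.F j := by
  induction j, h using Nat.le_induction with
  | base => exact Sublist.refl _
  | succ j _ ih => rw [F_succ]; exact ih.trans (sublist_append_left _ _)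

theorem mu_mem_T (i : ℕ) : t.mu i ∈ t.T i := by
  obtain ⟨S, h⟩ := t.hT i
  rw [h]; simp

theorem mu_mem_Q (i : ℕ) : t.mu (i + 1) ∈ t.Q i := by
  simp [Q, t.mu_mem_T]

/-- A point occurring (weakly) before `mu j`. -/
theorem T_before {i : ℕ} {x : X} (h : x ∈ t.T i) : x = t.mu i ∨ [x, t.mu i] <+ t.T i := by
  obtain ⟨S, hS⟩ := t.hT i
  rw [hS] at h ⊢
  rcases mem_append.mp h with h | h
  · right
    rw [sub2_append]
    exact Or.inr (Or.inl ⟨h, by simp⟩)
  · left; simpa using h

include hmono in
/-- Single block estimate at the spacer. -/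
theorem spacer {l c : ℕ} {j : ℕ} (hl : 4 * l + 4 ≤ t.K j) (hc : c ≤ t.K j) {x z : X}
    (hx : x ∈ t.F j) (hz : z ∈ t.Q j) : Btw l c (T0 (16 * l + 15) c) x (t.mu j) z := by
  have hTb : CloseL (t.T j ++ t.Q j) (4 * l + 3) c (T0 (16 * l + 15) c) := by
    have := t.hblock j (4 * l + 3) c (by omega) hc
    have e : 4 * (4 * l + 3) + 3 = 16 * l + 15 := by ring
    rw [e] at this
    exact this
  have hTx : ∀ x ∈ t.T j, Btw l c (T0 (16 * l + 15) c) x (t.mu j) z := by
    intro x hx
    rcases t.T_before hx with rfl | h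
    · exact Btw.of_left (by rw [d_self]; omega)
    · exact (hTb x _ z (sub3_append.mpr (Or.inr (Or.inl ⟨h, hz⟩)))).mono (by omega) le_rfl le_rfl
  rcases mem_append.mp hx with hx | hx
  · have hDx := t.hD j x hx
    set A' := T0 (t.K j) (t.K j + (t.K j + 1) * t.D j) with hA'
    have h1 : Btw (2 * l + 1) (c + (2 * l + 1 + 1) * t.D j) A' (t.f j) (t.v j) (t.mu j) := by
      refine (t.hTclose j _ _ _ _ _ (t.hv j).2).mono le_rfl le_rfl ?_
      refine hmono _ _ _ _ (by omega) ?_
      have : (2 * l + 1 + 1) * t.D j ≤ (t.K j + 1) * t.D j := Nat.mul_le_mul_right _ (by omega)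
      omega
    have h2 : Btw (2 * l + 1) c A' x (t.v j) (t.mu j) := by
      refine prep h1 hDx ?_
      have := t.hfv j
      omega
    have h3 : Btw (4 * l + 3) c (T0 (16 * l + 15) c) (t.v j) (t.mu j) z := by
      refine hTb _ _ _ (sub3_append.mpr (Or.inr (Or.inl ⟨?_, hz⟩)))
      have := (t.hv j).2
      exact (Sublist.cons _ (Sublist.refl _)).trans this
    refine ext_point h2 h3 ?_
    have h4 := t.hvmu j
    have h5 : T0 (16 * l + 15) c ≤ T0 (4 * t.K j) (t.K j) := hmono _ _ _ _ (by omega) hc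
    omega
  · exact hTx x hx

include hmono in
theorem mu_far {j : ℕ} : 3 * T0 (4 * t.K (j + 1)) (t.K (j + 1)) <
    d (t.mu (j + 1)) (t.mu j) := by
  have h1 := t.hblock j 1 0 (by have := t.hK j; omega) (by omega)
  have h2 : Btw 1 0 (T0 7 0) (t.mu j) (t.v (j + 1)) (t.mu (j + 1)) := by
    refine h1 _ _ _ ?_
    rw [sub3_append]
    refine Or.inr (Or.inr (Or.inl ⟨t.mu_mem_T j, ?_⟩))
    refine Sublist.trans ?_ (sublist_append_right _ _)
    exact (Sublist.cons _ (Sublist.refl _)).trans (t.hv (j + 1)).2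
  have h3 := h2.dist_le'
  have h4 := t.hvmu (j + 1)
  have h5 : T0 7 0 ≤ T0 (4 * t.K (j + 1)) (t.K (j + 1)) :=
    hmono _ _ _ _ (by have := t.hK (j + 1); omega) (by omega)
  rw [d_comm (t.mu (j + 1)) (t.mu j)]
  omega

include hmono in
/-- Estimate at the end points of all spacers. -/
theorem at_mu {l c j0 : ℕ} (hl : ∀ j ≥ j0, 8 * l + 8 ≤ t.K j) (hc : ∀ j ≥ j0, c ≤ t.K j)
    (m : ℕ) : ∀ j ≥ j0, ∀ x ∈ t.F j, ∀ z ∈ t.Q (j + m),
      Btw l c (T0 (32 * l + 31) c) x (t.mu j) z := by
  induction m with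
  | zero =>
    intro j hj x hx z hz
    refine (t.spacer hmono (by have := hl j hj; omega) (hc j hj) hx hz).mono le_rfl le_rfl ?_
    exact hmono _ _ _ _ (by omega) le_rfl
  | succ m ih =>
    intro j hj x hx z hz
    have hx' : x ∈ t.F (j + 1) := (t.F_sublist (by omega)).subset hx
    have e : j + (m + 1) = j + 1 + m := by ring
    rw [e] at hz
    have h1 := ih (j + 1) (by omega) x hx' z hz
    have h2 : Btw (2 * l + 1) c (T0 (32 * l + 31) c) x (t.mu j) (t.mu (j + 1)) := by
      have := t.spacer hmono (l := 2 * l + 1) (c := c) (by have := hl j hj; omega) (hc j hj) hx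
        (t.mu_mem_Q j)
      have e2 : 16 * (2 * l + 1) + 15 = 32 * l + 31 := by ring
      rw [e2] at this
      exact this
    refine imp1 h1 h2 ?_
    have h3 := t.mu_far hmono (j := j)
    have h4 : T0 (32 * l + 31) c ≤ T0 (4 * t.K (j + 1)) (t.K (j + 1)) :=
      hmono _ _ _ _ (by have := hl (j + 1) (by omega); omega) (hc _ (by omega))
    omega

include hmono in
/-- The estimate for triples whose last two points are in the block `Q j`. -/
theorem last_two {l c j : ℕ} (hl : 8 * l + 8 ≤ t.K j) (hc : c ≤ t.K j) {x y z : X}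
    (hx : x ∈ t.F j) (hyz : [y, z] <+ t.Q j) : Btw l c (2 * T0 (16 * l + 15) c) x y z := by
  rcases mem_append.mp hx with hx1 | hx1
  · have h1 := t.spacer hmono (l := l) (c := c) (by omega) hc hx (sub2_mem hyz).2
    have h2 : Btw (2 * l + 1) c (T0 (8 * l + 7) c) (t.mu j) y z := by
      have := t.hblock j (2 * l + 1) c (by omega) hc
      have e : 4 * (2 * l + 1) + 3 = 8 * l + 7 := by ring
      rw [e] at this
      exact this _ _ _ (sub3_append.mpr (Or.inr (Or.inr (Or.inl ⟨t.mu_mem_T j, hyz⟩))))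
    refine (btw_right h2 h1).mono le_rfl le_rfl ?_
    have : T0 (8 * l + 7) c ≤ T0 (16 * l + 15) c := hmono _ _ _ _ (by omega) le_rfl
    omega
  · have := t.hblock j l c (by omega) hc
    refine (this _ _ _ (sub3_append.mpr (Or.inr (Or.inr (Or.inl ⟨hx1, hyz⟩))))).mono le_rfl
      le_rfl ?_
    have : T0 (4 * l + 3) c ≤ T0 (16 * l + 15) c := hmono _ _ _ _ (by omega) le_rfl
    omega

theorem Q_before {i : ℕ} {y : X} (h : y ∈ t.Q i) : y = t.mu (i + 1) ∨
    [y, t.mu (i + 1)] <+ t.Q i := by
  rcases mem_append.mp h with h | h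
  · right
    rw [Q, sub2_append]
    exact Or.inr (Or.inl ⟨h, t.mu_mem_T _⟩)
  · rcases t.T_before h with rfl | h
    · exact Or.inl rfl
    · right
      rw [Q, sub2_append]
      exact Or.inr (Or.inr h)

include hmono in
/-- The estimate for all triples, given the base estimate for `F j0`. -/
theorem all_close_aux {l c j0 R : ℕ} (hl : ∀ j ≥ j0, 16 * l + 16 ≤ t.K j)
    (hc : ∀ j ≥ j0, c ≤ t.K j)
    (hR : 3 * T0 (32 * l + 31) c ≤ R)
    (hbase : ∀ x y, [x, y] <+ t.F j0 → ∀ m, ∀ z ∈ t.Q (j0 + m), Btw l c R x y z) (k : ℕ) :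
    ∀ x y, [x, y] <+ t.F (j0 + k) → ∀ m, ∀ z ∈ t.Q (j0 + k + m), Btw l c R x y z := by
  induction k with
  | zero => exact hbase
  | succ k ih =>
    intro x y hxy m z hz
    have e : j0 + (k + 1) = j0 + k + 1 := by ring
    rw [e, F_succ] at hxy
    have e2 : j0 + (k + 1) + m = j0 + k + (m + 1) := by ring
    have key : ∀ x ∈ t.F (j0 + k + 1), y ∈ t.Q (j0 + k) →
        ([x, y] <+ t.F (j0 + k) ++ t.Q (j0 + k)) → Btw l c R x y z := by
      intro x hxF hy hxy'
      have h1 : Btw l c (T0 (32 * l + 31) c) x (t.mu (j0 + k + 1)) z :=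
        t.at_mu hmono (fun j hj => by have := hl j hj; omega) hc m (j0 + k + 1) (by omega) x hxF z
          (by rw [e] at hz; exact hz)
      rcases t.Q_before hy with rfl | hy2
      · exact h1.mono le_rfl le_rfl (by omega)
      · have h2 : Btw (2 * l + 1) c (2 * T0 (32 * l + 31) c) x y (t.mu (j0 + k + 1)) := by
          rcases sub2_append.mp hxy' with h | ⟨h, _⟩ | h
          · -- x and y both in F (j0+k): use x ∈ F
            have := t.last_two hmono (l := 2 * l + 1) (c := c) (j := j0 + k)
              (by have := hl (j0 + k) (by omega); omega) (hc _ (by omega)) (sub2_mem h).1 hy2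
            have e3 : 16 * (2 * l + 1) + 15 = 32 * l + 31 := by ring
            rw [e3] at this
            exact this
          · have := t.last_two hmono (l := 2 * l + 1) (c := c) (j := j0 + k)
              (by have := hl (j0 + k) (by omega); omega) (hc _ (by omega)) h hy2
            have e3 : 16 * (2 * l + 1) + 15 = 32 * l + 31 := by ring
            rw [e3] at this
            exact this
          · -- both in Q : triple x, y, mu
            have hb := t.hblock (j0 + k) (2 * l + 1) c (by have := hl (j0 + k) (by omega); omega)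
              (hc _ (by omega))
            have hs : [x, y, t.mu (j0 + k + 1)] <+ t.Q (j0 + k) ∨ y = t.mu (j0 + k + 1) := by
              by_cases hymu : y = t.mu (j0 + k + 1)
              · exact Or.inr hymu
              · left
                obtain ⟨S, hS⟩ := t.hT (j0 + k + 1)
                have hQ : t.Q (j0 + k) = (t.W (j0 + k) ++ S) ++ [t.mu (j0 + k + 1)] := by
                  rw [Q, hS]; simp
                rw [hQ] at h ⊢
                rcases sub2_append.mp h with h | ⟨h3, h4⟩ | h
                · exact sub3_append.mpr (Or.inr (Or.inl ⟨h, by simp⟩))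
                · exact absurd (by simpa using h4) hymu
                · have := h.length_le; simp at this
            rcases hs with hs | rfl
            · refine (hb _ _ _ (sub3_append.mpr (Or.inr (Or.inr (Or.inr hs))))).mono le_rfl
                le_rfl ?_
              have : T0 (4 * (2 * l + 1) + 3) c ≤ T0 (32 * l + 31) c :=
                hmono _ _ _ _ (by omega) le_rfl
              omega
            · exact Btw.of_right (by rw [d_self]; omega)
        refine (btw_left h2 h1).mono le_rfl le_rfl (by omega)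
    rcases sub2_append.mp hxy with h | ⟨h3, h4⟩ | h
    · rw [e2] at hz
      exact ih x y h (m + 1) z hz
    · exact key x ((t.F_sublist (by omega)).subset h3) h4 hxy
    · refine key x ?_ (sub2_mem h).2 hxy
      rw [F_succ]
      exact mem_append_right _ (sub2_mem h).1

include hmono in
theorem all_close {l c j0 R : ℕ} (hl : ∀ j ≥ j0, 16 * l + 16 ≤ t.K j)
    (hc : ∀ j ≥ j0, c ≤ t.K j)
    (hR : 3 * T0 (32 * l + 31) c ≤ R)
    (hbase : ∀ x y, [x, y] <+ t.F j0 → ∀ m, ∀ z ∈ t.Q (j0 + m), Btw l c R x y z)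
    (hbase' : CloseL (t.F j0) l c R) (k : ℕ) : CloseL (t.F k) l c R := by
  have main : ∀ k, CloseL (t.F (j0 + k)) l c R := by
    intro k
    induction k with
    | zero => exact hbase'
    | succ k ih =>
      intro x y z h
      have e : j0 + (k + 1) = j0 + k + 1 := by ring
      rw [e, F_succ] at h
      rcases sub3_append.mp h with h | ⟨h1, h2⟩ | ⟨h1, h2⟩ | h
      · exact ih x y z h
      · exact t.all_close_aux hmono hl hc hR hbase k x y h1 0 z h2
      · refine (t.last_two hmono (by have := hl (j0 + k) (by omega); omega) (hc _ (by omega)) h1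
          h2).mono le_rfl le_rfl ?_
        have : T0 (16 * l + 15) c ≤ T0 (32 * l + 31) c := hmono _ _ _ _ (by omega) le_rfl
        omega
      · have hb := t.hblock (j0 + k) l c (by have := hl (j0 + k) (by omega); omega)
          (hc _ (by omega))
        refine (hb _ _ _ (sub3_append.mpr (Or.inr (Or.inr (Or.inr h))))).mono le_rfl le_rfl ?_
        have : T0 (4 * l + 3) c ≤ T0 (32 * l + 31) c := hmono _ _ _ _ (by omega) le_rfl
        omega
  rcases le_total j0 k with h | h
  · obtain ⟨k', rfl⟩ := Nat.exists_eq_add_of_le h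
    exact main k'
  · exact (main 0).sublist (t.F_sublist (by simpa using h))

/-- Diameter bound for a finite list. -/
theorem exists_diam (P : List X) : ∃ R, ∀ x ∈ P, ∀ y ∈ P, d x y ≤ R := by
  classical
  refine ⟨(P.toFinset ×ˢ P.toFinset).sup (fun p => d p.1 p.2), fun x hx y hy => ?_⟩
  exact Finset.le_sup (f := fun p : X × X => d p.1 p.2) (b := (x, y)) (by simp [hx, hy])

include hmono in
/-- For all parameters there is some uniform bound. -/
theorem exists_bound (l c : ℕ) : ∃ R, ∀ k, CloseL (t.F k) l c R := by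
  set j0 := 16 * l + 16 + c with hj0
  obtain ⟨R0, hR0⟩ := exists_diam (t.F j0)
  refine ⟨R0 + 3 * T0 (32 * l + 31) c, fun k => ?_⟩
  refine t.all_close hmono (j0 := j0) (fun j hj => ?_) (fun j hj => ?_) (by omega) ?_ ?_ k
  · have := t.hK j; omega
  · have := t.hK j; omega
  · intro x y hxy m z _
    refine Btw.of_left ?_
    have := hR0 x (sub2_mem hxy).1 y (sub2_mem hxy).2
    omega
  · intro x y z h
    refine Btw.of_left ?_
    have := hR0 x (sub3_mem h).1 y (sub3_mem h).2.1
    omega

include hmono in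
/-- A uniform bound for geodesics, depending only on `T0`. -/
theorem geo_bound (k : ℕ) : CloseL (t.F k) 1 0 (3 * T0 63 0) := by
  have hF0 : t.F 0 = t.T 0 := by simp [F, t.hA0]
  have hmn : ∀ a ≤ 63, T0 a 0 ≤ T0 63 0 := fun a ha => hmono _ _ _ _ ha le_rfl
  refine t.all_close hmono (j0 := 0) (fun j _ => ?_) (fun j _ => by omega) (by simp) ?_ ?_ k
  · have := t.hK j; omega
  · intro x y hxy m z hz
    rw [hF0] at hxy
    have h1 : Btw 1 0 (T0 63 0) x (t.mu 0) z := by
      have := t.at_mu hmono (l := 1) (c := 0) (j0 := 0) (fun j _ => by have := t.hK j; omega)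
        (fun j _ => by omega) m 0 le_rfl x (by rw [hF0]; exact (sub2_mem hxy).1) z hz
      exact this
    rcases t.T_before (sub2_mem hxy).2 with rfl | _
    · exact h1.mono le_rfl le_rfl (by omega)
    · by_cases hymu : y = t.mu 0
      · rw [hymu]; exact h1.mono le_rfl le_rfl (by omega)
      · obtain ⟨S, hS⟩ := t.hT 0
        have hs : [x, y, t.mu 0] <+ t.T 0 := by
          rw [hS] at hxy ⊢
          rcases sub2_append.mp hxy with h | ⟨h3, h4⟩ | h
          · exact sub3_append.mpr (Or.inr (Or.inl ⟨h, by simp⟩))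
          · exact absurd (by simpa using h4) hymu
          · have := h.length_le; simp at this
        have h2 : Btw (2 * 1 + 1) 0 (T0 3 0) x y (t.mu 0) := t.hTclose 0 _ _ _ _ _ hs
        refine (btw_left h2 h1).mono le_rfl le_rfl ?_
        have := hmn 3 (by norm_num)
        omega
  · rw [hF0]
    exact (t.hTclose 0 1 0).mono le_rfl le_rfl (by have := hmn 1 (by norm_num); omega)

end Tower

end Pool.Agent.Lib.H76.Morse
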