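import Pool.Agent.Lib.H76.Morse.Defs
import Pool.Agent.Lib.H76.Morse.Disc

/-!
# The word metric, and metric models of the Cayley graph
-/

namespace Pool.Agent.Lib.H76.Morse

open GeoMet GroupGeo MorseDefs

section graph

variable {V : Type*} {Γ : SimpleGraph V}

theorem adj_dist_le {u v : V} (h : Γ.Adj u v) : Γ.dist u v ≤ 1 :=
  (SimpleGraph.dist_eq_one_iff_adj.mpr h).le

theorem exists_graph_geo (hΓ : Γ.Connected) (x y : V) : ∃ p : ℕ → V, p 0 = x ∧
    p (Γ.dist x y) = y ∧ ∀ i j, i ≤ j → j ≤ Γ.dist x y → Γ.dist (p i) (p j) = j - i := by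
  obtain ⟨w, hw⟩ := hΓ.exists_walk_length_eq_dist x y
  have h0 : w.getVert 0 = x := by simp
  have h1 : w.getVert (Γ.dist x y) = y := by rw [← hw]; simp
  have hstep : ∀ i, Γ.dist (w.getVert i) (w.getVert (i + 1)) ≤ 1 := by
    intro i
    by_cases hi : i < w.length
    · exact adj_dist_le (w.adj_getVert_succ hi)
    · rw [w.getVert_of_length_le (by omega), w.getVert_of_length_le (by omega)]
      simp
  have hup : ∀ i j, i ≤ j → Γ.dist (w.getVert i) (w.getVert j) ≤ j - i := by
    intro i j hij
    induction j, hij using Nat.le_induction with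
    | base => simp
    | succ j hij ih =>
      have := hΓ.dist_triangle (u := w.getVert i) (v := w.getVert j) (w := w.getVert (j + 1))
      have := hstep j
      omega
  refine ⟨w.getVert, h0, h1, fun i j hij hj => ?_⟩
  have e1 := hup 0 i (Nat.zero_le _)
  have e2 := hup i j hij
  have e3 := hup j (Γ.dist x y) hj
  rw [h0] at e1
  rw [h1] at e3
  have t1 := hΓ.dist_triangle (u := x) (v := w.getVert i) (w := y)
  have t2 := hΓ.dist_triangle (u := w.getVert i) (v := w.getVert j) (w := y)
  omega

end graph

section group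

variable {G : Type*} [Group G]

theorem cayley_adj_smul {S : Finset G} (g : G) {x y : G} (h : (cayleyGraph S).Adj x y) :
    (cayleyGraph S).Adj (g * x) (g * y) := by
  rw [cayleyGraph, SimpleGraph.fromRel_adj] at h ⊢
  obtain ⟨hne, h⟩ := h
  refine ⟨fun e => hne (mul_left_cancel e), ?_⟩
  rcases h with ⟨s, hs, h⟩ | ⟨s, hs, h⟩
  · exact Or.inl ⟨s, hs, by rw [h, mul_assoc]⟩
  · exact Or.inr ⟨s, hs, by rw [h, mul_assoc]⟩

theorem cayley_dist_smul_le {S : Finset G} (hS : Subgroup.closure (S : Set G) = ⊤) (g x y : G) :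
    (cayleyGraph S).dist (g * x) (g * y) ≤ (cayleyGraph S).dist x y := by
  obtain ⟨w, hw⟩ := (cayleyGraph_connected hS).exists_walk_length_eq_dist x y
  let f : (cayleyGraph S) →g (cayleyGraph S) := ⟨fun x => g * x, fun h => cayley_adj_smul g h⟩
  have := SimpleGraph.dist_le (w.map f)
  rw [SimpleGraph.Walk.length_map, hw] at this
  exact this

theorem cayley_fin_ball {S : Finset G} (hS : Subgroup.closure (S : Set G) = ⊤) (n : ℕ) :
    {g : G | (cayleyGraph S).dist 1 g ≤ n}.Finite := by
  induction n with
  | zero =>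
    refine (Set.finite_singleton (1 : G)).subset ?_
    intro g hg
    have hg' : (cayleyGraph S).dist 1 g ≤ 0 := hg
    have := (cayleyGraph_connected hS).dist_eq_zero_iff.mp (Nat.le_zero.mp hg')
    exact this.symm
  | succ n ih =>
    have h1 : (Set.image2 (fun g s => g * s) {g : G | (cayleyGraph S).dist 1 g ≤ n}
      (S : Set G)).Finite := ih.image2 _ S.finite_toSet
    have h2 : (Set.image2 (fun g s => g * s⁻¹) {g : G | (cayleyGraph S).dist 1 g ≤ n}
      (S : Set G)).Finite := ih.image2 _ S.finite_toSet
    refine ((ih.union h1).union h2).subset ?_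
    intro g hg
    have hg' : (cayleyGraph S).dist 1 g ≤ n + 1 := hg
    by_cases hn : (cayleyGraph S).dist 1 g ≤ n
    · exact Or.inl (Or.inl hn)
    · obtain ⟨p, hp0, hp1, hp⟩ := exists_graph_geo (cayleyGraph_connected hS) 1 g
      have e : (cayleyGraph S).dist 1 g = n + 1 := by omega
      rw [e] at hp hp1
      have d1 := hp 0 n (Nat.zero_le _) (by omega)
      have d2 := hp n (n + 1) (by omega) le_rfl
      rw [hp0] at d1
      rw [hp1] at d2
      have d3 : n + 1 - n = 1 := by omega
      rw [d3, SimpleGraph.dist_eq_one_iff_adj, cayleyGraph, SimpleGraph.fromRel_adj] at d2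
      rcases d2.2 with ⟨s, hs, h⟩ | ⟨s, hs, h⟩
      · refine Or.inl (Or.inr ⟨p n, ?_, s, hs, h.symm⟩)
        show (cayleyGraph S).dist 1 (p n) ≤ n
        omega
      · refine Or.inr ⟨p n, ?_, s, hs, ?_⟩
        · show (cayleyGraph S).dist 1 (p n) ≤ n
          omega
        · show p n * s⁻¹ = g
          rw [h]
          group

/-- The word metric. -/
noncomputable abbrev wordGeo (S : Finset G) (hS : Subgroup.closure (S : Set G) = ⊤) :
    GroupGeo G where
  d := (cayleyGraph S).dist
  d_self _ := SimpleGraph.dist_self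
  eq_of_d _ _ h := (cayleyGraph_connected hS).dist_eq_zero_iff.mp h
  d_comm _ _ := SimpleGraph.dist_comm
  d_tri _ _ _ := (cayleyGraph_connected hS).dist_triangle
  geo := exists_graph_geo (cayleyGraph_connected hS)
  left_inv g x y := by
    apply le_antisymm
    · exact cayley_dist_smul_le hS g x y
    · have := cayley_dist_smul_le hS g⁻¹ (g * x) (g * y)
      rwa [inv_mul_cancel_left, inv_mul_cancel_left] at this
  fin_ball := cayley_fin_ball hS

end group

/-- A metric space modelled on the discrete space `V`: the realization of the corresponding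
graph. -/
structure Model (V : Type*) [GeoMet V] (X : Type*) [MetricSpace X] (v : V → X) : Prop where
  dist_eq : ∀ g h, dist (v g) (v h) = (d g h : ℝ)
  dense : ∀ x, ∃ g, dist x (v g) ≤ 1
  edge : ∀ g h, d g h = 1 → ∃ p : ℝ → X, p 0 = v g ∧ p 1 = v h ∧
    ∀ s ∈ Set.Icc (0 : ℝ) 1, ∀ t ∈ Set.Icc (0 : ℝ) 1, dist (p s) (p t) ≤ |s - t|
  near : ∀ x g, dist x (v g) < 1 → ∃ h, dist x (v h) ≤ 1 - dist x (v g)

section model

variable {V : Type*} {Γ : SimpleGraph V} {hΓ : Γ.Connected}

/-- The distance to the vertex `w`, extended to a linear functional. -/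
noncomputable def distFun (Γ : SimpleGraph V) (w : V) : (V →₀ ℝ) →ₗ[ℝ] ℝ :=
  Finsupp.linearCombination ℝ (fun u => (Γ.dist u w : ℝ))

theorem distFun_single (w u : V) (c : ℝ) : distFun Γ w (Finsupp.single u c) = c * Γ.dist u w := by
  unfold distFun
  rw [Finsupp.linearCombination_single, smul_eq_mul]

theorem distFun_lip (hΓ : Γ.Connected) (w u v : V) (h : Γ.Adj u v) :
    |distFun Γ w (Finsupp.single u 1) - distFun Γ w (Finsupp.single v 1)| ≤ 1 := by
  rw [distFun_single, distFun_single, one_mul, one_mul]
  have h1 := adj_dist_le h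
  have t1 := hΓ.dist_triangle (u := u) (v := v) (w := w)
  have t2 := hΓ.dist_triangle (u := v) (v := u) (w := w)
  rw [SimpleGraph.dist_comm (u := v) (v := u)] at t2
  have t1' : (Γ.dist u w : ℝ) ≤ 1 + Γ.dist v w := by exact_mod_cast (by omega)
  have t2' : (Γ.dist v w : ℝ) ≤ 1 + Γ.dist u w := by exact_mod_cast (by omega)
  rw [abs_le]
  constructor <;> linarith

theorem vertex_dist (u v : V) :
    dist (Realization.vertex u : Realization Γ hΓ) (Realization.vertex v) = Γ.dist u v := by
  apply le_antisymm
  · obtain ⟨w, hw⟩ := hΓ.exists_walk_length_eq_dist u v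
    rw [← hw]
    exact Realization.dist_le (PathLen.of_walk w)
  · have := Realization.lipschitz (distFun Γ v) (distFun_lip hΓ v)
      (Realization.vertex u : Realization Γ hΓ) (Realization.vertex v)
    have e1 : distFun Γ v (Realization.vertex u : Realization Γ hΓ).coord = Γ.dist u v := by
      show distFun Γ v (Finsupp.single u 1) = _
      rw [distFun_single, one_mul]
    have e2 : distFun Γ v (Realization.vertex v : Realization Γ hΓ).coord = 0 := by
      show distFun Γ v (Finsupp.single v 1) = _
      rw [distFun_single]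
      simp
    rw [e1, e2, sub_zero, abs_of_nonneg (Nat.cast_nonneg _)] at this
    exact this

theorem exists_near_coord (x : Realization Γ hΓ) : ∃ u v : V, (u = v ∨ Γ.Adj u v) ∧
    ∃ t ∈ Set.Icc (0 : ℝ) 1, x.coord = bary u v t ∧ dist x (Realization.vertex u) ≤ t ∧
      dist x (Realization.vertex v) ≤ 1 - t := by
  obtain ⟨u, v, huv, t, ht, hx⟩ := x.mem
  refine ⟨u, v, huv, t, ht, hx, ?_, ?_⟩
  · rcases huv with rfl | huv
    · have : x = Realization.vertex u := by
        cases x
        simp only at hx
        subst hx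
        simp only [Realization.vertex, bary_self]
      rw [this, dist_self]
      exact ht.1
    · apply Realization.dist_le
      rw [hx]
      have := PathLen.single huv ht (t := 0) (by simp)
      rw [bary_zero, sub_zero, abs_of_nonneg ht.1] at this
      exact this
  · rcases huv with rfl | huv
    · have : x = Realization.vertex u := by
        cases x
        simp only at hx
        subst hx
        simp only [Realization.vertex, bary_self]
      rw [this, dist_self]
      linarith [ht.2]
    · apply Realization.dist_le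
      rw [hx]
      have := PathLen.single huv ht (t := 1) (by simp)
      rw [bary_one, abs_sub_comm, abs_of_nonneg (by linarith [ht.2])] at this
      exact this

theorem realization_near (x : Realization Γ hΓ) (g : V)
    (h : dist x (Realization.vertex g) < 1) :
    ∃ h : V, dist x (Realization.vertex h) ≤ 1 - dist x (Realization.vertex g) := by
  obtain ⟨u, v, huv, t, ht, hx, h1, h2⟩ := exists_near_coord x
  have h3 := Realization.lipschitz (distFun Γ g) (distFun_lip hΓ g) x
    (Realization.vertex g : Realization Γ hΓ)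
  have e2 : distFun Γ g (Realization.vertex g : Realization Γ hΓ).coord = 0 := by
    show distFun Γ g (Finsupp.single g 1) = _
    rw [distFun_single]
    simp
  have e1 : distFun Γ g x.coord = (1 - t) * Γ.dist u g + t * Γ.dist v g := by
    rw [hx]
    unfold bary
    rw [map_add, distFun_single, distFun_single]
  rw [e1, e2, sub_zero] at h3
  by_cases hu : u = g
  · subst hu
    exact ⟨v, by linarith⟩
  · by_cases hv : v = g
    · subst hv
      exact ⟨u, by linarith⟩
    · exfalso
      have p1 : (1 : ℝ) ≤ Γ.dist u g := by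
        exact_mod_cast (hΓ.pos_dist_of_ne hu)
      have p2 : (1 : ℝ) ≤ Γ.dist v g := by
        exact_mod_cast (hΓ.pos_dist_of_ne hv)
      have h4 := le_abs_self ((1 - t) * (Γ.dist u g : ℝ) + t * Γ.dist v g)
      nlinarith [ht.1, ht.2]

theorem realization_edge {u v : V} (h : Γ.Adj u v) : ∃ p : ℝ → Realization Γ hΓ,
    p 0 = Realization.vertex u ∧ p 1 = Realization.vertex v ∧
    ∀ s ∈ Set.Icc (0 : ℝ) 1, ∀ t ∈ Set.Icc (0 : ℝ) 1, dist (p s) (p t) ≤ |s - t| := by
  classical
  let p : ℝ → Realization Γ hΓ := fun s =>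
    if hs : s ∈ Set.Icc (0 : ℝ) 1 then ⟨bary u v s, u, v, Or.inr h, s, hs, rfl⟩
    else Realization.vertex u
  have hp : ∀ s (hs : s ∈ Set.Icc (0 : ℝ) 1), p s = ⟨bary u v s, u, v, Or.inr h, s, hs, rfl⟩ :=
    fun s hs => dif_pos hs
  refine ⟨p, ?_, ?_, ?_⟩
  · rw [hp 0 (by simp)]
    simp only [Realization.vertex, bary_zero]
  · rw [hp 1 (by simp)]
    simp only [Realization.vertex, bary_one]
  · intro s hs t ht
    rw [hp s hs, hp t ht]
    exact Realization.dist_le (PathLen.single h hs ht)

end model

/-- The Cayley graph is a model. -/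
theorem cayley_model {G : Type*} [Group G] (S : Finset G)
    (hS : Subgroup.closure (S : Set G) = ⊤) :
    @Model G (wordGeo S hS).toGeoMet (CayleyGraph S hS) _ Realization.vertex := by
  let _ := wordGeo S hS
  refine ⟨fun g h => vertex_dist g h, fun x => ?_, fun g h hgh => ?_, realization_near⟩
  · obtain ⟨u, v, _, t, ht, _, h1, _⟩ := exists_near_coord x
    exact ⟨u, h1.trans ht.2⟩
  · exact realization_edge (SimpleGraph.dist_eq_one_iff_adj.mp hgh)

end Pool.Agent.Lib.H76.Morse
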